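import Mathlib

/-!
# LBC: products of cyclotomic polynomials

`P` divides `P(X^2) P(-X) P(-X^2)` for every product `P` of cyclotomic polynomials.
-/

set_option autoImplicit false

namespace H92.LB

open Polynomial

/-- the product `P(X^2) P(-X) P(-X^2)` -/
noncomputable def tr (P : ℤ[X]) : ℤ[X] := P.comp (X ^ 2) * P.comp (-X) * P.comp (-X ^ 2)

theorem tr_mul (P R : ℤ[X]) : tr (P * R) = tr P * tr R := by
  unfold tr
  rw [mul_comp, mul_comp, mul_comp]
  ring

theorem tr_one : tr 1 = 1 := by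
  unfold tr
  simp

theorem neg_prim_four {R : Type*} [CommRing R] [IsDomain R] {ζ : R} {n : ℕ} (h : IsPrimitiveRoot ζ n)
    (h4 : 4 ∣ n) (hn : 0 < n) : IsPrimitiveRoot (-ζ) n := by
  obtain ⟨m, rfl⟩ := h4
  have hm : 0 < m := by omega
  -- `-1 = ζ ^ (2 m)`
  have h2 : IsPrimitiveRoot (ζ ^ (2 * m)) 2 := by
    have := h.pow (by omega : 0 < 4 * m) (show 4 * m = (2 * m) * 2 by ring)
    exact this
  have h3 : ζ ^ (2 * m) = -1 := h2.eq_neg_one_of_two_right
  have h4 : -ζ = ζ ^ (2 * m + 1) := by rw [pow_succ, h3]; ring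
  rw [h4]
  refine h.pow_of_coprime _ ?_
  have e : 4 * m = 2 * (2 * m) := by ring
  rw [e]
  refine Nat.Coprime.mul_right ?_ ?_
  · rw [Nat.coprime_comm, Nat.coprime_two_left]
    exact ⟨m, rfl⟩
  · simp

theorem sq_prim_odd {R : Type*} [CommRing R] [IsDomain R] {ζ : R} {n : ℕ} (h : IsPrimitiveRoot ζ n)
    (h2 : ¬ 2 ∣ n) : IsPrimitiveRoot (ζ ^ 2) n := by
  refine h.pow_of_coprime _ ?_
  rw [Nat.coprime_two_left]
  exact Nat.odd_iff.2 (by omega)

theorem neg_sq_prim {R : Type*} [CommRing R] [IsDomain R] {ζ : R} {n : ℕ} (h : IsPrimitiveRoot ζ n)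
    (h2 : 2 ∣ n) (h4 : ¬ 4 ∣ n) (hn : 0 < n) : IsPrimitiveRoot (-ζ ^ 2) n := by
  obtain ⟨m, rfl⟩ := h2
  have hm : 0 < m := by omega
  have hodd : Odd m := Nat.odd_iff.2 (by omega)
  -- `ζ ^ m = -1`
  have h3 : IsPrimitiveRoot (ζ ^ m) 2 := h.pow (by omega) (mul_comm 2 m)
  have h5 : ζ ^ m = -1 := h3.eq_neg_one_of_two_right
  have h6 : -ζ ^ 2 = ζ ^ (m + 2) := by rw [pow_add, h5]; ring
  rw [h6]
  refine h.pow_of_coprime _ ?_
  refine Nat.Coprime.mul_right ?_ ?_
  · rw [Nat.coprime_comm, Nat.coprime_two_left]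
    obtain ⟨k, hk⟩ := hodd
    exact ⟨k + 1, by omega⟩
  · have : Nat.Coprime (2 : ℕ) m := by
      rw [Nat.coprime_two_left]
      exact hodd
    simpa using this

/-- `Φ_n ∣ Φ_n(X^2) Φ_n(-X) Φ_n(-X^2)` -/
theorem cyc_dvd_tr {n : ℕ} (hn : 0 < n) : cyclotomic n ℤ ∣ tr (cyclotomic n ℤ) := by
  have : NeZero n := ⟨hn.ne'⟩
  obtain ⟨ζ, hζ⟩ : ∃ ζ : ℂ, IsPrimitiveRoot ζ n := ⟨_, Complex.isPrimitiveRoot_exp n hn.ne'⟩
  rw [cyclotomic_eq_minpoly hζ hn]
  refine minpoly.isIntegrallyClosed_dvd (hζ.isIntegral hn) ?_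
  have hev : ∀ w : ℂ, IsPrimitiveRoot w n → aeval w (cyclotomic n ℤ) = 0 := by
    intro w hw
    have h1 : (cyclotomic n ℂ).IsRoot w := hw.isRoot_cyclotomic hn
    rw [← map_cyclotomic_int n ℂ] at h1
    rw [aeval_def, eval₂_eq_eval_map]
    exact h1
  rw [← cyclotomic_eq_minpoly hζ hn]
  unfold tr
  rw [map_mul, map_mul, aeval_comp, aeval_comp, aeval_comp]
  simp only [map_pow, map_neg, aeval_X]
  by_cases h2 : 2 ∣ n
  · by_cases h4 : 4 ∣ n
    · rw [hev _ (neg_prim_four hζ h4 hn)]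
      ring
    · rw [hev _ (neg_sq_prim hζ h2 h4 hn)]
      ring
  · rw [hev _ (sq_prim_odd hζ h2)]
    ring

/-- the product of the cyclotomic polynomials with orders in `S` -/
noncomputable def cp (S : Multiset ℕ) : ℤ[X] := (S.map fun n => cyclotomic n ℤ).prod

theorem cp_cons (n : ℕ) (S : Multiset ℕ) : cp (n ::ₘ S) = cyclotomic n ℤ * cp S := by
  unfold cp
  rw [Multiset.map_cons, Multiset.prod_cons]

theorem cp_zero : cp 0 = 1 := by
  unfold cp
  simp

theorem cp_monic (S : Multiset ℕ) : (cp S).Monic := by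
  unfold cp
  exact monic_multiset_prod_of_monic _ _ fun n _ => cyclotomic.monic n ℤ

theorem cp_dvd_tr (S : Multiset ℕ) (hS : ∀ n ∈ S, 0 < n) : cp S ∣ tr (cp S) := by
  induction S using Multiset.induction_on with
  | empty => rw [cp_zero, tr_one]
  | cons n S ih =>
    rw [cp_cons, tr_mul]
    exact mul_dvd_mul (cyc_dvd_tr (hS n (Multiset.mem_cons_self n S)))
      (ih fun k hk => hS k (Multiset.mem_cons_of_mem hk))

theorem cp_root (S : Multiset ℕ) (hS : ∀ n ∈ S, 0 < n) (z : ℂ)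
    (hz : ((cp S).map (Int.castRingHom ℂ)).eval z = 0) : ∃ n : ℕ, 0 < n ∧ z ^ n = 1 := by
  induction S using Multiset.induction_on with
  | empty => simp [cp_zero] at hz
  | cons n S ih =>
    rw [cp_cons, Polynomial.map_mul, eval_mul, mul_eq_zero] at hz
    rcases hz with hz | hz
    · have hn := hS n (Multiset.mem_cons_self n S)
      have : NeZero (n : ℂ) := ⟨by exact_mod_cast hn.ne'⟩
      rw [map_cyclotomic] at hz
      have h1 : IsPrimitiveRoot z n := isRoot_cyclotomic_iff.1 hz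
      exact ⟨n, hn, h1.pow_eq_one⟩
    · exact ih (fun k hk => hS k (Multiset.mem_cons_of_mem hk)) hz

theorem tr_monic {P : ℤ[X]} (hP : P.Monic) : (tr P).Monic := by
  have h1 : (P.comp (X ^ 2)).Monic := hP.comp (monic_X_pow 2) (by simp)
  have h2 : (P.comp (-X) * P.comp (-X ^ 2)).Monic := by
    rw [Monic, leadingCoeff_mul, leadingCoeff_comp (by simp), leadingCoeff_comp (by simp),
      hP.leadingCoeff]
    simp only [leadingCoeff_neg, leadingCoeff_X, leadingCoeff_X_pow, one_mul]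
    rw [← mul_pow]
    simp
  unfold tr
  rw [mul_assoc]
  exact h1.mul h2

theorem tr_natDegree {P : ℤ[X]} : (tr P).natDegree ≤ 5 * P.natDegree := by
  unfold tr
  refine natDegree_mul_le.trans ?_
  have h1 := natDegree_mul_le (p := P.comp (X ^ 2)) (q := P.comp (-X))
  rw [natDegree_comp, natDegree_comp] at h1
  rw [natDegree_comp]
  simp only [natDegree_X_pow, natDegree_neg, natDegree_X] at h1 ⊢
  omega

/-- the quotient -/
theorem exists_quot (S : Multiset ℕ) (hS : ∀ n ∈ S, 0 < n) : ∃ Q : ℤ[X], tr (cp S) = cp S * Q ∧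
    Q.Monic ∧ Q.natDegree ≤ 4 * (cp S).natDegree ∧
    ∀ z : ℂ, (Q.map (Int.castRingHom ℂ)).eval z = 0 → ∃ n : ℕ, 0 < n ∧ z ^ n = 1 := by
  obtain ⟨Q, hQ⟩ := cp_dvd_tr S hS
  have hm := tr_monic (cp_monic S)
  have hQm : Q.Monic := (cp_monic S).of_mul_monic_left (by rw [← hQ]; exact hm)
  refine ⟨Q, hQ, hQm, ?_, ?_⟩
  · have h1 := tr_natDegree (P := cp S)
    rw [hQ, (cp_monic S).natDegree_mul hQm] at h1
    omega
  · intro z hz
    have h1 : ((tr (cp S)).map (Int.castRingHom ℂ)).eval z = 0 := by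
      rw [hQ, Polynomial.map_mul, eval_mul, hz, mul_zero]
    unfold tr at h1
    rw [Polynomial.map_mul, Polynomial.map_mul, map_comp, map_comp, map_comp, eval_mul, eval_mul,
      eval_comp, eval_comp, eval_comp, mul_eq_zero, mul_eq_zero] at h1
    simp only [Polynomial.map_pow, Polynomial.map_neg, map_X, eval_pow, eval_neg, eval_X] at h1
    rcases h1 with (h1 | h1) | h1
    · obtain ⟨n, hn, h⟩ := cp_root S hS _ h1
      exact ⟨2 * n, by omega, by rw [pow_mul]; exact h⟩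
    · obtain ⟨n, hn, h⟩ := cp_root S hS _ h1
      refine ⟨2 * n, by omega, ?_⟩
      have h2 : ((-z) ^ n) ^ 2 = 1 := by rw [h, one_pow]
      rw [← pow_mul, mul_comm n 2, pow_mul, neg_sq, ← pow_mul] at h2
      exact h2
    · obtain ⟨n, hn, h⟩ := cp_root S hS _ h1
      refine ⟨4 * n, by omega, ?_⟩
      have h2 : ((-z ^ 2) ^ n) ^ 2 = 1 := by rw [h, one_pow]
      rw [← pow_mul, mul_comm n 2, pow_mul, neg_sq, ← pow_mul, ← pow_mul] at h2
      rw [← h2]
      congr 1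
      ring

end H92.LB
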