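import Pool.Agent.H95.LB.BlocksOrb
import Pool.Agent.H92.LB.CycA

/-!
# LBC: analytic lemmas
-/

set_option autoImplicit false

namespace H92.LB

open H82.LB ComplexConjugate Polynomial

theorem kr_comm' (a b : ℂ) : kr a b = kr b a := by
  unfold kr
  have h : conj (1 - a * conj b) = 1 - b * conj a := by
    rw [map_sub, map_one, map_mul, Complex.conj_conj, mul_comm]
  rw [← h, RCLike.norm_conj]

theorem kr_neg_neg (a b : ℂ) : kr (-a) (-b) = kr a b := by
  unfold kr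
  rw [map_neg, neg_mul_neg]

theorem mul_conj_lt {a b : ℂ} (ha : ‖a‖ < 1) (hb : ‖b‖ < 1) : ‖a * conj b‖ < 1 := by
  rw [norm_mul, RCLike.norm_conj]
  have h3 := norm_nonneg a
  have h4 := norm_nonneg b
  nlinarith

theorem kr_sq {a b : ℂ} (ha : ‖a‖ < 1) (hb : ‖b‖ < 1) :
    kr (a ^ 2) (b ^ 2) = kr a b + kr (-a) b := by
  unfold kr
  have h1 : 1 - a * conj b ≠ 0 := kr_one_sub_ne (mul_conj_lt ha hb)
  have h2 : 1 - (-a) * conj b ≠ 0 := kr_one_sub_ne (mul_conj_lt (by rwa [norm_neg]) hb)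
  have e : 1 - a ^ 2 * conj (b ^ 2) = (1 - a * conj b) * (1 - (-a) * conj b) := by
    rw [map_pow]
    ring
  rw [e, norm_mul, Real.log_mul (norm_ne_zero_iff.2 h1) (norm_ne_zero_iff.2 h2)]
  ring

theorem pos2 {ι J : Type*} [Fintype ι] [Fintype J] (u : ι → ℂ) (v : J → ℂ)
    (hu : ∀ i, ‖u i‖ < 1) (hv : ∀ j, ‖v j‖ < 1) (t c : ℝ) :
    0 ≤ t ^ 2 * ∑ i, ∑ k, kr (u i) (u k) + 2 * t * c * ∑ i, ∑ j, kr (u i) (v j) +
      c ^ 2 * ∑ j, ∑ k, kr (v j) (v k) := by
  have h := kr_posdef (ι := ι ⊕ J) (Sum.elim (fun _ => t) (fun _ => c)) (Sum.elim u v) (by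
    rintro (i | j)
    · exact hu i
    · exact hv j)
  simp only [Fintype.sum_sum_type, Sum.elim_inl, Sum.elim_inr] at h
  refine h.trans (le_of_eq ?_)
  simp only [Finset.sum_add_distrib, ← Finset.mul_sum]
  have e : ∑ j, ∑ i, kr (v j) (u i) = ∑ i, ∑ j, kr (u i) (v j) := by
    rw [Finset.sum_comm]
    exact Finset.sum_congr rfl fun i _ => Finset.sum_congr rfl fun j _ => kr_comm' _ _
  rw [e]
  ring

/-- one point against contracted points -/
theorem kr_one_le {w z : ℂ} (hw : ‖w‖ < 1) (hz : ‖z‖ ≤ 1) {r : ℝ} (h0 : 0 ≤ r) (h1 : r ≤ 1) :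
    kr w (r * z) ≤ kr w z + (1 - r) := by
  have h := kr_split (ι := Unit) (z := fun _ => z) (fun _ => hz) (r := fun _ => r) (fun _ => h0)
    (fun _ => h1) hw
  simpa using h

/-- sums over blocks with the radii -/
theorem sub_blocks {J : Type} [Fintype J] (v : ℂ → ℝ) (a : J → ℂ) (ha : ∀ j, ‖a j‖ ≤ 1)
    (δ : J → ℝ) (hδ0 : ∀ j, 0 < δ j) (hδ1 : ∀ j, δ j ≤ 1 / 2) {N S : ℝ} (hN : 0 ≤ N)
    (hS : ∑ j, δ j ≤ S)
    (hV : ∀ j, ∀ s : ℝ, 0 < s → s ≤ 1 / 2 → v ((1 - s : ℝ) * a j) ≤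
      N * (s + (1 - ‖a j‖) + δ j * Real.log (2 + δ j / s)))
    (n : ℕ) (hn : 1 ≤ n) (b : J → Finset J) (hsym : ∀ i j, j ∈ b i ↔ i ∈ b j)
    (hcard : ∀ i, (b i).card ≤ n) (ε : ℝ) (hε0 : 0 < ε) (hε : ε ≤ 1 / 4) :
    ∃ r : J → ℝ, (∀ i, 1 / 2 ≤ r i) ∧ (∀ i, r i ≤ 1) ∧ (∀ i j, ‖(r i : ℂ) * a j‖ < 1) ∧
      ∑ i, (1 - r i) ≤ 2 * ε * S ∧
      ∑ i, ∑ j ∈ b i, v (r i * a j) ≤
        n * (N * (3 * Real.log (n / ε) * S + ∑ j, (1 - ‖a j‖))) := by
  classical
  have hn0 : (0 : ℝ) < n := by exact_mod_cast hn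
  have hn1 : (1 : ℝ) ≤ n := by exact_mod_cast hn
  have hS0 : 0 ≤ S := le_trans (Finset.sum_nonneg fun j _ => (hδ0 j).le) hS
  set D : J → ℝ := fun i => δ i + (1 / (n : ℝ)) * ∑ j ∈ b i, δ j with hD
  have hDsum0 : ∀ i, 0 ≤ ∑ j ∈ b i, δ j := fun i => Finset.sum_nonneg fun j _ => (hδ0 j).le
  have hD0 : ∀ i, 0 < D i := fun i => by
    have h1 := hδ0 i
    have h3 : 0 ≤ (1 / (n : ℝ)) * ∑ j ∈ b i, δ j := mul_nonneg (by positivity) (hDsum0 i)
    rw [hD]
    simp only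
    linarith
  have hD1 : ∀ i, D i ≤ 1 := by
    intro i
    have h1 : ∑ j ∈ b i, δ j ≤ n * (1 / 2) := by
      calc ∑ j ∈ b i, δ j ≤ ∑ j ∈ b i, (1 / 2 : ℝ) := Finset.sum_le_sum fun j _ => hδ1 j
        _ = (b i).card * (1 / 2) := by rw [Finset.sum_const, nsmul_eq_mul]
        _ ≤ n * (1 / 2) := by
          apply mul_le_mul_of_nonneg_right _ (by norm_num)
          exact_mod_cast hcard i
    have h2 : (1 / (n : ℝ)) * ∑ j ∈ b i, δ j ≤ 1 / 2 := by
      rw [one_div, inv_mul_le_iff₀ hn0]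
      exact h1
    have h3 := hδ1 i
    rw [hD]
    simp only
    linarith
  have hDj : ∀ i, ∀ j ∈ b i, δ j ≤ n * D i := by
    intro i j hj
    have h1 : δ j ≤ ∑ j ∈ b i, δ j := Finset.single_le_sum (fun k _ => (hδ0 k).le) hj
    have h2 : n * D i = n * δ i + ∑ j ∈ b i, δ j := by
      rw [hD]
      simp only
      field_simp
    have h3 := hδ0 i
    rw [h2]
    have h4 : 0 ≤ n * δ i := by positivity
    linarith
  have hDs : ∑ i, D i ≤ 2 * S := by
    rw [hD]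
    simp only
    rw [Finset.sum_add_distrib, ← Finset.mul_sum]
    have h1 := sum_blocks hsym hcard (F := δ) fun i => (hδ0 i).le
    have h2 : (1 / (n : ℝ)) * ∑ i, ∑ j ∈ b i, δ j ≤ ∑ i, δ i := by
      rw [one_div, inv_mul_le_iff₀ hn0]
      exact h1
    linarith
  set r : J → ℝ := fun i => 1 - ε * D i with hr
  have hεD0 : ∀ i, 0 < ε * D i := fun i => mul_pos hε0 (hD0 i)
  have hεD1 : ∀ i, ε * D i ≤ 1 / 4 := fun i => by
    have h1 := mul_le_mul hε (hD1 i) (hD0 i).le (by norm_num)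
    linarith
  have hr2 : ∀ i, 1 / 2 ≤ r i := fun i => by
    have := hεD1 i
    rw [hr]
    simp only
    linarith
  have hr1 : ∀ i, r i ≤ 1 := fun i => by
    have := hεD0 i
    rw [hr]
    simp only
    linarith
  have hrz : ∀ i j, ‖(r i : ℂ) * a j‖ < 1 := by
    intro i j
    rw [norm_mul, Complex.norm_real, Real.norm_of_nonneg (by linarith [hr2 i])]
    have h1 : r i < 1 := by
      have := hεD0 i
      rw [hr]
      simp only
      linarith
    have h2 := hr2 i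
    have h3 := ha j
    have h4 := norm_nonneg (a j)
    nlinarith
  have hrs : ∑ i, (1 - r i) ≤ 2 * ε * S := by
    have h1 : ∑ i, (1 - r i) = ε * ∑ i, D i := by
      rw [Finset.mul_sum]
      refine Finset.sum_congr rfl fun i _ => ?_
      rw [hr]
      simp only
      ring
    rw [h1]
    nlinarith [mul_le_mul_of_nonneg_left hDs hε0.le]
  set Λ : ℝ := Real.log (n / ε) with hΛ
  have hnε : 4 ≤ n / ε := by
    rw [le_div_iff₀ hε0]
    linarith
  have hΛ1 : 1 ≤ Λ := by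
    have h1 : Real.log 4 ≤ Λ := Real.log_le_log (by norm_num) hnε
    have h2 : Real.log 4 = 2 * Real.log 2 := by
      rw [show (4 : ℝ) = 2 ^ 2 by norm_num, Real.log_pow]
      norm_num
    have h3 := Real.log_two_gt_d9
    linarith
  have hΛ2 : Real.log (2 + n / ε) ≤ 2 * Λ := by
    have h1 : 2 + n / ε ≤ (n / ε) ^ 2 := by nlinarith
    have h2 := Real.log_le_log (by linarith) h1
    rw [Real.log_pow] at h2
    push_cast at h2
    exact h2
  refine ⟨r, hr2, hr1, hrz, hrs, ?_⟩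
  have hpt : ∀ i, ∀ j ∈ b i, v (r i * a j) ≤
      N * (ε * D i) + (N * (1 - ‖a j‖) + N * (2 * Λ) * δ j) := by
    intro i j hj
    have h2 := hV j (ε * D i) (hεD0 i) (by linarith [hεD1 i])
    have h3 : Real.log (2 + δ j / (ε * D i)) ≤ 2 * Λ := by
      refine le_trans (Real.log_le_log ?_ ?_) hΛ2
      · have := div_pos (hδ0 j) (hεD0 i)
        linarith
      · have h4 : δ j / (ε * D i) ≤ n / ε := by
          rw [div_le_div_iff₀ (hεD0 i) hε0]
          have h5 := mul_le_mul_of_nonneg_left (hDj i j hj) hε0.le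
          nlinarith
        linarith
    have h4 : δ j * Real.log (2 + δ j / (ε * D i)) ≤ δ j * (2 * Λ) :=
      mul_le_mul_of_nonneg_left h3 (hδ0 j).le
    have h5 := mul_le_mul_of_nonneg_left
      (show ε * D i + (1 - ‖a j‖) + δ j * Real.log (2 + δ j / (ε * D i)) ≤
        ε * D i + (1 - ‖a j‖) + δ j * (2 * Λ) by linarith) hN
    have e : ((1 - ε * D i : ℝ) : ℂ) = (r i : ℂ) := rfl
    rw [e] at h2
    refine h2.trans (h5.trans (le_of_eq ?_))
    ring
  refine (Finset.sum_le_sum fun i _ => Finset.sum_le_sum fun j hj => hpt i j hj).trans ?_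
  simp only [Finset.sum_add_distrib]
  have g1 : ∑ i, ∑ _j ∈ b i, N * (ε * D i) ≤ n * (N * (ε * ∑ i, D i)) := by
    calc ∑ i, ∑ _j ∈ b i, N * (ε * D i) = ∑ i, (b i).card * (N * (ε * D i)) := by
          refine Finset.sum_congr rfl fun i _ => ?_
          rw [Finset.sum_const, nsmul_eq_mul]
      _ ≤ ∑ i, n * (N * (ε * D i)) := by
          refine Finset.sum_le_sum fun i _ => ?_
          apply mul_le_mul_of_nonneg_right
          · exact_mod_cast hcard i
          · exact mul_nonneg hN (hεD0 i).le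
      _ = n * (N * (ε * ∑ i, D i)) := by
          rw [← Finset.mul_sum, ← Finset.mul_sum, ← Finset.mul_sum]
  have g2 : ∑ i, ∑ j ∈ b i, N * (1 - ‖a j‖) ≤ n * (N * ∑ j, (1 - ‖a j‖)) := by
    have := sum_blocks hsym hcard (F := fun j => N * (1 - ‖a j‖))
      (fun j => mul_nonneg hN (by linarith [ha j]))
    rwa [← Finset.mul_sum] at this
  have g3 : ∑ i, ∑ j ∈ b i, N * (2 * Λ) * δ j ≤ n * (N * (2 * Λ) * ∑ j, δ j) := by
    have := sum_blocks hsym hcard (F := fun j => N * (2 * Λ) * δ j)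
      (fun j => mul_nonneg (mul_nonneg hN (by linarith)) (hδ0 j).le)
    rwa [← Finset.mul_sum] at this
  have k1 : ε * ∑ i, D i ≤ Λ * S := by
    have h1 : ε * ∑ i, D i ≤ 1 / 4 * (2 * S) :=
      mul_le_mul hε hDs (Finset.sum_nonneg fun i _ => (hD0 i).le) (by norm_num)
    nlinarith
  have k2 : (2 * Λ) * ∑ j, δ j ≤ 2 * Λ * S := mul_le_mul_of_nonneg_left hS (by linarith)
  have k3 : N * (ε * ∑ i, D i) ≤ N * (Λ * S) := mul_le_mul_of_nonneg_left k1 hN
  have k4 : N * (2 * Λ) * ∑ j, δ j ≤ N * (2 * Λ * S) := by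
    rw [mul_assoc]
    exact mul_le_mul_of_nonneg_left k2 hN
  have k5 : n * (N * (ε * ∑ i, D i)) + (n * (N * ∑ j, (1 - ‖a j‖)) +
      n * (N * (2 * Λ) * ∑ j, δ j)) ≤
      n * (N * (3 * Λ * S + ∑ j, (1 - ‖a j‖))) := by
    have h1 : n * (N * (ε * ∑ i, D i)) ≤ n * (N * (Λ * S)) := mul_le_mul_of_nonneg_left k3 hn0.le
    have h2 : n * (N * (2 * Λ) * ∑ j, δ j) ≤ n * (N * (2 * Λ * S)) :=
      mul_le_mul_of_nonneg_left k4 hn0.le
    have e : (n : ℝ) * (N * (3 * Λ * S + ∑ j, (1 - ‖a j‖))) =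
        n * (N * (Λ * S)) + (n * (N * ∑ j, (1 - ‖a j‖)) + n * (N * (2 * Λ * S))) := by ring
    rw [e]
    linarith
  linarith

theorem fam0 (s : Multiset ℂ) (n : ℕ) (h : s.card = n) : ∃ z : Fin n → ℂ, (∀ i, z i ∈ s) ∧
    ∀ w : ℂ, (s.map fun a => w - a).prod = ∏ i, (w - z i) := by
  induction s using Quotient.inductionOn with
  | h l =>
    have hl : l.length = n := h
    subst hl
    refine ⟨fun i => l[i], fun i => ?_, fun w => ?_⟩
    · exact List.getElem_mem _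
    · have h1 := Fin.prod_univ_fun_getElem l (fun a : ℂ => w - a)
      exact h1.symm

/-- the roots of a monic polynomial all of whose roots are roots of unity -/
theorem fam (G : ℤ[X]) (hG : G.Monic)
    (hr : ∀ z : ℂ, (G.map (Int.castRingHom ℂ)).eval z = 0 → ∃ n : ℕ, 0 < n ∧ z ^ n = 1) :
    ∃ z : Fin G.natDegree → ℂ, (∀ i, ‖z i‖ = 1) ∧
      ∀ w : ℂ, (G.map (Int.castRingHom ℂ)).eval w = ∏ i, (w - z i) := by
  have hgm : (G.map (Int.castRingHom ℂ)).Monic := hG.map _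
  have hsp : (G.map (Int.castRingHom ℂ)).Splits := IsAlgClosed.splits _
  have hcard : (G.map (Int.castRingHom ℂ)).roots.card = G.natDegree := by
    rw [splits_iff_card_roots.1 hsp, natDegree_map_eq_of_injective]
    exact Int.cast_injective
  obtain ⟨z, hz, hzp⟩ := fam0 _ _ hcard
  refine ⟨z, ?_, ?_⟩
  · intro i
    obtain ⟨n, hn, h2⟩ := hr _ ((mem_roots'.1 (hz i)).2)
    have h3 := congrArg norm h2
    rw [norm_pow, norm_one] at h3
    exact (pow_eq_one_iff_of_nonneg (norm_nonneg _) hn.ne').1 h3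
  · intro w
    rw [← hzp w]
    have h1 : G.map (Int.castRingHom ℂ) =
        ((G.map (Int.castRingHom ℂ)).roots.map fun a => X - C a).prod := by
      have := hsp.eq_prod_roots
      rwa [hgm.leadingCoeff, C_1, one_mul] at this
    conv_lhs => rw [h1]
    rw [eval_multiset_prod, Multiset.map_map]
    congr 1
    refine Multiset.map_congr rfl fun a _ => ?_
    simp

/-- the kernel against the roots -/
theorem kr_fam {n : ℕ} {z : Fin n → ℂ} (hz : ∀ i, ‖z i‖ = 1) {w : ℂ} (hw : ‖w‖ < 1) :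
    ∏ i, (w - z i) ≠ 0 ∧ ∑ i, kr (z i) w = -Real.log ‖∏ i, (w - z i)‖ := by
  have hne : ∀ i, w - z i ≠ 0 := by
    intro i h
    rw [sub_eq_zero] at h
    rw [h, hz i] at hw
    exact lt_irrefl _ hw
  refine ⟨Finset.prod_ne_zero_iff.2 fun i _ => hne i, ?_⟩
  rw [norm_prod, Real.log_prod fun i _ => norm_ne_zero_iff.2 (hne i), ← Finset.sum_neg_distrib]
  refine Finset.sum_congr rfl fun i _ => ?_
  rw [kr_comm']
  unfold kr
  have h1 : z i * (1 - w * conj (z i)) = z i - w := by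
    have h2 : z i * conj (z i) = 1 := by
      rw [Complex.mul_conj, Complex.normSq_eq_norm_sq, hz i]
      norm_num
    linear_combination (-w) * h2
  have h3 := congrArg norm h1
  rw [norm_mul, hz i, one_mul] at h3
  rw [h3, norm_sub_rev]

/-- lower bound at a contracted reflected point -/
theorem low_fam {n : ℕ} {z : Fin n → ℂ} (hz : ∀ i, ‖z i‖ = 1) {a : ℂ}
    (ha : ∏ i, (a - z i) ≠ 0) {r : ℝ} (h0 : 0 ≤ r) (h1 : r ≤ 1) (hr : ‖(r : ℂ) * rf a‖ < 1) :
    Real.log ‖∏ i, (a - z i)‖ - n * (Real.posLog ‖a‖ + (1 - r)) ≤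
      Real.log ‖∏ i, (r * rf a - z i)‖ := by
  have hne : ∀ i, a - z i ≠ 0 := fun i => Finset.prod_ne_zero_iff.1 ha i (Finset.mem_univ i)
  obtain ⟨-, h2⟩ := kr_fam hz hr
  have h3 : ∑ i, kr (z i) (r * rf a) ≤
      ∑ i, (- Real.log ‖a - z i‖ + (Real.posLog ‖a‖ + (1 - r))) := by
    refine Finset.sum_le_sum fun i _ => ?_
    have h4 := kr_le (sub_ne_zero.1 (hne i)) h0 h1 zero_le_one le_rfl
    have h5 : rf (z i) = z i := by
      unfold rf
      rw [if_pos (hz i).le]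
    rw [h5, hz i] at h4
    simp only [Complex.ofReal_one, one_mul, sub_self, add_zero] at h4
    have h6 : Real.posLog (1 : ℝ) = 0 := by simp [Real.posLog]
    rw [h6] at h4
    rw [kr_comm']
    linarith
  rw [Finset.sum_add_distrib, Finset.sum_neg_distrib, Finset.sum_const, Finset.card_univ,
    Fintype.card_fin, nsmul_eq_mul,
    ← Real.log_prod fun i _ => norm_ne_zero_iff.2 (hne i), ← norm_prod] at h3
  linarith

end H92.LB
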