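import Pool.Agent.H92.LB.CycB

/-!
# LBC: the truncated energy of the conjugates from the energy of a cyclotomic multiple

The squares, the negatives and the negated squares of the points of `f` are tested against the
roots of `F = f ^ e P`; `P` divides `P(X^2) P(-X) P(-X^2)`.
-/

set_option autoImplicit false

namespace H92.LB

open H25.Arith H25.Arith.Disc H91.LK H82.LB H73.LB Polynomial

variable {K : Type} [Field K] [NumberField K] [IsGalois ℚ K]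

omit [IsGalois ℚ K] in
theorem blk_card (α : K) (p : ℕ) (x : K) (hx : x ∈ orb α) :
    (blk α p x).card = (blk α p α).card := by
  obtain ⟨g, rfl⟩ := Disc.mem_orb.1 hx
  symm
  refine Finset.card_bij (fun y _ => g y) ?_ ?_ ?_
  · intro y hy
    rw [mem_blk] at hy ⊢
    exact ⟨map_mem_orb hy.1 g, by rw [← map_pow, hy.2, map_pow]⟩
  · intro y _ z _ h
    exact g.injective h
  · intro y hy
    rw [mem_blk] at hy
    refine ⟨g.symm y, ?_, by simp⟩
    rw [mem_blk]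
    refine ⟨map_mem_orb hy.1 g.symm, g.injective ?_⟩
    rw [map_pow, map_pow]
    simpa using hy.2

omit [IsGalois ℚ K] in
theorem blk_symm {α : K} {p : ℕ} {x y : K} (hx : x ∈ orb α) (hy : y ∈ orb α) :
    y ∈ blk α p x ↔ x ∈ blk α p y := by
  rw [mem_blk, mem_blk]
  exact ⟨fun h => ⟨hx, h.2.symm⟩, fun h => ⟨hy, h.2.symm⟩⟩

omit [IsGalois ℚ K] in
theorem sum_blk_right {α : K} {p κ : ℕ} (hκ : ∀ x ∈ orb α, (blk α p x).card = κ) (F : K → ℝ) :
    ∑ x ∈ orb α, ∑ y ∈ blk α p x, F y = κ * ∑ y ∈ orb α, F y := by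
  have h1 : ∑ x ∈ orb α, ∑ y ∈ blk α p x, F y = ∑ y ∈ orb α, ∑ x ∈ blk α p y, F y := by
    refine Finset.sum_comm' ?_
    intro x y
    constructor
    · rintro ⟨hx, hy⟩
      have hy' := (mem_blk.1 hy).1
      exact ⟨(blk_symm hx hy').1 hy, hy'⟩
    · rintro ⟨hx, hy⟩
      have hx' := (mem_blk.1 hx).1
      exact ⟨hx', (blk_symm hx' hy).2 hx⟩
  rw [h1, Finset.mul_sum]
  refine Finset.sum_congr rfl fun y hy => ?_
  rw [Finset.sum_const, nsmul_eq_mul, hκ y hy]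

omit [IsGalois ℚ K] in
theorem sum_blk_left {α : K} {p κ : ℕ} (hκ : ∀ x ∈ orb α, (blk α p x).card = κ) (F : K → ℝ) :
    ∑ x ∈ orb α, ∑ _y ∈ blk α p x, F x = κ * ∑ y ∈ orb α, F y := by
  rw [Finset.mul_sum]
  refine Finset.sum_congr rfl fun y hy => ?_
  rw [Finset.sum_const, nsmul_eq_mul, hκ y hy]

/-- the three maps -/
def gm {R : Type*} [Ring R] (i : Fin 3) (w : R) : R := if i = 0 then w ^ 2 else if i = 1 then -w
  else -w ^ 2

theorem gm_norm_lt (i : Fin 3) {w : ℂ} (hw : ‖w‖ < 1) : ‖gm i w‖ < 1 := by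
  have h : ‖w ^ 2‖ < 1 := by
    rw [norm_pow]
    exact pow_lt_one₀ (norm_nonneg _) hw two_ne_zero
  unfold gm
  split_ifs
  · exact h
  · rwa [norm_neg]
  · rwa [norm_neg]

theorem rf_neg (a : ℂ) : rf (-a) = -rf a := by
  unfold rf
  rw [norm_neg, map_neg]
  split_ifs
  · rfl
  · rw [inv_neg]

theorem kr_gm_le (i : Fin 3) {a b : ℂ} {r s : ℝ} (hr0 : 0 ≤ r) (hr1 : r ≤ 1) (hs0 : 0 ≤ s)
    (hs1 : s ≤ 1) (hab : a ≠ gm i b) :
    kr (r * rf a) (gm i (s * rf b)) ≤ - Real.log ‖a - gm i b‖ + (Real.posLog ‖a‖ + (1 - r)) +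
      2 * (Real.posLog ‖b‖ + (1 - s)) := by
  have hp : 0 ≤ Real.posLog ‖b‖ := Real.posLog_nonneg
  unfold gm at hab ⊢
  split_ifs at hab ⊢ with h0 h1
  · have h := kr_pow_le (a := a) (b := b) hr0 hr1 hs0 hs1 1 2 (by rwa [pow_one])
    rw [pow_one, pow_one] at h
    push_cast at h
    linarith
  · have h := kr_le hab hr0 hr1 hs0 hs1
    rw [rf_neg, norm_neg, mul_neg] at h
    linarith
  · have h := kr_le hab hr0 hr1 (pow_nonneg hs0 2) (pow_le_one₀ hs0 hs1)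
    rw [rf_neg, rf_pow, norm_neg, posLog_pow'] at h
    have h4 := one_sub_pow_le' hs0 2
    have e2 : -((s : ℂ) * rf b) ^ 2 = ((s ^ 2 : ℝ) : ℂ) * -rf b ^ 2 := by
      push_cast
      ring
    rw [e2]
    push_cast at h h4 ⊢
    linarith

/-- the self terms -/
theorem kr_gm_self (i : Fin 3) {w w' : ℂ} (hw : ‖w‖ < 1) (hw' : ‖w'‖ < 1) :
    kr (gm i w) (gm i w') = kr w w' + (if i = 1 then 0 else kr (-w) w') := by
  unfold gm
  split_ifs with h0 h1 h2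
  · exact absurd (h0.symm.trans h1) (by decide)
  · exact kr_sq hw hw'
  · rw [kr_neg_neg, add_zero]
  · rw [kr_neg_neg, kr_sq hw hw']

theorem pos2F {ι β : Type*} [Fintype ι] (u : ι → ℂ) (hu : ∀ i, ‖u i‖ < 1) (s : Finset β)
    (v : β → ℂ) (hv : ∀ j ∈ s, ‖v j‖ < 1) (t c : ℝ) :
    0 ≤ t ^ 2 * ∑ i, ∑ k, kr (u i) (u k) + 2 * t * c * ∑ i, ∑ j ∈ s, kr (u i) (v j) +
      c ^ 2 * ∑ j ∈ s, ∑ k ∈ s, kr (v j) (v k) := by
  have h := pos2 u (fun j : {j // j ∈ s} => v j) hu (fun j => hv j j.2) t c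
  have e1 : ∑ i, ∑ j : {j // j ∈ s}, kr (u i) (v j) = ∑ i, ∑ j ∈ s, kr (u i) (v j) :=
    Finset.sum_congr rfl fun i _ => Finset.sum_coe_sort s (fun j => kr (u i) (v j))
  have e2 : ∑ j : {j // j ∈ s}, ∑ k : {j // j ∈ s}, kr (v j) (v k) =
      ∑ j ∈ s, ∑ k ∈ s, kr (v j) (v k) := by
    rw [← Finset.sum_coe_sort s (fun j => ∑ k ∈ s, kr (v j) (v k))]
    exact Finset.sum_congr rfl fun j _ => Finset.sum_coe_sort s (fun k => kr (v j) (v k))
  rw [e1, e2] at h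
  exact h

/-- the potential of the conjugates -/
noncomputable def vf (σ : K →+* ℂ) (α : K) (w : ℂ) : ℝ := ∑ y ∈ orb α, kr w (rf (σ y))

/-- the point of the pair `(x, y)`: the conjugate `y` with the radius of `x` -/
noncomputable def pt (σ : K →+* ℂ) (s : K → ℝ) (q : (_ : K) × K) : ℂ := s q.1 * rf (σ q.2)

theorem log_gm_nonneg (σ : K →+* ℂ) (α : K) (hα : IsIntegral ℤ α) (i : Fin 3)
    (h : ∀ x ∈ orb α, ∀ y ∈ orb α, x ≠ gm i y) :
    0 ≤ ∑ x ∈ orb α, ∑ y ∈ orb α, Real.log ‖σ x - gm i (σ y)‖ := by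
  have hσ : ∀ y : K, σ (gm i y) = gm i (σ y) := by
    intro y
    unfold gm
    split_ifs <;> simp
  have h1 := log_pairs_nonneg σ α (fun x y => x - gm i y)
    (fun x hx y hy => by
      refine (orb_integral hα hx).sub ?_
      unfold gm
      split_ifs
      · exact (orb_integral hα hy).pow 2
      · exact (orb_integral hα hy).neg
      · exact ((orb_integral hα hy).pow 2).neg)
    (fun g x y => by
      unfold gm
      split_ifs <;> simp)
    (fun x hx y hy => sub_ne_zero.2 (h x hx y hy))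
  refine h1.trans (le_of_eq ?_)
  refine Finset.sum_congr rfl fun x _ => Finset.sum_congr rfl fun y _ => ?_
  rw [map_sub, hσ]

/-- **the trick** -/
theorem trick (σ : K →+* ℂ) (α : K) (hα : IsIntegral ℤ α) {p κ : ℕ} (hκ : 1 ≤ κ)
    (hblk : ∀ x ∈ orb α, (blk α p x).card = κ)
    (hne : ∀ i : Fin 3, ∀ x ∈ orb α, ∀ y ∈ orb α, x ≠ gm i y)
    {mP mQ : ℕ} (zP : Fin mP → ℂ) (hzP : ∀ i, ‖zP i‖ = 1) (zQ : Fin mQ → ℂ)
    (hzQ : ∀ i, ‖zQ i‖ = 1)
    (htr : ∀ w : ℂ, (∏ i, (w ^ 2 - zP i)) * (∏ i, (-w - zP i)) * (∏ i, (-w ^ 2 - zP i)) =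
      (∏ i, (w - zP i)) * ∏ i, (w - zQ i))
    (hQ : ∀ x ∈ orb α, ∏ i, (σ x - zQ i) ≠ 0)
    (hQn : 0 ≤ ∑ y ∈ orb α, Real.log ‖∏ i, (σ y - zQ i)‖)
    {e : ℕ} (he : 1 ≤ e) (rO : {x // x ∈ orb α} × Fin e → ℝ) (hO0 : ∀ q, 0 ≤ rO q)
    (hO1 : ∀ q, rO q ≤ 1) (hO : ∀ q, ‖(rO q : ℂ) * rf (σ q.1)‖ < 1)
    (rP : Fin mP → ℝ) (hP0 : ∀ i, 0 ≤ rP i) (hP1 : ∀ i, rP i < 1)
    (s : K → ℝ) (hs0 : ∀ x ∈ orb α, 0 ≤ s x) (hs1 : ∀ x ∈ orb α, s x ≤ 1)
    (hs : ∀ x ∈ orb α, ∀ y ∈ orb α, ‖(s x : ℂ) * rf (σ y)‖ < 1)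
    {m ηO ηP ηs Z Y : ℝ} (hm : ∑ x ∈ orb α, Real.posLog ‖σ x‖ = m)
    (hηO : ∑ q, (1 - rO q) ≤ ηO) (hηP : ∑ i, (1 - rP i) ≤ ηP)
    (hηs : ∑ x ∈ orb α, (1 - s x) ≤ ηs)
    (hZ : ∑ i : ({x // x ∈ orb α} × Fin e) ⊕ Fin mP, ∑ k : ({x // x ∈ orb α} × Fin e) ⊕ Fin mP,
      kr (Sum.elim (fun q => (rO q : ℂ) * rf (σ q.1)) (fun i => (rP i : ℂ) * zP i) i)
        (Sum.elim (fun q => (rO q : ℂ) * rf (σ q.1)) (fun i => (rP i : ℂ) * zP i) k) ≤ Z)
    (hY : ∑ x ∈ orb α, ∑ y ∈ blk α p x, (e * vf σ α (s x * rf (σ y)) +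
      ∑ i, kr (s x * rf (σ y)) (zP i)) ≤ κ * Y) :
    ∑ x ∈ orb α, ∑ y ∈ blk α p x, vf σ α (s x * rf (σ y)) ≤
      κ * (12 / (e : ℝ) ^ 2 * Z + 4 / (e : ℝ) * (Y + (3 * (orb α).card * (e * m + ηO) +
        6 * (orb α).card * e * (m + ηs) + 3 * (orb α).card * ηP + mQ * (m + ηs))) +
        7 * (orb α).card * (m + ηs)) := by
  classical
  have hκ0 : (0 : ℝ) < κ := by exact_mod_cast hκ
  have he0 : (0 : ℝ) < e := by exact_mod_cast he
  set d : ℝ := ((orb α).card : ℝ) with hd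
  have hd0 : 0 ≤ d := by rw [hd]; exact Nat.cast_nonneg _
  set U : ℝ := m + ηs with hU
  set B : ℝ := ∑ x ∈ orb α, ∑ y ∈ blk α p x, vf σ α (s x * rf (σ y)) with hB
  set R : ℝ := ∑ x ∈ orb α, ∑ y ∈ blk α p x, Real.log ‖∏ i, ((s x : ℂ) * rf (σ y) - zP i)‖ with hR
  have horb : ∀ x ∈ orb α, ∀ y ∈ blk α p x, y ∈ orb α := fun x _ y hy => (mem_blk.1 hy).1
  have hw : ∀ x ∈ orb α, ∀ y ∈ blk α p x, ‖(s x : ℂ) * rf (σ y)‖ < 1 := fun x hx y hy =>
    hs x hx y (horb x hx y hy)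
  -- `e B ≤ κ Y + R`
  have h1 : e * B ≤ κ * Y + R := by
    have e1 : ∑ x ∈ orb α, ∑ y ∈ blk α p x, (e * vf σ α (s x * rf (σ y)) +
        ∑ i, kr (s x * rf (σ y)) (zP i)) = e * B - R := by
      have e2 : ∀ x ∈ orb α, ∀ y ∈ blk α p x, e * vf σ α (s x * rf (σ y)) +
          ∑ i, kr (s x * rf (σ y)) (zP i) = e * vf σ α (s x * rf (σ y)) +
          -Real.log ‖∏ i, ((s x : ℂ) * rf (σ y) - zP i)‖ := by
        intro x hx y hy
        obtain ⟨-, h2⟩ := kr_fam hzP (hw x hx y hy)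
        rw [← h2]
        congr 1
        exact Finset.sum_congr rfl fun i _ => kr_comm' _ _
      rw [Finset.sum_congr rfl fun x hx => Finset.sum_congr rfl fun y hy => e2 x hx y hy]
      simp only [Finset.sum_add_distrib, Finset.sum_neg_distrib, ← Finset.mul_sum]
      rw [← hB, ← hR]
      ring
    rw [e1] at hY
    linarith
  -- sums over the pairs
  have hUs : ∑ x ∈ orb α, ∑ y ∈ blk α p x, (Real.posLog ‖σ y‖ + (1 - s x)) ≤ κ * U := by
    simp only [Finset.sum_add_distrib]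
    have e1 := sum_blk_right hblk (fun y => Real.posLog ‖σ y‖)
    have e2 := sum_blk_left hblk (fun x => 1 - s x)
    rw [e1, e2, hm, hU]
    nlinarith
  have hcardS : ∑ x ∈ orb α, ∑ _y ∈ blk α p x, (1 : ℝ) = κ * d := by
    have := sum_blk_left hblk (fun _ => (1 : ℝ))
    rw [this, Finset.sum_const, nsmul_eq_mul, mul_one]
  set S : Finset ((_ : K) × K) := (orb α).sigma fun x => blk α p x with hSdef
  have hS : ∀ F : K → K → ℝ, ∑ q ∈ S, F q.1 q.2 = ∑ x ∈ orb α, ∑ y ∈ blk α p x, F x y := by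
    intro F
    rw [hSdef, Finset.sum_sigma]
  have hSm : ∀ q ∈ S, q.1 ∈ orb α ∧ q.2 ∈ blk α p q.1 := by
    intro q hq
    exact Finset.mem_sigma.1 hq
  set u : ({x // x ∈ orb α} × Fin e) ⊕ Fin mP → ℂ :=
    Sum.elim (fun q => (rO q : ℂ) * rf (σ q.1)) (fun i => (rP i : ℂ) * zP i) with hu
  have hu1 : ∀ i, ‖u i‖ < 1 := by
    rintro (q | i)
    · exact hO q
    · change ‖(rP i : ℂ) * zP i‖ < 1
      rw [norm_mul, hzP i, mul_one, Complex.norm_real, Real.norm_of_nonneg (hP0 i)]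
      exact hP1 i
  have hptn : ∀ q ∈ S, ‖pt σ s q‖ < 1 := fun q hq => hw q.1 (hSm q hq).1 q.2 (hSm q hq).2
  -- the orbit part
  have hCO : ∀ i : Fin 3, ∑ q' : {x // x ∈ orb α} × Fin e, ∑ q ∈ S,
      kr ((rO q' : ℂ) * rf (σ q'.1)) (gm i (pt σ s q)) ≤
      κ * (d * (e * m + ηO) + 2 * d * e * U) := by
    intro i
    have hb : ∀ q' : {x // x ∈ orb α} × Fin e, ∀ q ∈ S,
        kr ((rO q' : ℂ) * rf (σ q'.1)) (gm i (pt σ s q)) ≤
        - Real.log ‖σ q'.1 - gm i (σ q.2)‖ + (Real.posLog ‖σ q'.1‖ + (1 - rO q')) +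
        2 * (Real.posLog ‖σ q.2‖ + (1 - s q.1)) := by
      intro q' q hq
      refine kr_gm_le i (hO0 q') (hO1 q') (hs0 _ (hSm q hq).1) (hs1 _ (hSm q hq).1) ?_
      intro h3
      have hσ : σ (gm i q.2) = gm i (σ q.2) := by
        unfold gm
        split_ifs <;> simp
      rw [← hσ] at h3
      exact hne i q'.1 q'.1.2 q.2 (horb _ (hSm q hq).1 _ (hSm q hq).2) (σ.injective h3)
    refine (Finset.sum_le_sum fun q' _ => Finset.sum_le_sum fun q hq => hb q' q hq).trans ?_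
    simp only [Finset.sum_add_distrib, Finset.sum_neg_distrib, ← Finset.mul_sum]
    have f1 : ∑ q' : {x // x ∈ orb α} × Fin e, ∑ q ∈ S, Real.log ‖σ q'.1 - gm i (σ q.2)‖ =
        e * (κ * ∑ x ∈ orb α, ∑ y ∈ orb α, Real.log ‖σ x - gm i (σ y)‖) := by
      have g1 : ∀ x : K, ∑ q ∈ S, Real.log ‖σ x - gm i (σ q.2)‖ =
          κ * ∑ y ∈ orb α, Real.log ‖σ x - gm i (σ y)‖ := by
        intro x
        rw [hS (fun _ y => Real.log ‖σ x - gm i (σ y)‖)]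
        exact sum_blk_right hblk _
      rw [Fintype.sum_prod_type]
      simp only [g1, Finset.sum_const, Finset.card_univ, Fintype.card_fin, nsmul_eq_mul]
      rw [Finset.sum_coe_sort (orb α)
        (fun x => (e : ℝ) * (κ * ∑ y ∈ orb α, Real.log ‖σ x - gm i (σ y)‖)),
        ← Finset.mul_sum, ← Finset.mul_sum]
    have f2 : ∑ q' : {x // x ∈ orb α} × Fin e, ∑ _q ∈ S, Real.posLog ‖σ q'.1‖ =
        κ * d * (e * m) := by
      have g1 : ∀ t : ℝ, ∑ _q ∈ S, t = κ * d * t := by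
        intro t
        rw [hS (fun _ _ => t)]
        have := hcardS
        rw [← this, Finset.sum_mul]
        refine Finset.sum_congr rfl fun x _ => ?_
        rw [Finset.sum_mul]
        exact Finset.sum_congr rfl fun y _ => (one_mul t).symm
      simp only [g1, ← Finset.mul_sum]
      rw [Fintype.sum_prod_type]
      simp only [Finset.sum_const, Finset.card_univ, Fintype.card_fin, nsmul_eq_mul]
      rw [Finset.sum_coe_sort (orb α) (fun x => (e : ℝ) * Real.posLog ‖σ x‖), ← Finset.mul_sum, hm]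
    have f3 : ∑ q' : {x // x ∈ orb α} × Fin e, ∑ _q ∈ S, (1 - rO q') =
        κ * d * ∑ q', (1 - rO q') := by
      have g1 : ∀ t : ℝ, ∑ _q ∈ S, t = κ * d * t := by
        intro t
        rw [hS (fun _ _ => t)]
        have := hcardS
        rw [← this, Finset.sum_mul]
        refine Finset.sum_congr rfl fun x _ => ?_
        rw [Finset.sum_mul]
        exact Finset.sum_congr rfl fun y _ => (one_mul t).symm
      simp only [g1, ← Finset.mul_sum]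
    have f4 : ∑ _q' : {x // x ∈ orb α} × Fin e, (∑ q ∈ S, Real.posLog ‖σ q.2‖ +
        ∑ q ∈ S, (1 - s q.1)) ≤ d * e * (κ * U) := by
      have g1 : ∑ q ∈ S, Real.posLog ‖σ q.2‖ + ∑ q ∈ S, (1 - s q.1) ≤ κ * U := by
        rw [← Finset.sum_add_distrib, hS (fun x y => Real.posLog ‖σ y‖ + (1 - s x))]
        exact hUs
      rw [Finset.sum_const, Finset.card_univ, Fintype.card_prod, Fintype.card_coe,
        Fintype.card_fin, nsmul_eq_mul]
      push_cast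
      rw [← hd]
      exact mul_le_mul_of_nonneg_left g1 (mul_nonneg hd0 he0.le)
    have f5 := log_gm_nonneg σ α hα i (hne i)
    have f6 : 0 ≤ e * (κ * ∑ x ∈ orb α, ∑ y ∈ orb α, Real.log ‖σ x - gm i (σ y)‖) := by positivity
    have f7 : κ * d * ∑ q', (1 - rO q') ≤ κ * d * ηO :=
      mul_le_mul_of_nonneg_left hηO (mul_nonneg hκ0.le hd0)
    simp only [Finset.sum_add_distrib] at f4
    rw [f1, f2, f3]
    nlinarith [f4, f6, f7]
  -- the part of `P`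
  have hCP : ∀ i : Fin 3, ∑ k : Fin mP, ∑ q ∈ S, kr ((rP k : ℂ) * zP k) (gm i (pt σ s q)) ≤
      - ∑ q ∈ S, Real.log ‖∏ k, (gm i (pt σ s q) - zP k)‖ + κ * d * ηP := by
    intro i
    rw [Finset.sum_comm]
    have hb : ∀ q ∈ S, ∑ k : Fin mP, kr ((rP k : ℂ) * zP k) (gm i (pt σ s q)) ≤
        - Real.log ‖∏ k, (gm i (pt σ s q) - zP k)‖ + ηP := by
      intro q hq
      have hn := gm_norm_lt i (hptn q hq)
      obtain ⟨-, h2⟩ := kr_fam hzP hn
      have h3 : ∑ k : Fin mP, kr ((rP k : ℂ) * zP k) (gm i (pt σ s q)) ≤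
          ∑ k : Fin mP, (kr (zP k) (gm i (pt σ s q)) + (1 - rP k)) := by
        refine Finset.sum_le_sum fun k _ => ?_
        rw [kr_comm', kr_comm' (zP k)]
        exact kr_one_le hn (hzP k).le (hP0 k) (hP1 k).le
      rw [Finset.sum_add_distrib, h2] at h3
      linarith
    refine (Finset.sum_le_sum hb).trans (le_of_eq ?_)
    rw [Finset.sum_add_distrib, Finset.sum_neg_distrib, hS (fun _ _ => ηP)]
    have := hcardS
    rw [← this, Finset.sum_mul]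
    congr 1
    refine Finset.sum_congr rfl fun x _ => ?_
    rw [Finset.sum_mul]
    exact Finset.sum_congr rfl fun y _ => (one_mul _).symm
  have hCPs : ∑ i : Fin 3, ∑ k : Fin mP, ∑ q ∈ S, kr ((rP k : ℂ) * zP k) (gm i (pt σ s q)) ≤
      - R + mQ * (κ * U) + 3 * (κ * d * ηP) := by
    refine (Finset.sum_le_sum fun i _ => hCP i).trans ?_
    rw [Finset.sum_add_distrib, Finset.sum_neg_distrib, Finset.sum_comm]
    have h3 : ∀ q ∈ S, ∑ i : Fin 3, Real.log ‖∏ k, (gm i (pt σ s q) - zP k)‖ =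
        Real.log ‖∏ k, (pt σ s q - zP k)‖ + Real.log ‖∏ k, (pt σ s q - zQ k)‖ := by
      intro q hq
      have hn := hptn q hq
      obtain ⟨n1, -⟩ := kr_fam hzP hn
      obtain ⟨n2, -⟩ := kr_fam hzQ hn
      have n3 : ∀ i : Fin 3, ∏ k, (gm i (pt σ s q) - zP k) ≠ 0 := fun i =>
        (kr_fam hzP (gm_norm_lt i hn)).1
      rw [Fin.sum_univ_three, ← Real.log_mul (norm_ne_zero_iff.2 n1) (norm_ne_zero_iff.2 n2),
        ← Real.log_mul (norm_ne_zero_iff.2 (n3 0)) (norm_ne_zero_iff.2 (n3 1)),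
        ← Real.log_mul (mul_ne_zero (norm_ne_zero_iff.2 (n3 0)) (norm_ne_zero_iff.2 (n3 1)))
          (norm_ne_zero_iff.2 (n3 2)), ← norm_mul, ← norm_mul, ← norm_mul]
      congr 2
      have := htr (pt σ s q)
      rw [← this]
      rfl
    rw [Finset.sum_congr rfl h3, Finset.sum_add_distrib]
    have h4 : ∑ q ∈ S, Real.log ‖∏ k, (pt σ s q - zP k)‖ = R :=
      hS (fun x y => Real.log ‖∏ i, ((s x : ℂ) * rf (σ y) - zP i)‖)
    have h5 : -(mQ * (κ * U)) ≤ ∑ q ∈ S, Real.log ‖∏ k, (pt σ s q - zQ k)‖ := by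
      have h6 : ∑ q ∈ S, (Real.log ‖∏ k, (σ q.2 - zQ k)‖ -
          mQ * (Real.posLog ‖σ q.2‖ + (1 - s q.1))) ≤
          ∑ q ∈ S, Real.log ‖∏ k, (pt σ s q - zQ k)‖ := by
        refine Finset.sum_le_sum fun q hq => ?_
        obtain ⟨q1, q2⟩ := hSm q hq
        exact low_fam hzQ (hQ q.2 (horb _ q1 _ q2)) (hs0 _ q1) (hs1 _ q1) (hptn q hq)
      rw [Finset.sum_sub_distrib, ← Finset.mul_sum,
        hS (fun x y => Real.posLog ‖σ y‖ + (1 - s x)),
        hS (fun x y => Real.log ‖∏ k, (σ y - zQ k)‖),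
        sum_blk_right hblk (fun y => Real.log ‖∏ k, (σ y - zQ k)‖)] at h6
      have h7 : 0 ≤ κ * ∑ y ∈ orb α, Real.log ‖∏ i, (σ y - zQ i)‖ := mul_nonneg hκ0.le hQn
      have h8 := mul_le_mul_of_nonneg_left hUs (Nat.cast_nonneg (α := ℝ) mQ)
      linarith
    rw [h4, Finset.sum_const, Finset.card_univ, Fintype.card_fin, nsmul_eq_mul]
    push_cast
    linarith
  -- the self terms
  have hW0 : ∑ q ∈ S, ∑ q' ∈ S, kr (pt σ s q) (pt σ s q') ≤ κ * B + κ * (κ * d) * ηs := by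
    have hb : ∀ q ∈ S, ∑ q' ∈ S, kr (pt σ s q) (pt σ s q') ≤
        κ * vf σ α (pt σ s q) + κ * ηs := by
      intro q hq
      have hn := hptn q hq
      have h2 : ∑ q' ∈ S, kr (pt σ s q) (pt σ s q') ≤
          ∑ q' ∈ S, (kr (pt σ s q) (rf (σ q'.2)) + (1 - s q'.1)) := by
        refine Finset.sum_le_sum fun q' hq' => ?_
        exact kr_one_le hn (rf_norm_le _) (hs0 _ (hSm q' hq').1) (hs1 _ (hSm q' hq').1)
      rw [Finset.sum_add_distrib, hS (fun _ y => kr (pt σ s q) (rf (σ y))),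
        sum_blk_right hblk (fun y => kr (pt σ s q) (rf (σ y))), hS (fun x _ => 1 - s x),
        sum_blk_left hblk (fun x => 1 - s x)] at h2
      have h3 := mul_le_mul_of_nonneg_left hηs hκ0.le
      unfold vf
      linarith
    refine (Finset.sum_le_sum hb).trans (le_of_eq ?_)
    have h5 : ∑ q ∈ S, vf σ α (pt σ s q) = B := hS (fun x y => vf σ α (s x * rf (σ y)))
    rw [Finset.sum_add_distrib, ← Finset.mul_sum, h5]
    rw [hS (fun _ _ => κ * ηs)]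
    have h4 : ∑ x ∈ orb α, ∑ _y ∈ blk α p x, (κ * ηs : ℝ) = κ * d * (κ * ηs) := by
      rw [← hcardS, Finset.sum_mul]
      refine Finset.sum_congr rfl fun x _ => ?_
      rw [Finset.sum_mul]
      exact Finset.sum_congr rfl fun y _ => (one_mul _).symm
    rw [h4]
    ring
  have hWn : ∑ q ∈ S, ∑ q' ∈ S, kr (-pt σ s q) (pt σ s q') ≤ 2 * (κ * d) * (κ * U) := by
    have hb : ∀ q ∈ S, ∀ q' ∈ S, kr (-pt σ s q) (pt σ s q') ≤
        - Real.log ‖σ q'.2 - gm 1 (σ q.2)‖ + ((Real.posLog ‖σ q.2‖ + (1 - s q.1)) +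
        (Real.posLog ‖σ q'.2‖ + (1 - s q'.1))) := by
      intro q hq q' hq'
      obtain ⟨q1, q2⟩ := hSm q hq
      obtain ⟨r1, r2⟩ := hSm q' hq'
      have hab : -σ q.2 ≠ σ q'.2 := by
        intro h3
        rw [← map_neg] at h3
        have h4 := hne 1 q'.2 (horb _ r1 _ r2) q.2 (horb _ q1 _ q2)
        exact h4 (σ.injective h3).symm
      have h := kr_le hab (hs0 _ q1) (hs1 _ q1) (hs0 _ r1) (hs1 _ r1)
      rw [rf_neg, norm_neg, mul_neg, norm_sub_rev] at h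
      have e3 : gm 1 (σ q.2) = -σ q.2 := by
        unfold gm
        rw [if_neg (by decide), if_pos rfl]
      rw [e3]
      unfold pt
      linarith
    refine (Finset.sum_le_sum fun q hq => Finset.sum_le_sum fun q' hq' => hb q hq q' hq').trans ?_
    have hc : ∀ t : ℝ, ∑ _q ∈ S, t = κ * d * t := by
      intro t
      rw [hS (fun _ _ => t), ← hcardS, Finset.sum_mul]
      refine Finset.sum_congr rfl fun x _ => ?_
      rw [Finset.sum_mul]
      exact Finset.sum_congr rfl fun y _ => (one_mul t).symm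
    have hU2 : ∑ q ∈ S, (Real.posLog ‖σ q.2‖ + (1 - s q.1)) ≤ κ * U := by
      rw [hS (fun x y => Real.posLog ‖σ y‖ + (1 - s x))]
      exact hUs
    have f1 : ∑ q ∈ S, ∑ q' ∈ S, Real.log ‖σ q'.2 - gm 1 (σ q.2)‖ =
        κ * (κ * ∑ x ∈ orb α, ∑ y ∈ orb α, Real.log ‖σ x - gm 1 (σ y)‖) := by
      rw [hS (fun _ y => ∑ q' ∈ S, Real.log ‖σ q'.2 - gm 1 (σ y)‖),
        sum_blk_right hblk (fun y => ∑ q' ∈ S, Real.log ‖σ q'.2 - gm 1 (σ y)‖)]
      congr 1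
      have g1 : ∀ y : K, ∑ q' ∈ S, Real.log ‖σ q'.2 - gm 1 (σ y)‖ =
          κ * ∑ x ∈ orb α, Real.log ‖σ x - gm 1 (σ y)‖ := by
        intro y
        rw [hS (fun _ x => Real.log ‖σ x - gm 1 (σ y)‖)]
        exact sum_blk_right hblk _
      simp only [g1, ← Finset.mul_sum]
      rw [Finset.sum_comm]
    have f5 := log_gm_nonneg σ α hα 1 (hne 1)
    have f6 : 0 ≤ κ * (κ * ∑ x ∈ orb α, ∑ y ∈ orb α, Real.log ‖σ x - gm 1 (σ y)‖) := by
      positivity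
    have f7 : ∑ q ∈ S, ∑ q' ∈ S, ((Real.posLog ‖σ q.2‖ + (1 - s q.1)) +
        (Real.posLog ‖σ q'.2‖ + (1 - s q'.1))) ≤ 2 * (κ * d) * (κ * U) := by
      simp only [Finset.sum_add_distrib, hc, ← Finset.mul_sum]
      simp only [Finset.sum_add_distrib] at hU2
      have hkd : 0 ≤ κ * d := mul_nonneg hκ0.le hd0
      nlinarith [mul_le_mul_of_nonneg_left hU2 hkd]
    have f8 : ∑ q ∈ S, ∑ q' ∈ S, (- Real.log ‖σ q'.2 - gm 1 (σ q.2)‖ +
        ((Real.posLog ‖σ q.2‖ + (1 - s q.1)) + (Real.posLog ‖σ q'.2‖ + (1 - s q'.1)))) =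
        - ∑ q ∈ S, ∑ q' ∈ S, Real.log ‖σ q'.2 - gm 1 (σ q.2)‖ +
        ∑ q ∈ S, ∑ q' ∈ S, ((Real.posLog ‖σ q.2‖ + (1 - s q.1)) +
        (Real.posLog ‖σ q'.2‖ + (1 - s q'.1))) := by
      rw [← Finset.sum_neg_distrib, ← Finset.sum_add_distrib]
      refine Finset.sum_congr rfl fun q _ => ?_
      rw [← Finset.sum_neg_distrib, ← Finset.sum_add_distrib]
    rw [f8, f1]
    linarith
  have hWs : ∑ i : Fin 3, ∑ q ∈ S, ∑ q' ∈ S, kr (gm i (pt σ s q)) (gm i (pt σ s q')) ≤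
      3 * (κ * B + κ * (κ * d) * ηs) + 2 * (2 * (κ * d) * (κ * U)) := by
    have h2 : ∀ i : Fin 3, ∑ q ∈ S, ∑ q' ∈ S, kr (gm i (pt σ s q)) (gm i (pt σ s q')) =
        ∑ q ∈ S, ∑ q' ∈ S, kr (pt σ s q) (pt σ s q') +
        (if i = 1 then 0 else ∑ q ∈ S, ∑ q' ∈ S, kr (-pt σ s q) (pt σ s q')) := by
      intro i
      rw [Finset.sum_congr rfl fun q hq => Finset.sum_congr rfl fun q' hq' =>
        kr_gm_self i (hptn q hq) (hptn q' hq')]
      simp only [Finset.sum_add_distrib]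
      congr 1
      split_ifs
      · simp
      · rfl
    rw [Fin.sum_univ_three, h2 0, h2 1, h2 2, if_neg (by decide), if_pos rfl, if_neg (by decide)]
    linarith
  -- positivity
  have hpos : ∀ i : Fin 3, 0 ≤ (2 / (e : ℝ)) ^ 2 * Z + 2 * (2 / (e : ℝ)) * (1 / (κ : ℝ)) *
      (∑ q' : {x // x ∈ orb α} × Fin e, ∑ q ∈ S,
        kr ((rO q' : ℂ) * rf (σ q'.1)) (gm i (pt σ s q)) +
      ∑ k : Fin mP, ∑ q ∈ S, kr ((rP k : ℂ) * zP k) (gm i (pt σ s q))) +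
      (1 / (κ : ℝ)) ^ 2 * ∑ q ∈ S, ∑ q' ∈ S, kr (gm i (pt σ s q)) (gm i (pt σ s q')) := by
    intro i
    have h := pos2F u hu1 S (fun q => gm i (pt σ s q)) (fun q hq => gm_norm_lt i (hptn q hq))
      (2 / (e : ℝ)) (1 / (κ : ℝ))
    rw [Fintype.sum_sum_type (f := fun i' => ∑ j ∈ S, kr (u i') (gm i (pt σ s j)))] at h
    have h3 := mul_le_mul_of_nonneg_left hZ (sq_nonneg (2 / (e : ℝ)))
    simp only [hu, Sum.elim_inl, Sum.elim_inr] at h h3 ⊢
    linarith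
  have hsum := Finset.sum_nonneg fun (i : Fin 3) (_ : i ∈ Finset.univ) => hpos i
  simp only [Finset.sum_add_distrib, ← Finset.mul_sum, Finset.sum_const, Finset.card_univ,
    Fintype.card_fin, nsmul_eq_mul] at hsum
  have hCOs : ∑ i : Fin 3, ∑ q' : {x // x ∈ orb α} × Fin e, ∑ q ∈ S,
      kr ((rO q' : ℂ) * rf (σ q'.1)) (gm i (pt σ s q)) ≤
      3 * (κ * (d * (e * m + ηO) + 2 * d * e * U)) := by
    refine (Finset.sum_le_sum fun i _ => hCO i).trans (le_of_eq ?_)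
    rw [Finset.sum_const, Finset.card_univ, Fintype.card_fin, nsmul_eq_mul]
    push_cast
    ring
  have k1 : 2 * (2 / (e : ℝ)) * (1 / (κ : ℝ)) * (∑ i : Fin 3, ∑ q' : {x // x ∈ orb α} × Fin e,
        ∑ q ∈ S, kr ((rO q' : ℂ) * rf (σ q'.1)) (gm i (pt σ s q)) +
      ∑ i : Fin 3, ∑ k : Fin mP, ∑ q ∈ S, kr ((rP k : ℂ) * zP k) (gm i (pt σ s q))) ≤
      2 * (2 / (e : ℝ)) * (1 / (κ : ℝ)) * (3 * (κ * (d * (e * m + ηO) + 2 * d * e * U)) +
        (- R + mQ * (κ * U) + 3 * (κ * d * ηP))) :=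
    mul_le_mul_of_nonneg_left (add_le_add hCOs hCPs) (by positivity)
  have k2 := mul_le_mul_of_nonneg_left hWs (sq_nonneg (1 / (κ : ℝ)))
  have k3 : 2 * (2 / (e : ℝ)) * (1 / (κ : ℝ)) * (-R) ≤
      2 * (2 / (e : ℝ)) * (1 / (κ : ℝ)) * (κ * Y - e * B) :=
    mul_le_mul_of_nonneg_left (by linarith) (by positivity)
  have e4 : 2 * (2 / (e : ℝ)) * (1 / (κ : ℝ)) * (κ * Y - e * B) =
      4 / (e : ℝ) * Y - 4 / κ * B := by
    field_simp
    ring
  have e5 : 2 * (2 / (e : ℝ)) * (1 / (κ : ℝ)) * (3 * (κ * (d * (e * m + ηO) + 2 * d * e * U)) +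
        (- R + mQ * (κ * U) + 3 * (κ * d * ηP))) =
      2 * (2 / (e : ℝ)) * (1 / (κ : ℝ)) * (-R) + 4 / (e : ℝ) * (3 * d * (e * m + ηO) +
        6 * d * e * U + 3 * d * ηP + mQ * U) := by
    field_simp
    ring
  have e6 : (1 / (κ : ℝ)) ^ 2 * (3 * (κ * B + κ * (κ * d) * ηs) + 2 * (2 * (κ * d) * (κ * U))) =
      3 / κ * B + 3 * d * ηs + 4 * d * U := by
    field_simp
    ring
  have hηU : d * ηs ≤ d * U := by
    refine mul_le_mul_of_nonneg_left ?_ hd0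
    have : 0 ≤ m := by
      rw [← hm]
      exact Finset.sum_nonneg fun x _ => Real.posLog_nonneg
    rw [hU]
    linarith
  have k5 : 1 / κ * B ≤ 12 / (e : ℝ) ^ 2 * Z + 4 / (e : ℝ) * (Y + (3 * d * (e * m + ηO) +
        6 * d * e * U + 3 * d * ηP + mQ * U)) + 7 * d * U := by
    rw [e5] at k1
    rw [e6] at k2
    rw [e4] at k3
    have e8 : (4 / (κ : ℝ)) * B = 3 / κ * B + 1 / κ * B := by ring
    have e9 : 12 / (e : ℝ) ^ 2 * Z = 3 * (4 / (e : ℝ) ^ 2 * Z) := by ring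
    have e11 : (2 / (e : ℝ)) ^ 2 * (((3 : ℕ) : ℝ) * Z) = 3 * (4 / (e : ℝ) ^ 2 * Z) := by
      push_cast
      ring
    rw [e11] at hsum
    rw [e9]
    linarith
  have e10 : B = κ * (1 / κ * B) := by
    field_simp
  rw [e10]
  exact mul_le_mul_of_nonneg_left k5 hκ0.le

end H92.LB
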