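import Pool.Agent.H92.LB.CycC

/-!
# LBC: the block energy of the conjugates from a cyclotomic multiple
-/

set_option autoImplicit false

namespace H92.LB

open H25.Arith H25.Arith.Disc H91.LK H82.LB H73.LB Polynomial

variable {K : Type} [Field K] [NumberField K] [IsGalois ℚ K]

/-- the final arithmetic of the constants -/
theorem cyc_numbers {C e d D mQ m L Λ ε : ℝ} (hC : 1 ≤ C) (he : 1 ≤ e) (hd : 0 ≤ d) (hm : 0 ≤ m)
    (hmL : m ≤ L) (hΛ : 1 ≤ Λ) (hε : 0 < ε) (hε2 : ε ≤ 1 / 4) (hdD : e * d ≤ D) (hmQ : mQ ≤ 4 * D)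
    {Λ1 : ℝ} (hΛ1 : Λ1 ≤ Λ) :
    12 / e ^ 2 * (C * D * (3 * Λ1 * (C * (e * L)) + 2 * (e * m)) +
      D * (2 * ε * (C * (e * L)))) +
    4 / e * (C * D * (3 * Λ * (C * L) + 2 * m) +
      (3 * d * (e * m + 2 * ε * (C * (e * L))) + 6 * d * e * (m + 2 * ε * (C * L)) +
        3 * d * (2 * ε * (C * (e * L))) + mQ * (m + 2 * ε * (C * L)))) +
    7 * d * (m + 2 * ε * (C * L)) + d * (2 * ε * (C * L)) ≤
      200 * C ^ 2 * (D / e) * L * (Λ + 2 * m) := by
  have he0 : 0 < e := by linarith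
  have hL : 0 ≤ L := hm.trans hmL
  set q : ℝ := D / e with hq
  have hDq : D = e * q := by
    rw [hq]
    field_simp
  have hdq : d ≤ q := by
    rw [hq, le_div_iff₀ he0]
    linarith
  have hq0 : 0 ≤ q := hd.trans hdq
  have hC0 : 0 < C := by linarith
  have hCL : 0 ≤ C * L := by positivity
  -- the common quantity
  have hCC : C ≤ C ^ 2 := by nlinarith
  set G : ℝ := C ^ 2 * q * L with hG
  have hG0 : 0 ≤ G := by positivity
  have bC : C * q * L ≤ G := by
    rw [hG]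
    apply mul_le_mul_of_nonneg_right _ hL
    exact mul_le_mul_of_nonneg_right hCC hq0
  have bm : m * (C * q) ≤ G := by
    refine le_trans ?_ bC
    have := mul_le_mul_of_nonneg_left hmL (show 0 ≤ C * q by positivity)
    linarith
  have bq : q * m ≤ G := by
    refine le_trans ?_ bm
    have h1 : 0 ≤ q * m := mul_nonneg hq0 hm
    nlinarith
  have hη : 2 * ε * (C * L) ≤ 1 / 2 * (C * L) := by nlinarith
  have hηe : 2 * ε * (C * (e * L)) ≤ e * (1 / 2 * (C * L)) := by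
    have h2 := mul_le_mul_of_nonneg_left hη he0.le
    linarith
  -- the terms
  have t1 : 12 / e ^ 2 * (C * D * (3 * Λ1 * (C * (e * L)) + 2 * (e * m))) ≤
      12 * (3 * Λ * G + 2 * G) := by
    have h2 : 3 * Λ1 * (C * (e * L)) ≤ 3 * Λ * (C * (e * L)) := by
      have h5 : 0 ≤ C * (e * L) := by positivity
      nlinarith
    have h3 : C * D * (3 * Λ1 * (C * (e * L)) + 2 * (e * m)) ≤
        C * D * (3 * Λ * (C * (e * L)) + 2 * (e * m)) := by
      apply mul_le_mul_of_nonneg_left (by linarith)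
      rw [hDq]
      positivity
    have h4 : 12 / e ^ 2 * (C * D * (3 * Λ * (C * (e * L)) + 2 * (e * m))) =
        12 * (3 * Λ * G + 2 * (m * (C * q))) := by
      rw [hDq, hG]
      field_simp
    have h5 := mul_le_mul_of_nonneg_left h3 (show 0 ≤ 12 / e ^ 2 by positivity)
    linarith
  have t2 : 12 / e ^ 2 * (D * (2 * ε * (C * (e * L)))) ≤ 6 * G := by
    have h3 : D * (2 * ε * (C * (e * L))) ≤ D * (e * (1 / 2 * (C * L))) := by
      apply mul_le_mul_of_nonneg_left hηe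
      rw [hDq]
      positivity
    have h4 : 12 / e ^ 2 * (D * (e * (1 / 2 * (C * L)))) = 6 * (C * q * L) := by
      rw [hDq]
      field_simp
      ring
    have h5 := mul_le_mul_of_nonneg_left h3 (show 0 ≤ 12 / e ^ 2 by positivity)
    linarith
  have t3 : 4 / e * (C * D * (3 * Λ * (C * L) + 2 * m)) ≤ 4 * (3 * Λ * G + 2 * G) := by
    have h4 : 4 / e * (C * D * (3 * Λ * (C * L) + 2 * m)) =
        4 * (3 * Λ * G + 2 * (m * (C * q))) := by
      rw [hDq, hG]
      field_simp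
    linarith
  have hdCL : d * (C * L) ≤ G := by
    refine le_trans ?_ bC
    have := mul_le_mul_of_nonneg_right hdq hCL
    linarith
  have hdm : d * m ≤ G := (mul_le_mul_of_nonneg_right hdq hm).trans bq
  have t4 : 4 / e * (3 * d * (e * m + 2 * ε * (C * (e * L)))) ≤ 12 * G + 6 * G := by
    have h3 : 3 * d * (e * m + 2 * ε * (C * (e * L))) ≤
        3 * d * (e * m + e * (1 / 2 * (C * L))) :=
      mul_le_mul_of_nonneg_left (by linarith) (by positivity)
    have h4 : 4 / e * (3 * d * (e * m + e * (1 / 2 * (C * L)))) =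
        12 * (d * m) + 6 * (d * (C * L)) := by
      field_simp
      ring
    have h5 := mul_le_mul_of_nonneg_left h3 (show 0 ≤ 4 / e by positivity)
    linarith
  have t5 : 4 / e * (6 * d * e * (m + 2 * ε * (C * L))) ≤ 24 * G + 12 * G := by
    have h4 : 4 / e * (6 * d * e * (m + 2 * ε * (C * L))) =
        24 * (d * m) + 24 * (d * (2 * ε * (C * L))) := by
      field_simp
      ring
    have h5 := mul_le_mul_of_nonneg_left hη hd
    linarith
  have t6 : 4 / e * (3 * d * (2 * ε * (C * (e * L)))) ≤ 6 * G := by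
    have h3 : 3 * d * (2 * ε * (C * (e * L))) ≤ 3 * d * (e * (1 / 2 * (C * L))) :=
      mul_le_mul_of_nonneg_left hηe (by positivity)
    have h4 : 4 / e * (3 * d * (e * (1 / 2 * (C * L)))) = 6 * (d * (C * L)) := by
      field_simp
      ring
    have h5 := mul_le_mul_of_nonneg_left h3 (show 0 ≤ 4 / e by positivity)
    linarith
  have t7 : 4 / e * (mQ * (m + 2 * ε * (C * L))) ≤ 16 * G + 8 * G := by
    have hU0 : 0 ≤ m + 2 * ε * (C * L) := by positivity
    have h3 : mQ * (m + 2 * ε * (C * L)) ≤ 4 * D * (m + 2 * ε * (C * L)) :=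
      mul_le_mul_of_nonneg_right hmQ hU0
    have h4 : 4 / e * (4 * D * (m + 2 * ε * (C * L))) =
        16 * (q * m) + 16 * (q * (2 * ε * (C * L))) := by
      rw [hDq]
      field_simp
      ring
    have h5 := mul_le_mul_of_nonneg_left h3 (show 0 ≤ 4 / e by positivity)
    have h6 := mul_le_mul_of_nonneg_left hη hq0
    have h8 : q * (C * L) ≤ G := by linarith
    linarith
  have t8 : 7 * d * (m + 2 * ε * (C * L)) ≤ 7 * G + 7 / 2 * G := by
    have h5 := mul_le_mul_of_nonneg_left hη hd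
    nlinarith
  have t9 : d * (2 * ε * (C * L)) ≤ 1 / 2 * G := by
    have h5 := mul_le_mul_of_nonneg_left hη hd
    linarith
  have hfin : 200 * C ^ 2 * q * L * (Λ + 2 * m) = 200 * (Λ * G) + 400 * (m * G) := by
    rw [hG]
    ring
  have hGΛ : G ≤ Λ * G := le_mul_of_one_le_left hG0 hΛ
  have hmG : 0 ≤ m * G := mul_nonneg hm hG0
  rw [hfin]
  have e1 : 12 / e ^ 2 * (C * D * (3 * Λ1 * (C * (e * L)) + 2 * (e * m)) +
      D * (2 * ε * (C * (e * L)))) =
      12 / e ^ 2 * (C * D * (3 * Λ1 * (C * (e * L)) + 2 * (e * m))) +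
      12 / e ^ 2 * (D * (2 * ε * (C * (e * L)))) := by ring
  have e2 : 4 / e * (C * D * (3 * Λ * (C * L) + 2 * m) +
      (3 * d * (e * m + 2 * ε * (C * (e * L))) + 6 * d * e * (m + 2 * ε * (C * L)) +
        3 * d * (2 * ε * (C * (e * L))) + mQ * (m + 2 * ε * (C * L)))) =
      4 / e * (C * D * (3 * Λ * (C * L) + 2 * m)) +
      4 / e * (3 * d * (e * m + 2 * ε * (C * (e * L)))) +
      4 / e * (6 * d * e * (m + 2 * ε * (C * L))) +
      4 / e * (3 * d * (2 * ε * (C * (e * L)))) +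
      4 / e * (mQ * (m + 2 * ε * (C * L))) := by ring
  rw [e1, e2]
  nlinarith [t1, t2, t3, t4, t5, t6, t7, t8, t9, hGΛ, hmG]

/-- the block energy of the conjugates from the mean of `log⁺` of `f ^ e P` -/
theorem energy_cyc : ∃ C : ℝ, 1 ≤ C ∧ ∀ {K : Type} [Field K] [NumberField K] [IsGalois ℚ K]
    (σ : K →+* ℂ) (α : K) (L m : ℝ), IsIntegral ℤ α → m ≤ L → 1 ≤ (orb α).card →
    (∀ i : Fin 3, ∀ x ∈ orb α, ∀ y ∈ orb α, x ≠ gm i y) →
    ∑ x ∈ orb α, Real.posLog ‖σ x‖ = m →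
    ∑ x ∈ orb α, (1 - ‖rf (σ x)‖) ≤ 2 * m →
    ∀ {mP mQ : ℕ} (zP : Fin mP → ℂ) (zQ : Fin mQ → ℂ), (∀ i, ‖zP i‖ = 1) → (∀ i, ‖zQ i‖ = 1) →
    mQ ≤ 4 * mP →
    (∀ w : ℂ, (∏ i, (w ^ 2 - zP i)) * (∏ i, (-w - zP i)) * (∏ i, (-w ^ 2 - zP i)) =
      (∏ i, (w - zP i)) * ∏ i, (w - zQ i)) →
    (∀ x ∈ orb α, ∏ i, (σ x - zQ i) ≠ 0) →
    0 ≤ ∑ y ∈ orb α, Real.log ‖∏ i, (σ y - zQ i)‖ →
    ∀ e : ℕ, 1 ≤ e →
    Real.circleAverage (fun w => Real.posLog
      ((∏ x ∈ orb α, ‖1 - w * starRingEnd ℂ (rf (σ x))‖) ^ e *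
        ∏ i, ‖1 - w * starRingEnd ℂ (zP i)‖)) 0 1 ≤ e * L - 1 →
    ∀ p n : ℕ, 1 ≤ n → (∀ x ∈ orb α, (blk α p x).card ≤ n) →
    ∀ ε : ℝ, 0 < ε → ε ≤ 1 / 4 →
    ∃ r : K → ℝ, (∀ x ∈ orb α, 0 ≤ r x) ∧
      (∀ x ∈ orb α, r x ≤ 1) ∧ (∀ x ∈ orb α, ‖(r x : ℂ) * rf (σ x)‖ < 1) ∧
      ∑ x ∈ orb α, (1 - r x) ≤ C * ε * L ∧
      (1 / (n : ℝ)) * ∑ x ∈ orb α, ∑ y ∈ blk α p x,
          ∑ y' ∈ orb α, kr (r x * rf (σ y)) (r y' * rf (σ y')) ≤
        C * (((e : ℝ) * (orb α).card + mP) / e) * L * (Real.log (n / ε) + 2 * m) := by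
  classical
  obtain ⟨C, hC, hen⟩ := energy_pt
  have hC2 : C ≤ C ^ 2 := by nlinarith
  refine ⟨200 * C ^ 2, by nlinarith, ?_⟩
  intro K _ _ _ σ α L m hα hmL hcard hne hm hrf mP mQ zP zQ hzP hzQ hmQ htr hQ hQn e he hmean p n
    hn hbn ε hε0 hε
  have hC0 : 0 < C := by linarith
  have he0 : (0 : ℝ) < e := by exact_mod_cast he
  have he1 : (1 : ℝ) ≤ e := by exact_mod_cast he
  have hd0 : (0 : ℝ) ≤ (orb α).card := Nat.cast_nonneg _
  have hm0 : 0 ≤ m := by
    rw [← hm]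
    exact Finset.sum_nonneg fun x _ => Real.posLog_nonneg
  have hL : 0 ≤ L := hm0.trans hmL
  set κ : ℕ := (blk α p α).card with hκdef
  have hself : ∀ x ∈ orb α, x ∈ blk α p x := fun x hx => mem_blk.2 ⟨hx, rfl⟩
  obtain ⟨x0, hx0⟩ := Finset.card_pos.1 (by omega : 0 < (orb α).card)
  have hblk : ∀ x ∈ orb α, (blk α p x).card = κ := fun x hx => blk_card α p x hx
  have hκ : 1 ≤ κ := by
    rw [← hblk x0 hx0]
    exact Finset.card_pos.2 ⟨x0, hself x0 hx0⟩
  have hκn : κ ≤ n := by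
    rw [← hblk x0 hx0]
    exact hbn x0 hx0
  have hκ0 : (0 : ℝ) < κ := by exact_mod_cast hκ
  have hκ1 : (1 : ℝ) ≤ κ := by exact_mod_cast hκ
  have hn0 : (0 : ℝ) < n := by exact_mod_cast hn
  have hκnR : (κ : ℝ) ≤ n := by exact_mod_cast hκn
  -- the family of all the roots
  let ι : Type := ({x // x ∈ orb α} × Fin e) ⊕ Fin mP
  let z : ι → ℂ := Sum.elim (fun q => rf (σ q.1)) zP
  have hz : ∀ i, ‖z i‖ ≤ 1 := by
    rintro (q | i)
    · exact rf_norm_le _
    · exact (hzP i).le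
  have hne0 : Nonempty ι := ⟨Sum.inl (⟨x0, hx0⟩, ⟨0, he⟩)⟩
  have hcardι : (Fintype.card ι : ℝ) = e * (orb α).card + mP := by
    have h1 : Fintype.card ι = (orb α).card * e + mP := by
      simp only [ι, Fintype.card_sum, Fintype.card_prod, Fintype.card_coe, Fintype.card_fin]
    rw [h1]
    push_cast
    ring
  set D : ℝ := (Fintype.card ι : ℝ) with hD
  have hDd : (e : ℝ) * (orb α).card ≤ D := by
    rw [hcardι]
    have : (0 : ℝ) ≤ mP := Nat.cast_nonneg _
    linarith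
  have hDm : (mP : ℝ) ≤ D := by
    rw [hcardι]
    have : (0 : ℝ) ≤ (e : ℝ) * (orb α).card := by positivity
    linarith
  have hD0 : 0 ≤ D := by rw [hD]; exact Nat.cast_nonneg _
  have hprodι : ∀ F : ℂ → ℝ, ∏ i, F (z i) = (∏ x ∈ orb α, F (rf (σ x))) ^ e * ∏ i, F (zP i) := by
    intro F
    rw [Fintype.prod_sum_type, Fintype.prod_prod_type]
    simp only [z, Sum.elim_inl, Sum.elim_inr, Finset.prod_const, Finset.card_univ,
      Fintype.card_fin]
    rw [Finset.prod_coe_sort (orb α) (fun x => F (rf (σ x)) ^ e), Finset.prod_pow]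
  have hsumι : ∀ F : ℂ → ℝ, ∑ i, F (z i) = e * ∑ x ∈ orb α, F (rf (σ x)) + ∑ i, F (zP i) := by
    intro F
    rw [Fintype.sum_sum_type, Fintype.sum_prod_type]
    simp only [z, Sum.elim_inl, Sum.elim_inr, Finset.sum_const, Finset.card_univ,
      Fintype.card_fin, nsmul_eq_mul]
    rw [Finset.sum_coe_sort (orb α) (fun x => (e : ℝ) * F (rf (σ x))), ← Finset.mul_sum]
  obtain ⟨δ, hδ0, hδ1, hδs, hV⟩ := hen z (e * L - 1) hz (by
    refine le_trans (le_of_eq ?_) hmean
    refine congrArg (fun F : ℂ → ℝ => Real.circleAverage F 0 1) (funext fun w => ?_)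
    exact congrArg Real.posLog (hprodι fun a => ‖1 - w * starRingEnd ℂ a‖))
  rw [← hD] at hV
  rw [show 1 + ((e : ℝ) * L - 1) = e * L by ring] at hδs
  have hN : 0 ≤ C * D := mul_nonneg hC0.le hD0
  set v : ℂ → ℝ := fun w => ∑ k, kr w (z k) with hv
  have hveq : ∀ w, v w = e * vf σ α w + ∑ i, kr w (zP i) := by
    intro w
    rw [hv]
    simp only
    rw [hsumι (fun a => kr w a)]
    rfl
  -- radii of the whole family
  obtain ⟨r, hr2, hr1, hrz, hrs, hrE⟩ := sub_blocks v z hz δ hδ0 hδ1 hN hδs hV 1 le_rfl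
    (fun i => {i}) (fun i j => by simp [eq_comm]) (fun i => by simp) ε hε0 hε
  have hsumz : ∑ j, (1 - ‖z j‖) ≤ 2 * (e * m) := by
    rw [hsumι (fun a => 1 - ‖a‖)]
    have h1 : ∑ i, (1 - ‖zP i‖) = 0 := Finset.sum_eq_zero fun i _ => by rw [hzP i, sub_self]
    rw [h1, add_zero]
    have := mul_le_mul_of_nonneg_left hrf he0.le
    linarith
  have hZ : ∑ i, ∑ k, kr (r i * z i) (r k * z k) ≤
      C * D * (3 * Real.log (1 / ε) * (C * (e * L)) + 2 * (e * m)) +
        D * (2 * ε * (C * (e * L))) := by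
    have h1 : ∀ i, ∑ k, kr (r i * z i) (r k * z k) ≤ v (r i * z i) + ∑ k, (1 - r k) := fun i =>
      kr_split hz (fun k => (by linarith [hr2 k] : 0 ≤ r k)) hr1 (hrz i i)
    refine (Finset.sum_le_sum fun i _ => h1 i).trans ?_
    rw [Finset.sum_add_distrib, Finset.sum_const, Finset.card_univ, nsmul_eq_mul, ← hD]
    simp only [Finset.sum_singleton, Nat.cast_one, one_mul] at hrE
    have h2 := mul_le_mul_of_nonneg_left hrs hD0
    have h3 : C * D * (3 * Real.log (1 / ε) * (C * (e * L)) + ∑ j, (1 - ‖z j‖)) ≤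
        C * D * (3 * Real.log (1 / ε) * (C * (e * L)) + 2 * (e * m)) :=
      mul_le_mul_of_nonneg_left (by linarith) hN
    linarith
  -- the scales of the conjugates
  have hmin : ∀ x : {x // x ∈ orb α}, ∃ c : Fin e, ∀ c' : Fin e,
      δ (Sum.inl (x, c)) ≤ δ (Sum.inl (x, c')) := by
    intro x
    obtain ⟨c, -, hc⟩ := Finset.exists_min_image (Finset.univ : Finset (Fin e))
      (fun c => δ (Sum.inl (x, c))) ⟨⟨0, he⟩, Finset.mem_univ _⟩
    exact ⟨c, fun c' => hc c' (Finset.mem_univ _)⟩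
  choose cm hcm using hmin
  set δ' : {x // x ∈ orb α} → ℝ := fun x => δ (Sum.inl (x, cm x)) with hδ'
  have hδs' : ∑ x, δ' x ≤ C * L := by
    have h1 : (e : ℝ) * ∑ x, δ' x ≤ ∑ i, δ i := by
      rw [Fintype.sum_sum_type, Fintype.sum_prod_type, Finset.mul_sum]
      have h2 : 0 ≤ ∑ i : Fin mP, δ (Sum.inr i) := Finset.sum_nonneg fun i _ => (hδ0 _).le
      have h3 : ∀ x : {x // x ∈ orb α}, (e : ℝ) * δ' x ≤ ∑ c, δ (Sum.inl (x, c)) := by
        intro x
        calc (e : ℝ) * δ' x = ∑ _c : Fin e, δ' x := by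
              rw [Finset.sum_const, Finset.card_univ, Fintype.card_fin, nsmul_eq_mul]
          _ ≤ ∑ c, δ (Sum.inl (x, c)) := Finset.sum_le_sum fun c _ => hcm x c
      have h4 := Finset.sum_le_sum fun (x : {x // x ∈ orb α}) (_ : x ∈ Finset.univ) => h3 x
      linarith
    have h2 : (e : ℝ) * ∑ x, δ' x ≤ e * (C * L) := by
      refine (h1.trans hδs).trans (le_of_eq ?_)
      ring
    exact le_of_mul_le_mul_left h2 he0
  let b : {x // x ∈ orb α} → Finset {x // x ∈ orb α} := fun x =>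
    Finset.univ.filter fun y => (y : K) ^ p = (x : K) ^ p
  have hbsum : ∀ (x : {x // x ∈ orb α}) (F : K → ℝ), ∑ y ∈ b x, F y = ∑ y ∈ blk α p x, F y := by
    intro x F
    unfold blk
    rw [Finset.sum_filter, Finset.sum_filter]
    exact Finset.sum_coe_sort (orb α) (fun y => if y ^ p = (x : K) ^ p then F y else 0)
  have hbcard : ∀ x : {x // x ∈ orb α}, (b x).card = κ := by
    intro x
    have h1 := hbsum x (fun _ => 1)
    rw [Finset.sum_const, Finset.sum_const, hblk x x.2, nsmul_eq_mul, nsmul_eq_mul, mul_one,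
      mul_one] at h1
    exact_mod_cast h1
  obtain ⟨s0, hs2, hs1, hsz, hss, hsE⟩ := sub_blocks v (fun x : {x // x ∈ orb α} => rf (σ x))
    (fun x => rf_norm_le _) δ' (fun x => hδ0 _) (fun x => hδ1 _) hN hδs'
    (fun x s h1 h2 => hV (Sum.inl (x, cm x)) s h1 h2) κ hκ b (by
      intro i j
      simp only [b, Finset.mem_filter, Finset.mem_univ, true_and]
      exact eq_comm) (fun x => (hbcard x).le) ε hε0 hε
  let s : K → ℝ := fun x => if h : x ∈ orb α then s0 ⟨x, h⟩ else 1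
  have hs' : ∀ x : {x // x ∈ orb α}, s x = s0 x := fun x => by
    simp only [s, x.2, dite_true]
  have hsK2 : ∀ x ∈ orb α, 1 / 2 ≤ s x := fun x hx => by
    have := hs2 ⟨x, hx⟩
    rwa [← hs' ⟨x, hx⟩] at this
  have hsK1 : ∀ x ∈ orb α, s x ≤ 1 := fun x hx => by
    have := hs1 ⟨x, hx⟩
    rwa [← hs' ⟨x, hx⟩] at this
  have hsKz : ∀ x ∈ orb α, ∀ y ∈ orb α, ‖(s x : ℂ) * rf (σ y)‖ < 1 := fun x hx y hy => by
    have := hsz ⟨x, hx⟩ ⟨y, hy⟩
    rwa [← hs' ⟨x, hx⟩] at this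
  have hsKs : ∑ x ∈ orb α, (1 - s x) ≤ 2 * ε * (C * L) := by
    refine le_trans (le_of_eq ?_) hss
    rw [← Finset.sum_coe_sort (orb α) (fun x => 1 - s x)]
    exact Finset.sum_congr rfl fun x _ => by rw [hs']
  have hsKE : ∑ x ∈ orb α, ∑ y ∈ blk α p x, (e * vf σ α (s x * rf (σ y)) +
      ∑ i, kr (s x * rf (σ y)) (zP i)) ≤
      κ * (C * D * (3 * Real.log (κ / ε) * (C * L) + 2 * m)) := by
    have h1 : ∑ x ∈ orb α, ∑ y ∈ blk α p x, (e * vf σ α (s x * rf (σ y)) +
        ∑ i, kr (s x * rf (σ y)) (zP i)) =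
        ∑ x : {x // x ∈ orb α}, ∑ y ∈ b x, v (s0 x * rf (σ y)) := by
      rw [← Finset.sum_coe_sort (orb α) (fun x => ∑ y ∈ blk α p x, (e * vf σ α (s x * rf (σ y)) +
        ∑ i, kr (s x * rf (σ y)) (zP i)))]
      refine Finset.sum_congr rfl fun x _ => ?_
      rw [hbsum x (fun y => v (s0 x * rf (σ y)))]
      refine Finset.sum_congr rfl fun y _ => ?_
      rw [hveq, hs']
    rw [h1]
    refine hsE.trans ?_
    apply mul_le_mul_of_nonneg_left _ hκ0.le
    apply mul_le_mul_of_nonneg_left _ hN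
    have h2 : ∑ x : {x // x ∈ orb α}, (1 - ‖rf (σ (x : K))‖) ≤ 2 * m := by
      rw [Finset.sum_coe_sort (orb α) (fun x => 1 - ‖rf (σ x)‖)]
      exact hrf
    linarith
  -- the trick
  have hT := trick σ α hα hκ hblk hne zP hzP zQ hzQ htr hQ hQn he (fun q => r (Sum.inl q))
    (fun q => by linarith [hr2 (Sum.inl q)]) (fun q => hr1 _) (fun q => hrz (Sum.inl q) (Sum.inl q))
    (fun i => r (Sum.inr i)) (fun i => by linarith [hr2 (Sum.inr i)])
    (fun i => by
      have h1 := hrz (Sum.inr i) (Sum.inr i)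
      have h2 : z (Sum.inr i) = zP i := rfl
      rw [h2, norm_mul, hzP i, mul_one, Complex.norm_real,
        Real.norm_of_nonneg (by linarith [hr2 (Sum.inr i)])] at h1
      exact h1) s (fun x hx => by linarith [hsK2 x hx]) hsK1 hsKz hm
    (ηO := 2 * ε * (C * (e * L))) (ηP := 2 * ε * (C * (e * L)))
    (ηs := 2 * ε * (C * L))
    (by
      refine le_trans ?_ hrs
      rw [Fintype.sum_sum_type]
      have : 0 ≤ ∑ i : Fin mP, (1 - r (Sum.inr i)) :=
        Finset.sum_nonneg fun i _ => by linarith [hr1 (Sum.inr i)]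
      linarith)
    (by
      refine le_trans ?_ hrs
      rw [Fintype.sum_sum_type]
      have : 0 ≤ ∑ q : {x // x ∈ orb α} × Fin e, (1 - r (Sum.inl q)) :=
        Finset.sum_nonneg fun i _ => by linarith [hr1 (Sum.inl i)]
      linarith) hsKs
    (Z := C * D * (3 * Real.log (1 / ε) * (C * (e * L)) + 2 * (e * m)) +
        D * (2 * ε * (C * (e * L))))
    (by
      refine le_trans (le_of_eq ?_) hZ
      refine Finset.sum_congr rfl fun i _ => Finset.sum_congr rfl fun k _ => ?_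
      congr 1
      · rcases i with q | i <;> rfl
      · rcases k with q | k <;> rfl)
    hsKE
  refine ⟨s, fun x hx => by linarith [hsK2 x hx], hsK1, fun x hx => hsKz x hx x hx, ?_, ?_⟩
  · refine hsKs.trans ?_
    have h1 : 0 ≤ ε * L := by positivity
    nlinarith
  · set d : ℝ := ((orb α).card : ℝ) with hd
    have hlogκ : Real.log (κ / ε) ≤ Real.log (n / ε) :=
      Real.log_le_log (by positivity) (div_le_div_of_nonneg_right hκnR hε0.le)
    have hlog1 : Real.log (1 / ε) ≤ Real.log (κ / ε) :=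
      Real.log_le_log (by positivity) (div_le_div_of_nonneg_right hκ1 hε0.le)
    have hΛ1 : 1 ≤ Real.log (κ / ε) := by
      refine le_trans ?_ hlog1
      have h1 : Real.log 4 ≤ Real.log (1 / ε) := by
        apply Real.log_le_log (by norm_num)
        rw [le_div_iff₀ hε0]
        linarith
      have h2 : Real.log 4 = 2 * Real.log 2 := by
        rw [show (4 : ℝ) = 2 ^ 2 by norm_num, Real.log_pow]
        norm_num
      have h3 := Real.log_two_gt_d9
      linarith
    have hnum := cyc_numbers (C := C) (e := e) (d := d) (D := D) (mQ := mQ) (m := m) (L := L)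
      (Λ := Real.log (κ / ε)) (ε := ε) hC he1 hd0 hm0 hmL hΛ1 hε0 hε hDd (by
        have h1 : (mQ : ℝ) ≤ 4 * mP := by exact_mod_cast hmQ
        linarith) (Λ1 := Real.log (1 / ε)) hlog1
    -- contraction of the second argument
    have hcon : ∑ x ∈ orb α, ∑ y ∈ blk α p x, ∑ y' ∈ orb α,
        kr (s x * rf (σ y)) (s y' * rf (σ y')) ≤
        ∑ x ∈ orb α, ∑ y ∈ blk α p x, vf σ α (s x * rf (σ y)) +
          κ * (d * (2 * ε * (C * L))) := by
      have h1 : ∀ x ∈ orb α, ∀ y ∈ blk α p x, ∑ y' ∈ orb α,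
          kr (s x * rf (σ y)) (s y' * rf (σ y')) ≤
          vf σ α (s x * rf (σ y)) + 2 * ε * (C * L) := by
        intro x hx y hy
        have hy' := (mem_blk.1 hy).1
        have h2 : ∑ y' ∈ orb α, kr (s x * rf (σ y)) (s y' * rf (σ y')) ≤
            ∑ y' ∈ orb α, (kr (s x * rf (σ y)) (rf (σ y')) + (1 - s y')) := by
          refine Finset.sum_le_sum fun y' hy'' => ?_
          exact kr_one_le (hsKz x hx y hy') (rf_norm_le _) (by linarith [hsK2 y' hy''])
            (hsK1 y' hy'')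
        rw [Finset.sum_add_distrib] at h2
        unfold vf
        linarith
      refine (Finset.sum_le_sum fun x hx => Finset.sum_le_sum fun y hy => h1 x hx y hy).trans
        (le_of_eq ?_)
      simp only [Finset.sum_add_distrib]
      rw [sum_blk_left hblk (fun _ => 2 * ε * (C * L)), Finset.sum_const, nsmul_eq_mul]
    set A : ℝ := ∑ x ∈ orb α, ∑ y ∈ blk α p x, ∑ y' ∈ orb α,
        kr (s x * rf (σ y)) (s y' * rf (σ y')) with hA
    set G : ℝ := 200 * C ^ 2 * (D / e) * L * (Real.log (κ / ε) + 2 * m) with hG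
    have hG0 : 0 ≤ G := by
      have : 0 ≤ D / e := div_nonneg hD0 he0.le
      have : 0 ≤ Real.log (κ / ε) + 2 * m := by linarith
      positivity
    have hAG : A ≤ κ * G := by
      have h1 := mul_le_mul_of_nonneg_left hnum hκ0.le
      refine hcon.trans ?_
      refine (add_le_add_left hT _).trans ?_
      refine le_trans (le_of_eq ?_) h1
      ring
    have hAn : (1 / (n : ℝ)) * A ≤ G := by
      rw [one_div, inv_mul_le_iff₀ hn0]
      exact hAG.trans (mul_le_mul_of_nonneg_right hκnR hG0)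
    refine hAn.trans ?_
    rw [hG, hcardι]
    apply mul_le_mul_of_nonneg_left (by linarith)
    positivity

end H92.LB
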