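import Pool.Agent.H92.LB.CycD
import Pool.Agent.H73.LB.FinalA

/-!
# LBC: primitive polynomials and their cyclotomic multiples
-/

set_option autoImplicit false

namespace H92.LB

open H25.Arith H25.Arith.Disc H91.LK H82.LB H73.LB Polynomial

/-- the three maps and the conjugates -/
theorem gm_ne {K : Type} [Field K] [NumberField K] (α : K)
    (hb2 : ∀ x ∈ orb α, (blk α 2 x).card < 2)
    (hne : ∀ p q : ℕ, 0 < p → 0 < q → p ≠ q → ∀ x ∈ orb α, ∀ y ∈ orb α, x ^ p ≠ y ^ q) :
    ∀ i : Fin 3, ∀ x ∈ orb α, ∀ y ∈ orb α, x ≠ gm i y := by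
  classical
  have h0 : ∀ x ∈ orb α, x ≠ 0 := by
    intro x hx hx0
    have := hne 1 2 one_pos two_pos (by norm_num) x hx x hx
    rw [hx0] at this
    exact this (by simp)
  intro i x hx y hy h
  unfold gm at h
  split_ifs at h with h1 h2
  · exact hne 1 2 one_pos two_pos (by norm_num) x hx y hy (by rw [pow_one]; exact h)
  · have hxy : x ≠ y := by
      intro h3
      rw [h3] at h
      have h4 : (2 : K) * y = 0 := by linear_combination h
      rcases mul_eq_zero.1 h4 with h5 | h5
      · exact two_ne_zero h5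
      · exact h0 y hy h5
    have h3 : ({x, y} : Finset K) ⊆ blk α 2 x := by
      intro w hw
      rw [Finset.mem_insert, Finset.mem_singleton] at hw
      rw [mem_blk]
      rcases hw with rfl | rfl
      · exact ⟨hx, rfl⟩
      · exact ⟨hy, by rw [h]; ring⟩
    have h4 := Finset.card_le_card h3
    rw [Finset.card_pair hxy] at h4
    have := hb2 x hx
    omega
  · exact hne 2 4 two_pos (by norm_num) (by norm_num) x hx y hy (by rw [h]; ring)

/-- Jensen: the mean of `log` is at most the mean of `log⁺` -/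
theorem lm_le_mlp (F : ℤ[X]) : lm F ≤ mlp F := by
  unfold lm mlp
  rw [logMahlerMeasure_def]
  refine Real.circleAverage_mono ?_ (circ_int _) fun w _ => le_max_right _ _
  exact intervalIntegrable_mahlerMeasure _

theorem lm_pow {f : ℤ[X]} (hf : f ≠ 0) (e : ℕ) : lm (f ^ e) = e * lm f := by
  induction e with
  | zero =>
    rw [pow_zero, Nat.cast_zero, zero_mul, nd_lm_eq, Polynomial.map_one, mahlerMeasure_one,
      Real.log_one]
  | succ e ih =>
    rw [pow_succ, nd_lm_mul (pow_ne_zero _ hf) hf, ih]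
    push_cast
    ring

theorem e_lm_le {f P : ℤ[X]} (hf : f ≠ 0) (hP : P ≠ 0) (e : ℕ) :
    e * lm f ≤ mlp (f ^ e * P) := by
  have h1 := lm_le_mlp (f ^ e * P)
  rw [nd_lm_mul (pow_ne_zero _ hf) hP, lm_pow hf] at h1
  have h2 := nd_lm_nonneg P
  linarith

/-- the case of a ratio above one is harmless -/
theorem ratio_lift {c ρ x : ℝ} (hc : 0 < c) (hc1 : c ≤ 1) (hρ : 0 ≤ ρ) (hx : ρ * x ≤ 1)
    (h : c * (min 1 ρ) ^ 3 ≤ x) : c ^ 4 * ρ ^ 3 ≤ x := by
  rcases le_total ρ 1 with h1 | h1
  · rw [min_eq_right h1] at h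
    refine le_trans ?_ h
    apply mul_le_mul_of_nonneg_right _ (by positivity)
    calc c ^ 4 ≤ c ^ 1 := pow_le_pow_of_le_one hc.le hc1 (by norm_num)
      _ = c := pow_one c
  · rw [min_eq_left h1, one_pow, mul_one] at h
    have h2 : c * ρ ≤ 1 := by
      have := mul_le_mul_of_nonneg_left h hρ
      linarith
    have h3 : (c * ρ) ^ 3 ≤ 1 := pow_le_one₀ (by positivity) h2
    calc c ^ 4 * ρ ^ 3 = c * (c * ρ) ^ 3 := by ring
      _ ≤ c * 1 := mul_le_mul_of_nonneg_left h3 hc.le
      _ ≤ x := by linarith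

/-- the ratio `e² deg f / (deg F (1 + λ(F)))`, `F = f ^ e * P` -/
noncomputable def ratio (f P : ℤ[X]) (e : ℕ) : ℝ :=
  ((e : ℝ) ^ 2 * f.natDegree) / ((f ^ e * P).natDegree * (1 + mlp (f ^ e * P)))

theorem ratio_nonneg (f P : ℤ[X]) (e : ℕ) : 0 ≤ ratio f P e := by
  have := mlp_nonneg (f ^ e * P)
  unfold ratio
  positivity

theorem nd_F {f P : ℤ[X]} (hf : f ≠ 0) (hP : P ≠ 0) (e : ℕ) :
    (f ^ e * P).natDegree = e * f.natDegree + P.natDegree := by
  rw [natDegree_mul (pow_ne_zero _ hf) hP, natDegree_pow]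

theorem ratio_mul_lm {f P : ℤ[X]} (hf : f ≠ 0) (hP : P ≠ 0) (e : ℕ) :
    ratio f P e * lm f ≤ 1 := by
  have h1 := mlp_nonneg (f ^ e * P)
  have h2 := e_lm_le hf hP e
  have h3 := nd_lm_nonneg f
  unfold ratio
  rw [div_mul_eq_mul_div]
  apply div_le_one_of_le₀ _ (by positivity)
  rw [nd_F hf hP]
  push_cast
  have h4 : (0 : ℝ) ≤ (e : ℝ) * f.natDegree := by positivity
  have h5 : (0 : ℝ) ≤ P.natDegree := Nat.cast_nonneg _
  calc (e : ℝ) ^ 2 * f.natDegree * lm f = (e * f.natDegree) * (e * lm f) := by ring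
    _ ≤ (e * f.natDegree) * (1 + mlp (f ^ e * P)) :=
        mul_le_mul_of_nonneg_left (by linarith) h4
    _ ≤ (e * f.natDegree + P.natDegree) * (1 + mlp (f ^ e * P)) :=
        mul_le_mul_of_nonneg_right (by linarith) (by linarith)

theorem cyc_prim : ∃ c : ℝ, 0 < c ∧ ∀ f : ℤ[X], Irreducible f → 0 < lm f →
    (∀ p : ℕ, p.Prime → ∀ h : ℤ[X], f ≠ expand ℤ p h) → ∀ S : Multiset ℕ, (∀ n ∈ S, 0 < n) →
    ∀ e : ℕ, 1 ≤ e → c * ratio f (cp S) e ^ 3 ≤ lm f := by
  classical
  obtain ⟨C, hC, hen⟩ := energy_cyc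
  obtain ⟨c, hc, hcore⟩ := assembly_coreA C hC
  have hl2 : 0 < Real.log 2 := Real.log_pos (by norm_num)
  have hlog2 : Real.log 2 ≤ 1 := by
    have := Real.log_two_lt_d9
    linarith
  have hc1 : 0 < min c (Real.log 2) := lt_min hc hl2
  refine ⟨min c (Real.log 2) ^ 4, by positivity, ?_⟩
  intro f hf h0 hgexp S hS e he
  have hP0 : cp S ≠ 0 := (cp_monic S).ne_zero
  have he0 : (0 : ℝ) < e := by exact_mod_cast he
  have he1 : (1 : ℝ) ≤ e := by exact_mod_cast he
  refine ratio_lift hc1 ((min_le_right _ _).trans hlog2) (ratio_nonneg _ _ _)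
    (ratio_mul_lm hf.ne_zero hP0 e) ?_
  have hρ0 := ratio_nonneg f (cp S) e
  have hel := e_lm_le hf.ne_zero hP0 e
  have hlam0 := mlp_nonneg (f ^ e * cp S)
  rcases le_or_gt (Real.log 2) (lm f) with h2 | h2
  · -- trivial range
    have h3 : (min 1 (ratio f (cp S) e)) ^ 3 ≤ 1 :=
      pow_le_one₀ (le_min zero_le_one hρ0) (min_le_left _ _)
    calc min c (Real.log 2) * (min 1 (ratio f (cp S) e)) ^ 3 ≤ min c (Real.log 2) * 1 :=
          mul_le_mul_of_nonneg_left h3 hc1.le
      _ ≤ Real.log 2 := by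
          rw [mul_one]
          exact min_le_right _ _
      _ ≤ lm f := h2
  · have hfdeg : 0 < f.natDegree := by
      rw [Nat.pos_iff_ne_zero]
      intro hz
      have hlc := nd_lc hf.ne_zero h2
      apply hf.not_isUnit
      rw [eq_C_of_natDegree_eq_zero hz] at hlc ⊢
      rw [leadingCoeff_C] at hlc
      rw [isUnit_C]
      exact Int.isUnit_iff_abs_eq.2 hlc
    obtain ⟨B, hB⟩ : ∃ B : ℝ, ∀ z : ℂ, ‖z‖ = 1 → ‖(f.map (Int.castRingHom ℂ)).eval z‖ ≤ B := by
      have hcomp : IsCompact (Metric.sphere (0 : ℂ) 1) := isCompact_sphere _ _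
      obtain ⟨B, hB⟩ := hcomp.exists_bound_of_continuousOn
        (f.map (Int.castRingHom ℂ)).continuous.continuousOn
      exact ⟨B, fun z hz => hB z (by simpa using hz)⟩
    obtain ⟨K, iF, iN, iG, σ, α, hα, hassoc, hcard, hdeg, hm, hrf, -, hne, -⟩ :=
      H23.LB.to_field_full f hf h0 h2 B hB
    have hα0 : α ≠ 0 := by
      rintro rfl
      have h3 : ∑ x ∈ orb (0 : K), Real.posLog ‖σ x‖ = 0 := by
        refine Finset.sum_eq_zero fun x hx => ?_
        obtain ⟨s, rfl⟩ := Disc.mem_orb.1 hx
        simp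
      rw [h3] at hm
      linarith
    have hbl : ∀ p : ℕ, p.Prime → (blk α p α).card < p := by
      intro p hp
      by_contra hge
      obtain ⟨h, hh⟩ := H90.LB.red_block hα hα0 hp (by
        have h5 := not_lt.1 hge
        have e : blk α p α = (orb α).filter fun x => x ^ p = α ^ p := by
          ext y
          rw [mem_blk, Finset.mem_filter]
        rw [e] at h5
        exact h5)
      obtain ⟨u, hu⟩ := hassoc
      obtain ⟨e, -, he⟩ := Polynomial.isUnit_iff.1 u.isUnit
      apply hgexp p hp (h * Polynomial.C e)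
      rw [← hu, hh, map_mul, expand_C, he]
    -- the cyclotomic part
    obtain ⟨Q, hQ, hQm, hQd, hQr⟩ := exists_quot S hS
    obtain ⟨zP, hzP, hPe⟩ := fam (cp S) (cp_monic S) (cp_root S hS)
    obtain ⟨zQ, hzQ, hQe⟩ := fam Q hQm hQr
    have htr : ∀ w : ℂ, (∏ i, (w ^ 2 - zP i)) * (∏ i, (-w - zP i)) * (∏ i, (-w ^ 2 - zP i)) =
        (∏ i, (w - zP i)) * ∏ i, (w - zQ i) := by
      intro w
      rw [← hPe, ← hPe, ← hPe, ← hPe, ← hQe]
      have h3 := congrArg (fun G : ℤ[X] => (G.map (Int.castRingHom ℂ)).eval w) hQ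
      rw [Polynomial.map_mul, eval_mul] at h3
      rw [← h3]
      unfold tr
      rw [Polynomial.map_mul, Polynomial.map_mul, map_comp, map_comp, map_comp, eval_mul,
        eval_mul, eval_comp, eval_comp, eval_comp]
      simp
    have hQσ : ∀ x : K, σ (aeval x Q) = ∏ i, (σ x - zQ i) := by
      intro x
      rw [← hQe, eval_map, aeval_def, hom_eval₂]
      congr 1
      exact RingHom.ext_int _ _
    have hQ0 : ∀ x ∈ orb α, ∏ i, (σ x - zQ i) ≠ 0 := by
      intro x hx h3
      rw [← hQe] at h3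
      obtain ⟨n, hn, h4⟩ := hQr _ h3
      rw [← map_pow, ← map_one σ] at h4
      have h5 := σ.injective h4
      exact hne n (2 * n) hn (by omega) (by omega) x hx x hx (by
        rw [h5, mul_comm, pow_mul, h5, one_pow])
    have hQn : 0 ≤ ∑ y ∈ orb α, Real.log ‖∏ i, (σ y - zQ i)‖ := by
      have h3 := log_pairs_nonneg σ α (fun _ y => aeval y Q)
        (fun x hx y hy => by
          have h4 := orb_integral hα hy
          rw [aeval_def]
          exact IsIntegral.of_mem_of_fg _ h4.fg_adjoin_singleton _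
            (by
              rw [← aeval_def]
              exact aeval_mem_adjoin_singleton ℤ y))
        (fun g x y => by
          rw [aeval_def, aeval_def, ← AlgEquiv.coe_ringEquiv, ← RingEquiv.coe_toRingHom,
            hom_eval₂]
          congr 1
          exact RingHom.ext_int _ _)
        (fun x hx y hy => by
          intro h4
          have h5 := hQσ y
          rw [h4, map_zero] at h5
          exact hQ0 y hy h5.symm)
      simp only [Finset.sum_const, nsmul_eq_mul, hQσ] at h3
      have h4 : (0 : ℝ) < (orb α).card := by exact_mod_cast hcard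
      exact nonneg_of_mul_nonneg_right h3 h4
    have hmean : Real.circleAverage (fun w => Real.posLog
        ((∏ x ∈ orb α, ‖1 - w * starRingEnd ℂ (rf (σ x))‖) ^ e *
          ∏ i, ‖1 - w * starRingEnd ℂ (zP i)‖)) 0 1 ≤
            e * ((1 + mlp (f ^ e * cp S)) / e) - 1 := by
      have e1 : (e : ℝ) * ((1 + mlp (f ^ e * cp S)) / e) - 1 = mlp (f ^ e * cp S) := by
        field_simp
        ring
      rw [e1]
      unfold mlp
      have e0 : (fun w : ℂ => Real.posLog
          ((∏ x ∈ orb α, ‖1 - w * starRingEnd ℂ (rf (σ x))‖) ^ e *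
            ∏ i, ‖1 - w * starRingEnd ℂ (zP i)‖)) =
          fun w : ℂ => Real.posLog ‖(∏ x ∈ orb α, (1 - w * starRingEnd ℂ (rf (σ x)))) ^ e *
            ∏ i, (1 - w * starRingEnd ℂ (zP i))‖ := by
        ext w
        rw [norm_mul, norm_pow, norm_prod, norm_prod]
      rw [e0]
      have hc : Continuous fun w : ℂ =>
          Real.posLog ‖(∏ x ∈ orb α, (1 - w * starRingEnd ℂ (rf (σ x)))) ^ e *
            ∏ i, (1 - w * starRingEnd ℂ (zP i))‖ := by
        refine Real.continuous_posLog.comp (Continuous.norm ?_)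
        fun_prop
      refine Real.circleAverage_mono (hc.continuousOn.circleIntegrable zero_le_one)
        (circ_int _) ?_
      intro w hw
      have hw1 : ‖w‖ = 1 := by
        rw [mem_sphere_iff_norm, sub_zero, abs_one] at hw
        exact hw
      have h1 : ‖(f.map (Int.castRingHom ℂ)).eval w‖ = ∏ y ∈ orb α, ‖w - σ y‖ := by
        rw [← H23.LB.tf_eval σ α hα w]
        obtain ⟨u, hu⟩ := hassoc
        obtain ⟨e, he1, he⟩ := Polynomial.isUnit_iff.1 u.isUnit
        rw [← hu, ← he, Polynomial.map_mul, map_C, eval_mul, eval_C, norm_mul]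
        rcases Int.isUnit_iff.1 he1 with h | h <;> rw [h] <;> simp
      have h4 : ‖∏ i, (1 - w * starRingEnd ℂ (zP i))‖ =
          ‖((cp S).map (Int.castRingHom ℂ)).eval w‖ := by
        rw [hPe, norm_prod, norm_prod]
        refine Finset.prod_congr rfl fun i _ => ?_
        have h5 : zP i * (1 - w * starRingEnd ℂ (zP i)) = zP i - w := by
          have h2 : zP i * starRingEnd ℂ (zP i) = 1 := by
            rw [Complex.mul_conj, Complex.normSq_eq_norm_sq, hzP i]
            norm_num
          linear_combination (-w) * h2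
        have h6 := congrArg norm h5
        rw [norm_mul, hzP i, one_mul] at h6
        rw [h6, norm_sub_rev]
      rw [norm_mul, norm_pow, h4, norm_prod, Polynomial.map_mul, Polynomial.map_pow, eval_mul,
        eval_pow, norm_mul, norm_pow, h1]
      refine Real.posLog_le_posLog (by positivity) ?_
      apply mul_le_mul_of_nonneg_right _ (norm_nonneg _)
      refine pow_le_pow_left₀ (Finset.prod_nonneg fun x _ => norm_nonneg _) ?_ e
      exact Finset.prod_le_prod (fun x _ => norm_nonneg _) fun x _ => H23.LB.tf_rf2 w (σ x) hw1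
    have hgm := gm_ne α (fun x hx => by
      rw [blk_card α 2 x hx]
      exact hbl 2 Nat.prime_two) hne
    set lam : ℝ := mlp (f ^ e * cp S) with hlam
    set ρ : ℝ := ratio f (cp S) e with hρ
    set d : ℝ := ((orb α).card : ℝ) with hd
    have hd1 : (1 : ℝ) ≤ d := by rw [hd]; exact_mod_cast hcard
    have hd0 : 0 < d := by linarith
    set D : ℝ := (e : ℝ) * d + (cp S).natDegree with hD
    have hDd : e * d ≤ D := by
      rw [hD]
      have : (0 : ℝ) ≤ (cp S).natDegree := Nat.cast_nonneg _
      linarith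
    have hD0 : 0 < D := lt_of_lt_of_le (by positivity) hDd
    have hρD : ρ = (e ^ 2 * d) / (D * (1 + lam)) := by
      rw [hρ]
      unfold ratio
      rw [nd_F hf.ne_zero hP0 e, ← hdeg]
      push_cast
      rfl
    have hρpos : 0 < ρ := by
      rw [hρD]
      positivity
    set G : ℝ := (1 + lam) / e with hG
    have hmG : lm f ≤ G := by
      rw [hG, le_div_iff₀ he0]
      linarith
    have hG0 : 0 ≤ G := by
      rw [hG]
      positivity
    -- the parameter
    set M : ℝ := (min 1 ρ)⁻¹ with hM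
    have hmin : 0 < min 1 ρ := lt_min one_pos hρpos
    have hM1 : 1 ≤ M := by
      rw [hM]
      exact (one_le_inv₀ hmin).2 (min_le_left _ _)
    have hMρ : D / e * G ≤ d * M := by
      have h3 : D / e * G = d * ρ⁻¹ := by
        rw [hρD, hG]
        field_simp
      rw [h3]
      apply mul_le_mul_of_nonneg_left _ hd0.le
      rw [hM]
      exact inv_anti₀ hmin (min_le_right _ _)
    have hGM : G ≤ M := by
      have h3 : d * G ≤ D / e * G := by
        apply mul_le_mul_of_nonneg_right _ hG0
        rw [le_div_iff₀ he0]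
        linarith
      exact le_of_mul_le_mul_left (h3.trans hMρ) hd0
    have key := hcore K σ α (M - 1) hα hcard (by linarith) (by rw [hm]; exact h0)
      (by rw [hm]; linarith) hbl hne (by
        intro ε hε hε2 p n hn hbn
        obtain ⟨r, hr0, hr1, hrl, hrs, hrE⟩ := hen σ α G (lm f) hα hmG hcard hgm hm hrf zP zQ hzP
          hzQ (by exact hQd) htr hQ0 hQn e he hmean p n hn hbn ε hε hε2
        have e9 : 1 + (M - 1) = M := by ring
        refine ⟨r, hr0, hr1, hrl, hrs.trans ?_, hrE.trans ?_⟩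
        · rw [e9]
          exact mul_le_mul_of_nonneg_left hGM (by positivity)
        · rw [hm, e9, ← hd, ← hD]
          have h5 : 0 ≤ Real.log (n / ε) + 2 * lm f := by
            have h6 : 0 ≤ Real.log (n / ε) := by
              apply Real.log_nonneg
              rw [le_div_iff₀ hε]
              have : (1 : ℝ) ≤ n := by exact_mod_cast hn
              linarith
            linarith
          apply mul_le_mul_of_nonneg_right _ h5
          calc C * (D / e) * G = C * (D / e * G) := by ring
            _ ≤ C * (d * M) := mul_le_mul_of_nonneg_left hMρ (by linarith)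
            _ = C * d * M := by ring)
    rw [hm] at key
    have e9 : 1 + (M - 1) = M := by ring
    rw [e9] at key
    refine le_trans ?_ key
    rw [hM, inv_pow, div_inv_eq_mul]
    exact mul_le_mul_of_nonneg_right (min_le_left _ _) (by positivity)

end H92.LB
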