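import Pool.Agent.H92.LB.CycE

/-!
# LBC: all irreducible polynomials

`F(z) ↦ ∏_{ω ^ p = 1} F(ω z) = F'(z ^ p)` maps `f ^ e * P` with `f = h(X ^ p)` to
`h ^ (e p) * P'`, and does not decrease the ratio `e² deg f / (deg F (1 + λ(F)))`.
-/

set_option autoImplicit false

namespace H92.LB

open H91.LK H73.LB Polynomial

/-- the mean over the unit circle is invariant under rotations -/
theorem avg_rot (G : ℂ → ℝ) {ω : ℂ} (hω : ‖ω‖ = 1) :
    Real.circleAverage (fun z => G (ω * z)) 0 1 = Real.circleAverage G 0 1 := by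
  rw [Real.circleAverage_eq_integral_add (f := G) ω.arg, Real.circleAverage_def]
  congr 1
  refine intervalIntegral.integral_congr fun θ _ => congrArg G ?_
  have h1 := Complex.norm_mul_exp_arg_mul_I ω
  rw [hω, Complex.ofReal_one, one_mul] at h1
  rw [circleMap, circleMap]
  simp only [Complex.ofReal_one, one_mul, zero_add]
  push_cast
  rw [add_mul, Complex.exp_add, h1, mul_comm]

/-- the value of an integer polynomial -/
noncomputable def ev (F : ℤ[X]) (z : ℂ) : ℂ := (F.map (Int.castRingHom ℂ)).eval z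

theorem ev_mul (F G : ℤ[X]) (z : ℂ) : ev (F * G) z = ev F z * ev G z := by
  unfold ev
  rw [Polynomial.map_mul, eval_mul]

theorem ev_pow (F : ℤ[X]) (e : ℕ) (z : ℂ) : ev (F ^ e) z = ev F z ^ e := by
  unfold ev
  rw [Polynomial.map_pow, eval_pow]

theorem ev_expand (F : ℤ[X]) (p : ℕ) (z : ℂ) : ev (expand ℤ p F) z = ev F (z ^ p) := by
  unfold ev
  rw [map_expand, expand_eval]

theorem ev_cont (F : ℤ[X]) : Continuous (ev F) := (F.map (Int.castRingHom ℂ)).continuous

theorem mem_rt {p : ℕ} (hp : 0 < p) {ω : ℂ} (hω : ω ∈ nthRootsFinset p (1 : ℂ)) : ω ^ p = 1 :=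
  (mem_nthRootsFinset hp 1).1 hω

theorem norm_rt {p : ℕ} (hp : 0 < p) {ω : ℂ} (hω : ω ∈ nthRootsFinset p (1 : ℂ)) : ‖ω‖ = 1 := by
  have h1 : ‖ω‖ ^ p = 1 := by rw [← norm_pow, mem_rt hp hω, norm_one]
  exact (pow_eq_one_iff_of_nonneg (norm_nonneg _) hp.ne').1 h1

theorem card_rt {p : ℕ} (hp : 0 < p) : (nthRootsFinset p (1 : ℂ)).card = p :=
  (Complex.isPrimitiveRoot_exp p hp.ne').card_nthRootsFinset

theorem prod_expand {p : ℕ} (hp : 0 < p) (Q : ℤ[X]) (z : ℂ) :
    ∏ ω ∈ nthRootsFinset p (1 : ℂ), ‖ev (expand ℤ p Q) (ω * z)‖ = ‖ev Q (z ^ p)‖ ^ p := by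
  rw [Finset.prod_congr rfl fun ω hω => by
    rw [ev_expand, mul_pow, mem_rt hp hω, one_mul], Finset.prod_const, card_rt hp]

theorem ev_cyc {n : ℕ} (hn : 0 < n) (w : ℂ) :
    ‖ev (cyclotomic n ℤ) w‖ = ∏ μ ∈ primitiveRoots n ℂ, ‖w - μ‖ := by
  unfold ev
  rw [map_cyclotomic_int, cyclotomic_eq_prod_X_sub_primitiveRoots
    (Complex.isPrimitiveRoot_exp n hn.ne'), eval_prod, norm_prod]
  exact Finset.prod_congr rfl fun μ _ => by rw [eval_sub, eval_X, eval_C]

theorem prod_cop {p : ℕ} (hp : p.Prime) {n : ℕ} (hn : 0 < n) (hpn : ¬ p ∣ n) (z : ℂ) :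
    ∏ ω ∈ nthRootsFinset p (1 : ℂ), ‖ev (cyclotomic n ℤ) (ω * z)‖ =
      ‖ev (cyclotomic n ℤ) (z ^ p)‖ := by
  classical
  have hcop : Nat.Coprime p n := (Nat.Prime.coprime_iff_not_dvd hp).2 hpn
  rw [ev_cyc hn, Finset.prod_congr rfl fun ω _ => ev_cyc hn (ω * z), Finset.prod_comm]
  have h1 : ∀ μ ∈ primitiveRoots n ℂ, ∏ ω ∈ nthRootsFinset p (1 : ℂ), ‖ω * z - μ‖ =
      ‖z ^ p - μ ^ p‖ := by
    intro μ _
    rw [norm_sub_rev (z ^ p), (Complex.isPrimitiveRoot_exp p hp.ne_zero).pow_sub_pow_eq_prod_sub_mul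
      μ z hp.pos, norm_prod]
    exact Finset.prod_congr rfl fun ω _ => norm_sub_rev _ _
  rw [Finset.prod_congr rfl h1]
  have hinj : Set.InjOn (fun μ : ℂ => μ ^ p) (primitiveRoots n ℂ) := by
    intro μ hμ ν hν h
    simp only at h
    have hμ1 : μ ^ n = 1 := ((mem_primitiveRoots hn).1 hμ).pow_eq_one
    have hν1 : ν ^ n = 1 := ((mem_primitiveRoots hn).1 hν).pow_eq_one
    rcases Nat.lt_or_ge 1 n with h2 | h2
    · obtain ⟨a, -, ha⟩ := Nat.exists_mul_mod_eq_one_of_coprime hcop h2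
      have h3 : ∀ x : ℂ, x ^ n = 1 → (x ^ p) ^ a = x := by
        intro x hx
        rw [← pow_mul, ← Nat.mod_add_div (p * a) n, ha, pow_add, pow_one, pow_mul, hx, one_pow,
          mul_one]
      rw [← h3 μ hμ1, ← h3 ν hν1, h]
    · have h3 : n = 1 := by omega
      rw [h3, pow_one] at hμ1 hν1
      rw [hμ1, hν1]
  have himg : (primitiveRoots n ℂ).image (fun μ => μ ^ p) = primitiveRoots n ℂ := by
    apply Finset.eq_of_subset_of_card_le
    · intro x hx
      obtain ⟨μ, hμ, rfl⟩ := Finset.mem_image.1 hx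
      exact (mem_primitiveRoots hn).2 (((mem_primitiveRoots hn).1 hμ).pow_of_coprime p hcop)
    · rw [Finset.card_image_of_injOn hinj]
  conv_rhs => rw [← himg]
  rw [Finset.prod_image hinj]

/-- the push forward of one cyclotomic polynomial -/
theorem rot_cyc {p : ℕ} (hp : p.Prime) {n : ℕ} (hn : 0 < n) :
    ∃ m k : ℕ, 0 < m ∧ k * m.totient = n.totient ∧
      ∀ z : ℂ, ‖ev (cyclotomic m ℤ) (z ^ p)‖ ^ k ≤
        ∏ ω ∈ nthRootsFinset p (1 : ℂ), ‖ev (cyclotomic n ℤ) (ω * z)‖ := by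
  by_cases hpn : p ∣ n
  · obtain ⟨m, rfl⟩ := hpn
    have hm : 0 < m := Nat.pos_of_mul_pos_left hn
    by_cases hpm : p ∣ m
    · refine ⟨m, p, hm, (Nat.totient_mul_of_prime_of_dvd hp hpm).symm, fun z => le_of_eq ?_⟩
      rw [← prod_expand hp.pos, cyclotomic_expand_eq_cyclotomic hp hpm, mul_comm m p]
    · refine ⟨m, p - 1, hm, (Nat.totient_mul_of_prime_of_not_dvd hp hpm).symm, fun z => ?_⟩
      have h1 := prod_expand hp.pos (cyclotomic m ℤ) z
      rw [cyclotomic_expand_eq_cyclotomic_mul hp hpm, Finset.prod_congr rfl fun ω _ => by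
        rw [ev_mul, norm_mul], Finset.prod_mul_distrib, prod_cop hp hm hpm, mul_comm m p] at h1
      have hp2 := hp.two_le
      rcases eq_or_ne ‖ev (cyclotomic m ℤ) (z ^ p)‖ 0 with h2 | h2
      · rw [h2, zero_pow (by omega)]
        exact Finset.prod_nonneg fun _ _ => norm_nonneg _
      · have h3 : ‖ev (cyclotomic m ℤ) (z ^ p)‖ ^ p =
            ‖ev (cyclotomic m ℤ) (z ^ p)‖ ^ (p - 1) * ‖ev (cyclotomic m ℤ) (z ^ p)‖ := by
          rw [← pow_succ, show p - 1 + 1 = p by omega]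
        rw [h3] at h1
        exact le_of_eq (mul_right_cancel₀ h2 h1).symm
  · refine ⟨n, 1, hn, one_mul _, fun z => ?_⟩
    rw [pow_one, prod_cop hp hn hpn]

theorem cp_add (S T : Multiset ℕ) : cp (S + T) = cp S * cp T := by
  unfold cp
  rw [Multiset.map_add, Multiset.prod_add]

theorem cp_replicate (k m : ℕ) : cp (Multiset.replicate k m) = cyclotomic m ℤ ^ k := by
  unfold cp
  rw [Multiset.map_replicate, Multiset.prod_replicate]

/-- the push forward of a product of cyclotomic polynomials -/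
theorem rot_cp {p : ℕ} (hp : p.Prime) (S : Multiset ℕ) (hS : ∀ n ∈ S, 0 < n) :
    ∃ T : Multiset ℕ, (∀ n ∈ T, 0 < n) ∧ (cp T).natDegree = (cp S).natDegree ∧
      ∀ z : ℂ, ‖ev (cp T) (z ^ p)‖ ≤ ∏ ω ∈ nthRootsFinset p (1 : ℂ), ‖ev (cp S) (ω * z)‖ := by
  induction S using Multiset.induction_on with
  | empty =>
    refine ⟨0, by simp, rfl, fun z => le_of_eq ?_⟩
    rw [cp_zero]
    unfold ev
    simp
  | cons n S ih =>
    obtain ⟨T, hT, hd, hz⟩ := ih fun k hk => hS k (Multiset.mem_cons_of_mem hk)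
    obtain ⟨m, k, hm, hk, hz1⟩ := rot_cyc hp (hS n (Multiset.mem_cons_self n S))
    refine ⟨Multiset.replicate k m + T, ?_, ?_, ?_⟩
    · intro j hj
      rcases Multiset.mem_add.1 hj with h | h
      · rw [Multiset.eq_of_mem_replicate h]
        exact hm
      · exact hT j h
    · rw [cp_add, cp_replicate, cp_cons, ((cyclotomic.monic m ℤ).pow k).natDegree_mul (cp_monic T),
        (cyclotomic.monic n ℤ).natDegree_mul (cp_monic S), hd, (cyclotomic.monic m ℤ).natDegree_pow,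
        natDegree_cyclotomic, natDegree_cyclotomic, hk]
    · intro z
      rw [cp_add, cp_replicate, cp_cons, ev_mul, ev_pow, norm_mul, norm_pow,
        Finset.prod_congr rfl fun ω _ => by rw [ev_mul, norm_mul], Finset.prod_mul_distrib]
      exact mul_le_mul (hz1 z) (hz z) (norm_nonneg _) (Finset.prod_nonneg fun _ _ => norm_nonneg _)

theorem mlp_ev (F : ℤ[X]) : mlp F = Real.circleAverage (fun z => Real.posLog ‖ev F z‖) 0 1 := rfl

/-- the mean of `log⁺` under the push forward -/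
theorem mlp_push {p : ℕ} (hp : 0 < p) {F G : ℤ[X]}
    (h : ∀ z : ℂ, ‖ev G (z ^ p)‖ ≤ ∏ ω ∈ nthRootsFinset p (1 : ℂ), ‖ev F (ω * z)‖) :
    mlp G ≤ p * mlp F := by
  have hc : ∀ H : ℤ[X], Continuous fun z : ℂ => Real.posLog ‖ev H z‖ := fun H =>
    Real.continuous_posLog.comp (ev_cont H).norm
  have hc1 : ∀ g : ℂ → ℝ, Continuous g → CircleIntegrable g 0 1 := fun g hg =>
    hg.continuousOn.circleIntegrable zero_le_one
  have hcr : ∀ ω : ℂ, Continuous fun z : ℂ => Real.posLog ‖ev F (ω * z)‖ := fun ω =>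
    (hc F).comp (continuous_const.mul continuous_id)
  have e1 : mlp G = Real.circleAverage (fun z => Real.posLog ‖ev G (z ^ p)‖) 0 1 := by
    rw [mlp_ev, ← H90.LB.avg_pow (hc G) hp]
  have e2 : Real.circleAverage (fun z => ∑ ω ∈ nthRootsFinset p (1 : ℂ),
      Real.posLog ‖ev F (ω * z)‖) 0 1 = p * mlp F := by
    rw [Real.circleAverage_fun_sum fun ω _ => hc1 _ (hcr ω)]
    have h1 : ∀ ω ∈ nthRootsFinset p (1 : ℂ),
        Real.circleAverage (fun z => Real.posLog ‖ev F (ω * z)‖) 0 1 = mlp F := by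
      intro ω hω
      rw [avg_rot (fun z => Real.posLog ‖ev F z‖) (norm_rt hp hω)]
      rfl
    rw [Finset.sum_congr rfl h1, Finset.sum_const, card_rt hp, nsmul_eq_mul]
  rw [e1, ← e2]
  refine Real.circleAverage_mono (hc1 _ ((hc G).comp (continuous_pow p)))
    (hc1 _ (continuous_finsetSum _ fun ω _ => hcr ω)) fun z _ => ?_
  exact (Real.posLog_le_posLog (norm_nonneg _) (h z)).trans (Real.posLog_prod _ _)

theorem ratio_push {p : ℕ} (hp : p.Prime) {h : ℤ[X]} (hh : h ≠ 0) {S T : Multiset ℕ}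
    (hd : (cp T).natDegree = (cp S).natDegree)
    (hz : ∀ z : ℂ, ‖ev (cp T) (z ^ p)‖ ≤ ∏ ω ∈ nthRootsFinset p (1 : ℂ), ‖ev (cp S) (ω * z)‖)
    (e : ℕ) : ratio (expand ℤ p h) (cp S) e ≤ ratio h (cp T) (e * p) := by
  have hf : expand ℤ p h ≠ 0 := (expand_ne_zero hp.pos).2 hh
  have hP := (cp_monic S).ne_zero
  have hQ := (cp_monic T).ne_zero
  have h1 : mlp (h ^ (e * p) * cp T) ≤ p * mlp (expand ℤ p h ^ e * cp S) := by
    apply mlp_push hp.pos
    intro z
    rw [ev_mul, ev_pow, norm_mul, norm_pow, Finset.prod_congr rfl fun ω _ => by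
      rw [ev_mul, ev_pow, norm_mul, norm_pow], Finset.prod_mul_distrib, Finset.prod_pow,
      prod_expand hp.pos, ← pow_mul, mul_comm p e]
    exact mul_le_mul_of_nonneg_left (hz z) (by positivity)
  have h2 := mlp_nonneg (h ^ (e * p) * cp T)
  have h3 := mlp_nonneg (expand ℤ p h ^ e * cp S)
  unfold ratio
  rw [nd_F hf hP, nd_F hh hQ, hd, natDegree_expand]
  set lam := mlp (expand ℤ p h ^ e * cp S)
  set lam' := mlp (h ^ (e * p) * cp T)
  have hp1 : (1 : ℝ) ≤ p := by exact_mod_cast hp.one_lt.le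
  have hp0 : (0 : ℝ) < p := by linarith
  have e1 : e * (h.natDegree * p) = e * p * h.natDegree := by ring
  rw [e1]
  set N : ℝ := ((e * p * h.natDegree + (cp S).natDegree : ℕ) : ℝ) with hN
  have hN0 : 0 ≤ N := Nat.cast_nonneg _
  rcases eq_or_lt_of_le hN0 with h4 | h4
  · rw [← h4]
    simp
  · rw [div_le_div_iff₀ (by positivity) (by positivity)]
    push_cast
    have h5 : 1 + lam' ≤ p * (1 + lam) := by linarith
    have h6 : 0 ≤ (e : ℝ) ^ 2 * (h.natDegree * p) * N := by positivity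
    calc (e : ℝ) ^ 2 * (h.natDegree * p) * (N * (1 + lam')) =
          (e : ℝ) ^ 2 * (h.natDegree * p) * N * (1 + lam') := by ring
      _ ≤ (e : ℝ) ^ 2 * (h.natDegree * p) * N * (p * (1 + lam)) :=
          mul_le_mul_of_nonneg_left h5 h6
      _ = ((e : ℝ) * p) ^ 2 * h.natDegree * (N * (1 + lam)) := by ring

/-- **Theorem.** All irreducible polynomials and their cyclotomic multiples. -/
theorem cyc_bound : ∃ c : ℝ, 0 < c ∧ ∀ f : ℤ[X], Irreducible f → 0 < lm f →
    ∀ S : Multiset ℕ, (∀ n ∈ S, 0 < n) → ∀ e : ℕ, 1 ≤ e →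
    c * ratio f (cp S) e ^ 3 ≤ lm f := by
  obtain ⟨c, hc, hprim⟩ := cyc_prim
  refine ⟨c, hc, ?_⟩
  intro f
  induction hn : f.natDegree using Nat.strong_induction_on generalizing f with
  | _ n ih =>
    intro hf h0 S hS e he
    rcases Nat.eq_zero_or_pos n with hz | hnpos
    · have h1 : ratio f (cp S) e = 0 := by
        unfold ratio
        rw [hn, hz]
        simp
      rw [h1]
      norm_num
      exact h0.le
    by_cases hex : ∃ p : ℕ, p.Prime ∧ ∃ h : ℤ[X], f = expand ℤ p h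
    · obtain ⟨p, hp, h, rfl⟩ := hex
      have h1 : Irreducible h := of_irreducible_expand hp.ne_zero hf
      have hlm := H90.LB.red_lm_expand hp.pos h
      rw [natDegree_expand] at hn
      have h2 : 0 < h.natDegree := Nat.pos_of_mul_pos_right (by rw [hn]; exact hnpos)
      have h3 : h.natDegree < n := by
        rw [← hn]
        exact lt_mul_of_one_lt_right h2 hp.one_lt
      obtain ⟨T, hT, hd, hz⟩ := rot_cp hp S hS
      have h4 := ih h.natDegree h3 h rfl h1 (by rw [← hlm]; exact h0) T hT (e * p)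
        (Nat.mul_pos he hp.pos)
      have h5 := ratio_push hp h1.ne_zero hd hz e
      rw [hlm]
      refine le_trans ?_ h4
      apply mul_le_mul_of_nonneg_left _ hc.le
      exact pow_le_pow_left₀ (ratio_nonneg _ _ _) h5 3
    · exact hprim f hf h0 (fun p hp h he => hex ⟨p, hp, h, he⟩) S hS e he

end H92.LB
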