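import Pool.Agent.H92.LB.Disc

/-!
# LB: the determinant of a degenerate power basis
-/

set_option autoImplicit false

namespace H92.LB

open H82.LB Matrix

theorem det_factor {k d : ℕ} (x : Fin k → Fin d → ℂ) (g : Fin d → ℂ) :
    (Matrix.of fun (p q : Fin k × Fin d) => x q.1 q.2 ^ (p.1 : ℕ) * g q.2 ^ (p.2 : ℕ)).det =
      (Matrix.vandermonde g).det ^ k * ∏ b, (Matrix.vandermonde fun l => x l b).det := by
  have h1 : (Matrix.of fun (p q : Fin k × Fin d) =>
      x q.1 q.2 ^ (p.1 : ℕ) * g q.2 ^ (p.2 : ℕ)) =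
      Matrix.kroneckerMap (fun a b => a * b) (1 : Matrix (Fin k) (Fin k) ℂ)
        (Matrix.vandermonde g).transpose *
      Matrix.blockDiagonal (fun b => (Matrix.vandermonde fun l => x l b).transpose) := by
    ext p q
    obtain ⟨j, i⟩ := p
    obtain ⟨l, b⟩ := q
    rw [Matrix.mul_apply, Finset.sum_eq_single (j, b)]
    · simp [Matrix.kroneckerMap_apply, Matrix.blockDiagonal_apply, Matrix.vandermonde_apply,
        mul_comm]
    · rintro ⟨j', b'⟩ _ hne
      by_cases hj : j = j'
      · subst hj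
        have hb : b' ≠ b := fun h => hne (by rw [h])
        simp [Matrix.blockDiagonal_apply, hb]
      · simp [Matrix.kroneckerMap_apply, Matrix.one_apply, hj]
    · intro h
      exact absurd (Finset.mem_univ _) h
  rw [h1, Matrix.det_mul, Matrix.det_kronecker, Matrix.det_blockDiagonal, Matrix.det_one, one_pow,
    one_mul, Matrix.det_transpose, Fintype.card_fin]
  congr 1
  refine Finset.prod_congr rfl fun b _ => ?_
  rw [Matrix.det_transpose]

theorem log_vandermonde {n : ℕ} (v : Fin n → ℂ) (hv : Function.Injective v) :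
    2 * Real.log ‖(Matrix.vandermonde v).det‖ =
      ∑ i, ∑ j ∈ Finset.univ.erase i, Real.log ‖v i - v j‖ := by
  have h1 : Real.log ‖(Matrix.vandermonde v).det‖ =
      ∑ i, ∑ j ∈ Finset.Ioi i, Real.log ‖v j - v i‖ := by
    rw [Matrix.det_vandermonde, norm_prod, Real.log_prod]
    · refine Finset.sum_congr rfl fun i _ => ?_
      rw [norm_prod, Real.log_prod]
      intro j hj
      rw [norm_ne_zero_iff, sub_ne_zero]
      exact fun h => (Finset.mem_Ioi.1 hj).ne' (hv h)
    · intro i _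
      rw [norm_ne_zero_iff, Finset.prod_ne_zero_iff]
      intro j hj
      rw [sub_ne_zero]
      exact fun h => (Finset.mem_Ioi.1 hj).ne' (hv h)
  have h2 := Finset.sum_sum_Ioi_add_eq_sum_sum_off_diag (fun i j : Fin n => Real.log ‖v j - v i‖)
  have h3 : ∑ i, ∑ j ∈ Finset.Ioi i, (Real.log ‖v i - v j‖ + Real.log ‖v j - v i‖) =
      2 * ∑ i, ∑ j ∈ Finset.Ioi i, Real.log ‖v j - v i‖ := by
    rw [Finset.mul_sum]
    refine Finset.sum_congr rfl fun i _ => ?_
    rw [Finset.mul_sum]
    refine Finset.sum_congr rfl fun j _ => ?_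
    rw [norm_sub_rev]
    ring
  rw [h1, ← h3, h2]
  refine Finset.sum_congr rfl fun i _ => ?_
  refine Finset.sum_congr ?_ fun j _ => ?_
  · ext j
    simp
  · first | rfl | rw [norm_sub_rev]

/-- distinct points of the unit circle -/
theorem unit_pairs {n : ℕ} (z : Fin n → ℂ) (hz : Function.Injective z) (h1 : ∀ i, ‖z i‖ = 1) :
    ∑ i, ∑ j ∈ Finset.univ.erase i, Real.log ‖z i - z j‖ ≤ n * (Real.log n + 2) := by
  rcases Nat.eq_zero_or_pos n with rfl | hn
  · simp
  have hn1 : (1 : ℝ) ≤ n := by exact_mod_cast hn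
  have hn0 : (0 : ℝ) < n := by linarith
  set r : ℝ := 1 - 1 / (2 * n) with hr
  have h2n : 1 / (2 * (n : ℝ)) ≤ 1 / 2 := by
    rw [div_le_div_iff₀ (by positivity) (by norm_num)]
    linarith
  have h2n0 : 0 < 1 / (2 * (n : ℝ)) := by positivity
  have hr0 : 0 ≤ r := by rw [hr]; linarith
  have hr1 : r < 1 := by rw [hr]; linarith
  have h1r : 1 - r = 1 / (2 * n) := by rw [hr]; ring
  have hrf : ∀ i, rf (z i) = z i := fun i => by rw [rf, if_pos (h1 i).le]
  have hpl : ∀ i, Real.posLog ‖z i‖ = 0 := fun i => by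
    rw [Real.posLog_eq_zero_iff, h1 i, abs_one]
  have hpos := kr_posdef (fun _ : Fin n => (1 : ℝ)) (fun i => (r : ℂ) * z i) (fun i => by
    rw [norm_mul, h1 i, mul_one, Complex.norm_real, Real.norm_eq_abs, abs_of_nonneg hr0]
    exact hr1)
  simp only [one_mul] at hpos
  have hle : ∀ i, ∑ j, kr ((r : ℂ) * z i) ((r : ℂ) * z j) ≤
      Real.log (2 * n) - ∑ j ∈ Finset.univ.erase i, Real.log ‖z i - z j‖ + 1 := by
    intro i
    rw [← Finset.add_sum_erase _ _ (Finset.mem_univ i)]
    have h3 := kr_self_le (z i) hr0 hr1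
    rw [hrf i, h1r, one_div_one_div] at h3
    have h4 : ∑ j ∈ Finset.univ.erase i, kr ((r : ℂ) * z i) ((r : ℂ) * z j) ≤
        ∑ j ∈ Finset.univ.erase i, (- Real.log ‖z i - z j‖ + 1 / n) := by
      refine Finset.sum_le_sum fun j hj => ?_
      have h5 : z i ≠ z j := fun h => (Finset.ne_of_mem_erase hj) (hz h).symm
      have h6 := kr_le h5 hr0 hr1.le hr0 hr1.le
      rw [hrf i, hrf j, hpl i, hpl j, h1r] at h6
      have h7 : 1 / (2 * (n : ℝ)) + 1 / (2 * (n : ℝ)) = 1 / n := by
        field_simp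
        norm_num
      linarith
    rw [Finset.sum_add_distrib, Finset.sum_neg_distrib, Finset.sum_const, nsmul_eq_mul] at h4
    have h8 : ((Finset.univ.erase i).card : ℝ) * (1 / n) ≤ 1 := by
      rw [mul_one_div, div_le_one hn0]
      have h9 : (Finset.univ.erase i).card ≤ n := by
        calc (Finset.univ.erase i).card ≤ (Finset.univ : Finset (Fin n)).card :=
              Finset.card_le_card (Finset.erase_subset _ _)
          _ = n := by simp
      exact_mod_cast h9
    linarith
  have hsum := hpos.trans (Finset.sum_le_sum fun i _ => hle i)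
  rw [Finset.sum_add_distrib, Finset.sum_sub_distrib, Finset.sum_const, Finset.sum_const,
    Finset.card_univ, Fintype.card_fin, nsmul_eq_mul, nsmul_eq_mul] at hsum
  have hlog : Real.log (2 * n) ≤ Real.log n + 1 := by
    rw [Real.log_mul (by norm_num) hn0.ne']
    have := Real.log_two_lt_d9
    linarith
  nlinarith

/-- distinct points of the same absolute value -/
theorem circle_pairs {n : ℕ} (z : Fin n → ℂ) (hz : Function.Injective z) (ρ : ℝ) (hρ : 0 < ρ)
    (h1 : ∀ i, ‖z i‖ = ρ) :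
    ∑ i, ∑ j ∈ Finset.univ.erase i, Real.log ‖z i - z j‖ ≤
      n * (Real.log n + 2) + (n - 1) * ∑ i, Real.log ‖z i‖ := by
  rcases Nat.eq_zero_or_pos n with rfl | hn
  · simp
  have hρc : (ρ : ℂ) ≠ 0 := by exact_mod_cast hρ.ne'
  have hu := unit_pairs (fun i => z i / ρ) (fun i j h => hz (by
    simpa [div_left_inj' hρc] using h)) (fun i => by
    rw [norm_div, h1 i, Complex.norm_real, Real.norm_eq_abs, abs_of_pos hρ, div_self hρ.ne'])
  have h2 : ∀ i, ∑ j ∈ Finset.univ.erase i, Real.log ‖z i - z j‖ =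
      ∑ j ∈ Finset.univ.erase i, Real.log ‖z i / ρ - z j / ρ‖ + (n - 1) * Real.log ‖z i‖ := by
    intro i
    have h3 : ((n : ℝ) - 1) * Real.log ‖z i‖ = ∑ j ∈ Finset.univ.erase i, Real.log ρ := by
      rw [Finset.sum_const, Finset.card_erase_of_mem (Finset.mem_univ i), Finset.card_univ,
        Fintype.card_fin, nsmul_eq_mul, Nat.cast_sub hn, Nat.cast_one, h1 i]
    rw [h3, ← Finset.sum_add_distrib]
    refine Finset.sum_congr rfl fun j hj => ?_
    have h4 : z i - z j ≠ 0 := sub_ne_zero.2 fun h => (Finset.ne_of_mem_erase hj) (hz h).symm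
    rw [← sub_div, norm_div, Complex.norm_real, Real.norm_eq_abs, abs_of_pos hρ,
      Real.log_div (norm_ne_zero_iff.2 h4) hρ.ne']
    ring
  rw [Finset.sum_congr rfl fun i _ => h2 i, Finset.sum_add_distrib, ← Finset.mul_sum]
  linarith

end H92.LB
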