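import Pool.Agent.H92.LB.Disc

/-!
# LB, number field version

`α` an algebraic integer of degree `d` generating `L`, nondegenerate, `|D_L|^{1/d} ≥ d e^{-A}`: then
`log M(α) ≥ c / (1 + A)^3`.

PROOF. `|D_L|` divides the discriminant of the minimal polynomial of `α`.
-/

set_option autoImplicit false

namespace H92.LB

open Polynomial H91.LK

section Field

variable {L : Type*} [Field L] [NumberField L]

theorem norm_deriv (pb : PowerBasis ℚ L) (F : ℚ[X]) :
    ((Algebra.norm ℚ (aeval pb.gen F) : ℚ) : ℂ) =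
      (((minpoly ℚ pb.gen).aroots ℂ).map fun z => aeval z F).prod := by
  classical
  have h1 := Algebra.norm_eq_prod_embeddings ℚ ℂ (aeval pb.gen F)
  rw [eq_ratCast] at h1
  rw [h1]
  rw [Fintype.prod_equiv pb.liftEquiv' (fun σ : L →ₐ[ℚ] ℂ => σ (aeval pb.gen F))
    (fun x : { y : ℂ // y ∈ (minpoly ℚ pb.gen).aroots ℂ } => aeval (x : ℂ) F)]
  · rw [Finset.prod_mem_multiset _ _ (fun z => aeval z F) (fun _ => rfl),
      Finset.prod_eq_multiset_prod, Multiset.toFinset_val, Multiset.dedup_eq_self.mpr]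
    exact nodup_roots (Separable.map (Algebra.IsSeparable.isSeparable ℚ pb.gen))
  · intro σ
    rw [← aeval_algHom_apply, PowerBasis.liftEquiv'_apply_coe]

/-- the discriminant of the minimal polynomial and the discriminant of the power basis -/
theorem discr_powerBasis (pb : PowerBasis ℚ L) (hint : IsIntegral ℤ pb.gen) :
    ((|(minpoly ℤ pb.gen).discr| : ℤ) : ℚ) = |Algebra.discr ℚ pb.basis| := by
  have hm : (minpoly ℤ pb.gen).Monic := minpoly.monic hint
  have hdeg : 0 < (minpoly ℤ pb.gen).degree := minpoly.degree_pos hint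
  have hlc : |(minpoly ℤ pb.gen).leadingCoeff| = 1 := by rw [hm.leadingCoeff, abs_one]
  have hQ : minpoly ℚ pb.gen = (minpoly ℤ pb.gen).map (algebraMap ℤ ℚ) :=
    minpoly.isIntegrallyClosed_eq_field_fractions' ℚ hint
  have hC : (minpoly ℚ pb.gen).map (algebraMap ℚ ℂ) =
      (minpoly ℤ pb.gen).map (Int.castRingHom ℂ) := by
    rw [hQ, Polynomial.map_map]
    congr 1
  have hnat : ((minpoly ℤ pb.gen).map (Int.castRingHom ℂ)).natDegree =
    (minpoly ℤ pb.gen).natDegree := hm.natDegree_map _
  have hGm : ((minpoly ℤ pb.gen).map (Int.castRingHom ℂ)).Monic := hm.map _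
  have h1 := resultant_eq_prod_eval ((minpoly ℤ pb.gen).map (Int.castRingHom ℂ))
    (derivative ((minpoly ℤ pb.gen).map (Int.castRingHom ℂ))) ((minpoly ℤ pb.gen).natDegree - 1)
    (by rw [← hnat]; exact natDegree_derivative_le _) (IsAlgClosed.splits _)
  rw [hGm.leadingCoeff, one_pow, one_mul, hnat, derivative_map, resultant_map_map] at h1
  have h2 := norm_deriv pb (derivative (minpoly ℚ pb.gen))
  have h3 : (((minpoly ℚ pb.gen).aroots ℂ).map fun z => aeval z (derivative (minpoly ℚ pb.gen))) =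
      ((minpoly ℤ pb.gen).map (Int.castRingHom ℂ)).roots.map
        (fun z => eval z ((derivative (minpoly ℤ pb.gen)).map (Int.castRingHom ℂ))) := by
    rw [aroots_def, hC]
    refine Multiset.map_congr rfl fun z _ => ?_
    rw [← eval_map_algebraMap, ← derivative_map, hC, derivative_map]
  rw [h3, ← h1] at h2
  have h4 : |Algebra.discr ℚ pb.basis| =
      |Algebra.norm ℚ (aeval pb.gen (derivative (minpoly ℚ pb.gen)))| := by
    rw [Algebra.discr_powerBasis_eq_norm, abs_mul, abs_pow, abs_neg, abs_one, one_pow, one_mul]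
  rw [h4, abs_res hlc hdeg]
  have h5 := congrArg norm h2
  rw [eq_intCast, Complex.norm_intCast, Complex.norm_ratCast] at h5
  have h6 : ((|Algebra.norm ℚ (aeval pb.gen (derivative (minpoly ℚ pb.gen)))| : ℚ) : ℝ) =
      ((|resultant (minpoly ℤ pb.gen) (derivative (minpoly ℤ pb.gen))
        (minpoly ℤ pb.gen).natDegree ((minpoly ℤ pb.gen).natDegree - 1)| : ℤ) : ℝ) := by
    rw [Rat.cast_abs, h5, Int.cast_abs]
  exact_mod_cast h6.symm

/-- the discriminant of the field is at most the discriminant of a power basis of integers -/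
theorem discr_field_le (pb : PowerBasis ℚ L) (hint : IsIntegral ℤ pb.gen) :
    ((|NumberField.discr L| : ℤ) : ℚ) ≤ |Algebra.discr ℚ pb.basis| := by
  classical
  have hcard : Fintype.card (Module.Free.ChooseBasisIndex ℤ (NumberField.RingOfIntegers L)) =
      Fintype.card (Fin pb.dim) := by
    rw [Fintype.card_fin, ← Module.finrank_eq_card_basis (NumberField.integralBasis L),
      pb.finrank]
  let e := Fintype.equivOfCardEq hcard
  let b : Module.Basis (Fin pb.dim) ℚ L := (NumberField.integralBasis L).reindex e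
  have hb : Algebra.discr ℚ b = (NumberField.discr L : ℚ) := by
    rw [NumberField.coe_discr, ← Algebra.discr_reindex ℚ (NumberField.integralBasis L) e]
    congr 1
    ext i
    simp [b]
  -- the integral coordinates
  let v : Fin pb.dim → NumberField.RingOfIntegers L := fun i => ⟨pb.gen, hint⟩ ^ (i : ℕ)
  let M : Matrix (Fin pb.dim) (Fin pb.dim) ℤ := fun i j =>
    (NumberField.RingOfIntegers.basis L).repr (v j) (e.symm i)
  have hM : b.toMatrix pb.basis = M.map (algebraMap ℤ ℚ) := by
    ext i j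
    rw [Module.Basis.toMatrix_apply, Matrix.map_apply]
    have h1 : pb.basis j = algebraMap (NumberField.RingOfIntegers L) L (v j) := by
      rw [pb.basis_eq_pow]
      simp [v]
    rw [h1]
    simp only [b, Module.Basis.repr_reindex_apply, NumberField.integralBasis_repr_apply, M]
  have h2 := Algebra.discr_of_matrix_vecMul (A := ℚ) b (b.toMatrix pb.basis)
  rw [Module.Basis.toMatrix_map_vecMul, hb, hM] at h2
  have h3 : (M.map (algebraMap ℤ ℚ)).det = ((M.det : ℤ) : ℚ) := by
    have := RingHom.map_det (algebraMap ℤ ℚ) M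
    rw [RingHom.mapMatrix_apply] at this
    rw [← this, eq_intCast]
  rw [h3] at h2
  have h4 : Algebra.discr ℚ pb.basis ≠ 0 := Algebra.discr_not_zero_of_basis ℚ pb.basis
  have h5 : M.det ≠ 0 := by
    intro h
    apply h4
    rw [h2, h, Int.cast_zero]
    ring
  have h6 : (1 : ℤ) ≤ M.det ^ 2 := by
    have := sq_pos_of_ne_zero h5
    omega
  rw [h2, abs_mul, abs_pow, sq_abs, Int.cast_abs]
  have h7 : (1 : ℚ) ≤ (M.det : ℚ) ^ 2 := by exact_mod_cast h6
  exact le_mul_of_one_le_left (abs_nonneg _) h7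

theorem discr_field_le_minpoly (α : L) (hint : IsIntegral ℤ α)
    (htop : Algebra.adjoin ℚ {α} = ⊤) :
    |NumberField.discr L| ≤ |(minpoly ℤ α).discr| := by
  have hQ : IsIntegral ℚ α := Algebra.IsIntegral.isIntegral α
  have h1 := discr_field_le (PowerBasis.ofAdjoinEqTop hQ htop)
    (by rw [PowerBasis.ofAdjoinEqTop_gen]; exact hint)
  rw [← discr_powerBasis (PowerBasis.ofAdjoinEqTop hQ htop)
    (by rw [PowerBasis.ofAdjoinEqTop_gen]; exact hint), PowerBasis.ofAdjoinEqTop_gen] at h1
  exact_mod_cast h1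

end Field

/-- **Lehmer's problem for generators of fields with large root discriminant.** -/
theorem field_bound : ∃ c : ℝ, 0 < c ∧ ∀ (L : Type) [Field L] [NumberField L] (α : L) (A : ℝ),
    IsIntegral ℤ α → Algebra.adjoin ℚ {α} = ⊤ → 0 < lm (minpoly ℤ α) →
    (∀ x y : ℂ, ((minpoly ℤ α).map (Int.castRingHom ℂ)).eval x = 0 →
      ((minpoly ℤ α).map (Int.castRingHom ℂ)).eval y = 0 → x ≠ y →
      ∀ n : ℕ, 0 < n → x ^ n ≠ y ^ n) →
    0 ≤ A → Module.finrank ℚ L * (Real.log (Module.finrank ℚ L) - A) ≤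
      Real.log |(NumberField.discr L : ℝ)| →
    c / (1 + A) ^ 3 ≤ lm (minpoly ℤ α) := by
  obtain ⟨c, hc, h⟩ := disc_bound
  refine ⟨c, hc, fun L _ _ α A hint htop h0 hnd hA hdisc => ?_⟩
  refine h (minpoly ℤ α) A (minpoly.irreducible hint) h0 hnd hA ?_
  have hQ : IsIntegral ℚ α := Algebra.IsIntegral.isIntegral α
  have hdeg : (minpoly ℤ α).natDegree = Module.finrank ℚ L := by
    rw [(PowerBasis.ofAdjoinEqTop hQ htop).finrank, PowerBasis.ofAdjoinEqTop_dim,
      minpoly.isIntegrallyClosed_eq_field_fractions' ℚ hint,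
      (minpoly.monic hint).natDegree_map]
  rw [hdeg]
  refine hdisc.trans ?_
  have h1 : (0 : ℝ) < |(NumberField.discr L : ℝ)| := by
    rw [abs_pos]
    exact_mod_cast NumberField.discr_ne_zero L
  apply Real.log_le_log h1
  rw [← Int.cast_abs, ← Int.cast_abs]
  exact_mod_cast discr_field_le_minpoly α hint htop

end H92.LB
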