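import Pool.Agent.H92.LB.Det
import Pool.Agent.H92.LB.Field

/-!
# LB: the discriminant of the field and the discriminant of a norm

`α` generates `L`, `G α` = product of a block of conjugates of `α`: the discriminant of the family
`α^j (G α)^i` is `|Disc (G α)|^k` times the product of the discriminants of the blocks.
-/

set_option autoImplicit false

namespace H92.LB

open H25.Arith Polynomial H91.LK

section Integral

variable {L : Type*} [Field L] [NumberField L]

theorem discr_le_of_integral {κ : Type*} [Fintype κ] [DecidableEq κ]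
    (hcard : Fintype.card κ = Module.finrank ℚ L) (w : κ → NumberField.RingOfIntegers L)
    (hne : Algebra.discr ℚ (fun i => (w i : L)) ≠ 0) :
    ((|NumberField.discr L| : ℤ) : ℚ) ≤ |Algebra.discr ℚ (fun i => (w i : L))| := by
  classical
  have hcard' : Fintype.card (Module.Free.ChooseBasisIndex ℤ (NumberField.RingOfIntegers L)) =
      Fintype.card κ := by
    rw [hcard, ← Module.finrank_eq_card_basis (NumberField.integralBasis L)]
  let e := Fintype.equivOfCardEq hcard'
  let b : Module.Basis κ ℚ L := (NumberField.integralBasis L).reindex e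
  have hb : Algebra.discr ℚ b = (NumberField.discr L : ℚ) := by
    rw [NumberField.coe_discr, ← Algebra.discr_reindex ℚ (NumberField.integralBasis L) e]
    congr 1
    ext i
    simp [b]
  let M : Matrix κ κ ℤ := fun i j => (NumberField.RingOfIntegers.basis L).repr (w j) (e.symm i)
  have hM : b.toMatrix (fun i => (w i : L)) = M.map (algebraMap ℤ ℚ) := by
    ext i j
    rw [Module.Basis.toMatrix_apply, Matrix.map_apply]
    simp only [b, Module.Basis.repr_reindex_apply, M]
    exact NumberField.integralBasis_repr_apply L (w j) (e.symm i)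
  have h2 := Algebra.discr_of_matrix_vecMul (A := ℚ) b (b.toMatrix (fun i => (w i : L)))
  rw [Module.Basis.toMatrix_map_vecMul, hb, hM] at h2
  have h3 : (M.map (algebraMap ℤ ℚ)).det = ((M.det : ℤ) : ℚ) := by
    have := RingHom.map_det (algebraMap ℤ ℚ) M
    rw [RingHom.mapMatrix_apply] at this
    rw [← this, eq_intCast]
  rw [h3] at h2
  have h5 : M.det ≠ 0 := by
    intro h
    apply hne
    rw [h2, h, Int.cast_zero]
    ring
  have h6 : (1 : ℤ) ≤ M.det ^ 2 := by
    have := sq_pos_of_ne_zero h5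
    omega
  rw [h2, abs_mul, abs_pow, sq_abs, Int.cast_abs]
  have h7 : (1 : ℚ) ≤ (M.det : ℚ) ^ 2 := by exact_mod_cast h6
  exact le_mul_of_one_le_left (abs_nonneg _) h7

end Integral

variable {K : Type} [Field K] [NumberField K] [IsGalois ℚ K]

/-- an element fixed by the stabiliser of `ι a` comes from `L` -/
theorem exists_preimage {L : Type} [Field L] [NumberField L] (ι : L →ₐ[ℚ] K) (a : L) (γ : K)
    (h : ∀ g : K ≃ₐ[ℚ] K, g (ι a) = ι a → g γ = γ) : ∃ c : L, ι c = γ := by
  have h1 : γ ∈ IntermediateField.fixedField (IntermediateField.fixingSubgroup ι.fieldRange) := by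
    rw [IntermediateField.mem_fixedField_iff]
    intro g hg
    refine h g ?_
    exact (IntermediateField.mem_fixingSubgroup_iff _ g).1 hg (ι a) ⟨a, rfl⟩
  rw [IsGalois.fixedField_fixingSubgroup] at h1
  exact h1

/-- sums over pairs: the diagonal does not contribute -/
theorem sum_erase_eq {κ : Type*} [DecidableEq κ] (s : Finset κ) (f : κ → ℂ) (x : κ)
    (hx : x ∈ s) : ∑ y ∈ s.erase x, Real.log ‖f x - f y‖ = ∑ y ∈ s, Real.log ‖f x - f y‖ := by
  rw [← Finset.add_sum_erase _ _ hx, sub_self, norm_zero, Real.log_zero, zero_add]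

open Classical in
theorem discr_blocks {L : Type} [Field L] [NumberField L] (σ : K →+* ℂ) (a : L)
    (ha : IsIntegral ℤ a) (htop : Algebra.adjoin ℚ {a} = ⊤) (ι : L →ₐ[ℚ] K) (k : ℕ) (hk : 0 < k)
    (G : K → K) (hGint : IsIntegral ℤ (G (ι a)))
    (hG : ∀ (g : K ≃ₐ[ℚ] K), ∀ x ∈ orb (ι a), g (G x) = G (g x))
    (hfib : ∀ b ∈ orb (G (ι a)), ((orb (ι a)).filter (fun x => G x = b)).card = k)
    (hcard : (orb (ι a)).card = k * (orb (G (ι a))).card)
    (hnorm : ∀ x ∈ orb (ι a), ∀ y ∈ orb (ι a), G x = G y → ‖σ x‖ = ‖σ y‖)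
    (h0 : a ≠ 0) (hS : ∑ x ∈ orb (ι a), Real.posLog ‖σ x‖ ≤ 1) :
    Real.log |(NumberField.discr L : ℝ)| ≤
      k * Real.log |((minpoly ℤ (G (ι a))).discr : ℝ)| +
      (orb (ι a)).card * (Real.log k + 3) := by
  set α : K := ι a with hα
  set γ : K := G α with hγ
  set D : ℕ := (orb γ).card with hD
  have hαself : α ∈ orb α := nd_self_mem α
  -- the preimage of `γ`
  obtain ⟨c, hc⟩ := exists_preimage ι a γ (fun g hg => by
    rw [hγ, hG g α hαself, hα, hg])
  have hcint : IsIntegral ℤ c := by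
    have h1 := isIntegral_algHom_iff (ι.restrictScalars ℤ) (ι.toRingHom.injective) (x := c)
    apply h1.1
    change IsIntegral ℤ (ι c)
    rw [hc]
    exact hGint
  -- the embeddings
  have hch : ∀ x : {x // x ∈ orb α}, ∃ g : K ≃ₐ[ℚ] K, g α = x := fun x => Disc.mem_orb.1 x.2
  choose gg hgg using hch
  let τ : {x // x ∈ orb α} → (L →ₐ[ℚ] ℂ) := fun x =>
    (σ.toRatAlgHom).comp (((gg x : K →ₐ[ℚ] K)).comp ι)
  have hτa : ∀ x, τ x a = σ x := by
    intro x
    change σ (gg x (ι a)) = σ x
    rw [← hα, hgg x]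
  have hτc : ∀ x : {x // x ∈ orb α}, τ x c = σ (G x) := by
    intro x
    change σ (gg x (ι c)) = σ (G x)
    rw [hc, hγ, hG _ α hαself, hgg x]
  -- the enumeration
  let eg : {b // b ∈ orb γ} ≃ Fin D := (orb γ).equivFinOfCardEq hD.symm
  have hfib' : ∀ b : Fin D, ((orb α).filter (fun x => G x = (eg.symm b : K))).card = k :=
    fun b => hfib _ (eg.symm b).2
  let ef : ∀ b : Fin D, {x // x ∈ (orb α).filter (fun x => G x = (eg.symm b : K))} ≃ Fin k :=
    fun b => Finset.equivFinOfCardEq (hfib' b)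
  let X : Fin k × Fin D → {x // x ∈ orb α} := fun p =>
    ⟨((ef p.2).symm p.1 : K), (Finset.mem_filter.1 ((ef p.2).symm p.1).2).1⟩
  have hGX : ∀ p, G (X p : K) = (eg.symm p.2 : K) := fun p =>
    (Finset.mem_filter.1 ((ef p.2).symm p.1).2).2
  have hXinj : Function.Injective X := by
    rintro ⟨l, b⟩ ⟨l', b'⟩ h
    have h1 : b = b' := by
      apply eg.symm.injective
      apply Subtype.ext
      rw [← hGX (l, b), ← hGX (l', b'), h]
    subst h1
    have h2 : l = l' := by
      apply (ef b).symm.injective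
      apply Subtype.ext
      exact congrArg (fun z : {x // x ∈ orb α} => (z : K)) h
    rw [h2]
  have hfin : Module.finrank ℚ L = (orb α).card := by
    have hQ : IsIntegral ℚ a := Algebra.IsIntegral.isIntegral a
    rw [(PowerBasis.ofAdjoinEqTop hQ htop).finrank, PowerBasis.ofAdjoinEqTop_dim, orb_card α, hα,
      minpoly.algHom_eq ι ι.toRingHom.injective]
  have hcardκ : Fintype.card (Fin k × Fin D) = Module.finrank ℚ L := by
    rw [Fintype.card_prod, Fintype.card_fin, Fintype.card_fin, hfin, hcard]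
  have hTinj : Function.Injective (fun p => τ (X p)) := by
    intro p q h
    apply hXinj
    apply Subtype.ext
    apply σ.injective
    rw [← hτa, ← hτa]
    exact congrArg (fun t : L →ₐ[ℚ] ℂ => t a) h
  have hTbij : Function.Bijective (fun p => τ (X p)) := by
    rw [Fintype.bijective_iff_injective_and_card]
    exact ⟨hTinj, by rw [hcardκ, AlgHom.card]⟩
  let e : Fin k × Fin D ≃ (L →ₐ[ℚ] ℂ) := Equiv.ofBijective _ hTbij
  -- the family
  let w : Fin k × Fin D → NumberField.RingOfIntegers L := fun p =>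
    ⟨a ^ (p.1 : ℕ) * c ^ (p.2 : ℕ), (ha.pow _).mul (hcint.pow _)⟩
  have hw : ∀ p, ((w p : NumberField.RingOfIntegers L) : L) = a ^ (p.1 : ℕ) * c ^ (p.2 : ℕ) :=
    fun p => rfl
  let x : Fin k → Fin D → ℂ := fun l b => σ (X (l, b))
  let g : Fin D → ℂ := fun b => σ (eg.symm b)
  have hmat : Algebra.embeddingsMatrixReindex ℚ ℂ (fun i => ((w i : _) : L)) e =
      Matrix.of fun (p q : Fin k × Fin D) => x q.1 q.2 ^ (p.1 : ℕ) * g q.2 ^ (p.2 : ℕ) := by
    ext p q
    simp only [Algebra.embeddingsMatrixReindex, Matrix.reindex_apply, Matrix.submatrix_apply,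
      Equiv.refl_symm, Equiv.coe_refl, id_eq, Equiv.symm_symm, Algebra.embeddingsMatrix_apply,
      Matrix.of_apply, hw]
    have h1 : e q a = x q.1 q.2 := hτa (X q)
    have h2 : e q c = g q.2 := by
      have h3 : e q c = σ (G (X q)) := hτc (X q)
      rw [h3, hGX q]
    rw [map_mul, map_pow, map_pow, h1, h2]
  have hdisc := Algebra.discr_eq_det_embeddingsMatrixReindex_pow_two ℚ ℂ
    (fun i => ((w i : _) : L)) e
  rw [hmat, det_factor, eq_ratCast] at hdisc
  have hginj : Function.Injective g := fun b b' h =>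
    eg.symm.injective (Subtype.ext (σ.injective h))
  have hxinj : ∀ b, Function.Injective (fun l => x l b) := by
    intro b l l' h
    have h1 : X (l, b) = X (l', b) := Subtype.ext (σ.injective h)
    exact congrArg Prod.fst (hXinj h1)
  have hV : (Matrix.vandermonde g).det ≠ 0 := Matrix.det_vandermonde_ne_zero_iff.2 hginj
  have hVb : ∀ b, (Matrix.vandermonde fun l => x l b).det ≠ 0 := fun b =>
    Matrix.det_vandermonde_ne_zero_iff.2 (hxinj b)
  have hne : Algebra.discr ℚ (fun i => ((w i : _) : L)) ≠ 0 := by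
    intro h
    rw [h, Rat.cast_zero] at hdisc
    have h1 := pow_ne_zero 2 (mul_ne_zero (pow_ne_zero k hV)
      (Finset.prod_ne_zero_iff.2 fun b (_ : b ∈ Finset.univ) => hVb b))
    exact h1 hdisc.symm
  have hle := discr_le_of_integral hcardκ w hne
  have h1 : Real.log |(NumberField.discr L : ℝ)| ≤
      Real.log |((Algebra.discr ℚ (fun i => ((w i : _) : L)) : ℚ) : ℝ)| := by
    apply Real.log_le_log
    · rw [abs_pos]
      exact_mod_cast NumberField.discr_ne_zero L
    · rw [← Int.cast_abs, ← Rat.cast_abs]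
      exact_mod_cast hle
  refine h1.trans ?_
  have h2 : Real.log |((Algebra.discr ℚ (fun i => ((w i : _) : L)) : ℚ) : ℝ)| =
      k * (2 * Real.log ‖(Matrix.vandermonde g).det‖) +
        ∑ b, 2 * Real.log ‖(Matrix.vandermonde fun l => x l b).det‖ := by
    rw [← Complex.norm_ratCast, hdisc, norm_pow, norm_mul, norm_pow, norm_prod, Real.log_pow,
      Real.log_mul (pow_ne_zero _ (norm_ne_zero_iff.2 hV))
        (Finset.prod_ne_zero_iff.2 fun b _ => norm_ne_zero_iff.2 (hVb b)), Real.log_pow,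
      Real.log_prod fun b _ => norm_ne_zero_iff.2 (hVb b), ← Finset.mul_sum]
    push_cast
    ring
  rw [h2]
  -- the discriminant of `γ`
  have h3 : 2 * Real.log ‖(Matrix.vandermonde g).det‖ =
      Real.log |((minpoly ℤ γ).discr : ℝ)| := by
    rw [log_vandermonde g hginj, log_discr σ γ hGint]
    have h4 : ∀ x ∈ orb γ, ∑ y ∈ (orb γ).erase x, Real.log ‖σ x - σ y‖ =
        ∑ j : Fin D, Real.log ‖σ x - g j‖ := by
      intro x hx
      rw [sum_erase_eq _ σ x hx, ← Finset.sum_coe_sort (orb γ)]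
      exact (Equiv.sum_comp eg.symm (fun y : {b // b ∈ orb γ} => Real.log ‖σ x - σ y‖)).symm
    rw [Finset.sum_congr rfl h4, ← Finset.sum_coe_sort (orb γ),
      ← Equiv.sum_comp eg.symm (fun x : {b // b ∈ orb γ} => ∑ j, Real.log ‖σ x - g j‖)]
    refine Finset.sum_congr rfl fun i _ => ?_
    exact sum_erase_eq Finset.univ g i (Finset.mem_univ i)
  rw [h3]
  -- the blocks
  have hxne : ∀ p, σ (X p) ≠ 0 := by
    intro p h
    have h5 : τ (X p) a = 0 := by rw [hτa]; exact h
    exact h0 ((map_eq_zero_iff _ (τ (X p)).toRingHom.injective).1 h5)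
  have h4 : ∀ b, 2 * Real.log ‖(Matrix.vandermonde fun l => x l b).det‖ ≤
      k * (Real.log k + 2) + (k - 1) * ∑ l, Real.posLog ‖x l b‖ := by
    intro b
    rw [log_vandermonde _ (hxinj b)]
    have hkk : (0 : Fin k → ℕ) = 0 := rfl
    obtain ⟨l0⟩ : Nonempty (Fin k) := ⟨⟨0, hk⟩⟩
    have h5 := circle_pairs (fun l => x l b) (hxinj b) ‖x l0 b‖
      (norm_pos_iff.2 (hxne (l0, b))) (fun l => by
        apply hnorm _ (X (l, b)).2 _ (X (l0, b)).2
        rw [hGX, hGX])
    refine h5.trans ?_
    have hk1 : (0 : ℝ) ≤ k - 1 := by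
      have : (1 : ℝ) ≤ k := by exact_mod_cast hk
      linarith
    have h6 : ∑ l, Real.log ‖x l b‖ ≤ ∑ l, Real.posLog ‖x l b‖ :=
      Finset.sum_le_sum fun l _ => by
        rw [Real.posLog_def]
        exact le_max_right _ _
    gcongr
  have h5 : ∑ b, ∑ l, Real.posLog ‖x l b‖ ≤ 1 := by
    refine le_trans ?_ hS
    have h6 : ∑ b, ∑ l, Real.posLog ‖x l b‖ =
        ∑ p : Fin k × Fin D, Real.posLog ‖σ (X p)‖ := by
      rw [Fintype.sum_prod_type_right]
    rw [h6]
    have h7 : ∑ p : Fin k × Fin D, Real.posLog ‖σ (X p)‖ =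
        ∑ z ∈ Finset.univ.image (fun p => (X p : K)), Real.posLog ‖σ z‖ := by
      rw [Finset.sum_image]
      intro p _ q _ h
      exact hXinj (Subtype.ext h)
    rw [h7]
    refine Finset.sum_le_sum_of_subset_of_nonneg ?_ fun _ _ _ => Real.posLog_nonneg
    intro z hz
    obtain ⟨p, _, rfl⟩ := Finset.mem_image.1 hz
    exact (X p).2
  have h6 : ∑ b, 2 * Real.log ‖(Matrix.vandermonde fun l => x l b).det‖ ≤
      D * (k * (Real.log k + 2)) + (k - 1) := by
    refine (Finset.sum_le_sum fun b _ => h4 b).trans ?_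
    rw [Finset.sum_add_distrib, Finset.sum_const, Finset.card_univ, Fintype.card_fin,
      nsmul_eq_mul, ← Finset.mul_sum]
    have hk1 : (0 : ℝ) ≤ k - 1 := by
      have : (1 : ℝ) ≤ k := by exact_mod_cast hk
      linarith
    have h7 : ((k : ℝ) - 1) * ∑ b, ∑ l, Real.posLog ‖x l b‖ ≤ (k - 1) * 1 :=
      mul_le_mul_of_nonneg_left h5 hk1
    linarith
  have h7 : ((orb α).card : ℝ) = k * D := by
    rw [hcard]
    push_cast
    rfl
  have hD1 : (1 : ℝ) ≤ D := by exact_mod_cast one_le_orb γ
  have hk0 : (0 : ℝ) < k := by exact_mod_cast hk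
  rw [h7]
  nlinarith

end H92.LB
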