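import Pool.Agent.H15.LB.AB
import Pool.Agent.H7.LB.Main
import Pool.Agent.H23.LB.ToField
import Pool.Agent.H90.LB.Num

/-!
# LB, discriminant version

`f` irreducible, nondegenerate, of degree `d`, `|Disc f| ≥ (d e^{-A})^d`: then `log M(f) ≥ c / (1 + A)^3`.

PROOF. `main_ineq` with the constant `r = 1 - ε / d`. The diagonal terms of the energy are `≤ log (d / ε)`, the others sum up to
at most `- log |Disc f| + 2 d m + 2 d ε` (`kr_le`), so the energy per root is `≤ A + log (1 / ε) + 2 m + 2 ε`.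
-/

set_option autoImplicit false

namespace H92.LB

open H25.Arith Polynomial H91.LK H82.LB ComplexConjugate

section Orbit

variable {K : Type} [Field K] [NumberField K] [IsGalois ℚ K]

open Classical in
theorem eval_deriv (σ : K →+* ℂ) (α : K) (hα : IsIntegral ℤ α) (x : K) (hx : x ∈ orb α) :
    (derivative ((minpoly ℤ α).map (Int.castRingHom ℂ))).eval (σ x) =
      ∏ y ∈ (orb α).erase x, (σ x - σ y) := by
  rw [H23.LB.tf_split σ α hα, derivative_prod_finset, eval_finsetSum,
    Finset.sum_eq_single x]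
  · rw [derivative_X_sub_C, mul_one, eval_prod]
    refine Finset.prod_congr rfl fun y _ => ?_
    rw [eval_sub, eval_X, eval_C]
  · intro z _ hzx
    rw [eval_mul, eval_prod, Finset.prod_eq_zero (i := x), zero_mul]
    · exact Finset.mem_erase.2 ⟨hzx.symm, hx⟩
    · rw [eval_sub, eval_X, eval_C, sub_self]
  · intro h
    exact absurd hx h

theorem roots_eq (σ : K →+* ℂ) (α : K) (hα : IsIntegral ℤ α) :
    ((minpoly ℤ α).map (Int.castRingHom ℂ)).roots = (orb α).val.map σ := by
  rw [H23.LB.tf_split σ α hα, Finset.prod]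
  have h := roots_multiset_prod_X_sub_C ((orb α).val.map σ)
  rw [Multiset.map_map] at h
  exact h

/-- the resultant with the derivative -/
theorem abs_res {f : ℤ[X]} (hlc : |f.leadingCoeff| = 1) (hdeg : 0 < f.degree) :
    |f.discr| = |resultant f (derivative f) f.natDegree (f.natDegree - 1)| := by
  rw [resultant_deriv hdeg, abs_mul, abs_mul, abs_pow, abs_neg, abs_one, one_pow, one_mul, hlc,
    one_mul]

open Classical in
/-- the logarithm of the discriminant of the minimal polynomial -/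
theorem log_discr (σ : K →+* ℂ) (α : K) (hα : IsIntegral ℤ α) :
    Real.log |((minpoly ℤ α).discr : ℝ)| =
      ∑ x ∈ orb α, ∑ y ∈ (orb α).erase x, Real.log ‖σ x - σ y‖ := by
  have hm : (minpoly ℤ α).Monic := minpoly.monic hα
  have hdeg : 0 < (minpoly ℤ α).degree := minpoly.degree_pos hα
  have hlc : |(minpoly ℤ α).leadingCoeff| = 1 := by rw [hm.leadingCoeff, abs_one]
  have hnat : ((minpoly ℤ α).map (Int.castRingHom ℂ)).natDegree = (minpoly ℤ α).natDegree :=
    hm.natDegree_map _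
  have hGm : ((minpoly ℤ α).map (Int.castRingHom ℂ)).Monic := hm.map _
  have h1 := resultant_eq_prod_eval ((minpoly ℤ α).map (Int.castRingHom ℂ))
    (derivative ((minpoly ℤ α).map (Int.castRingHom ℂ))) ((minpoly ℤ α).natDegree - 1)
    (by rw [← hnat]; exact natDegree_derivative_le _) (IsAlgClosed.splits _)
  rw [hGm.leadingCoeff, one_pow, one_mul, roots_eq σ α hα, Multiset.map_map, hnat] at h1
  rw [derivative_map, resultant_map_map] at h1
  have h2 : (|((minpoly ℤ α).discr : ℝ)| : ℝ) =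
      ‖(Int.castRingHom ℂ) (resultant (minpoly ℤ α) (derivative (minpoly ℤ α))
        (minpoly ℤ α).natDegree ((minpoly ℤ α).natDegree - 1))‖ := by
    rw [eq_intCast, Complex.norm_intCast, ← Int.cast_abs, ← Int.cast_abs, abs_res hlc hdeg]
  have h3 : ((orb α).val.map ((fun z => eval z (derivative ((minpoly ℤ α).map
      (Int.castRingHom ℂ)))) ∘ σ)).prod = ∏ x ∈ orb α, ∏ y ∈ (orb α).erase x, (σ x - σ y) := by
    rw [← Finset.prod]
    exact Finset.prod_congr rfl fun x hx => eval_deriv σ α hα x hx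
  rw [derivative_map] at h3
  rw [h2, h1, h3, norm_prod, Real.log_prod]
  · refine Finset.sum_congr rfl fun x _ => ?_
    rw [norm_prod, Real.log_prod]
    intro y hy
    rw [norm_ne_zero_iff, sub_ne_zero]
    exact fun h => (Finset.ne_of_mem_erase hy) (σ.injective h).symm
  · intro x _
    rw [norm_ne_zero_iff, Finset.prod_ne_zero_iff]
    intro y hy
    rw [sub_ne_zero]
    exact fun h => (Finset.ne_of_mem_erase hy) (σ.injective h).symm

/-- the diagonal terms -/
theorem kr_self_le (a : ℂ) {r : ℝ} (hr0 : 0 ≤ r) (hr1 : r < 1) :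
    kr (r * rf a) (r * rf a) ≤ Real.log (1 / (1 - r)) := by
  have h1 : ‖(r : ℂ) * rf a‖ ≤ r := by
    rw [norm_mul, Complex.norm_real, Real.norm_eq_abs, abs_of_nonneg hr0]
    exact mul_le_of_le_one_right hr0 (rf_norm_le a)
  have h2 : ‖(r : ℂ) * rf a * conj ((r : ℂ) * rf a)‖ ≤ r := by
    rw [norm_mul, Complex.norm_conj]
    calc ‖(r : ℂ) * rf a‖ * ‖(r : ℂ) * rf a‖ ≤ r * 1 :=
          mul_le_mul h1 (h1.trans hr1.le) (norm_nonneg _) hr0
      _ = r := mul_one r
  have h3 : 1 - r ≤ ‖1 - (r : ℂ) * rf a * conj ((r : ℂ) * rf a)‖ := by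
    have h4 := norm_sub_norm_le (1 : ℂ) ((r : ℂ) * rf a * conj ((r : ℂ) * rf a))
    rw [norm_one] at h4
    linarith
  have h5 : 0 < 1 - r := by linarith
  rw [H82.LB.kr, one_div, Real.log_inv]
  exact neg_le_neg (Real.log_le_log h5 h3)

/-- the energy of the conjugates, shrunk by the factor `r` -/
theorem energy_disc (σ : K →+* ℂ) (α : K) (hα : IsIntegral ℤ α) {r : ℝ} (hr0 : 0 ≤ r)
    (hr1 : r < 1) :
    ∑ x ∈ orb α, ∑ y ∈ orb α, kr (r * rf (σ x)) (r * rf (σ y)) ≤
      (orb α).card * Real.log (1 / (1 - r)) - Real.log |((minpoly ℤ α).discr : ℝ)| +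
      2 * (orb α).card * ∑ x ∈ orb α, Real.posLog ‖σ x‖ + 2 * (orb α).card ^ 2 * (1 - r) := by
  classical
  rw [log_discr σ α hα]
  have h1 : ∀ x ∈ orb α, ∑ y ∈ orb α, kr (r * rf (σ x)) (r * rf (σ y)) ≤
      Real.log (1 / (1 - r)) - ∑ y ∈ (orb α).erase x, Real.log ‖σ x - σ y‖ +
      ((orb α).card * Real.posLog ‖σ x‖ + ∑ y ∈ orb α, Real.posLog ‖σ y‖ +
        (orb α).card * (2 * (1 - r))) := by
    intro x hx
    rw [← Finset.add_sum_erase _ _ hx]
    have h2 : ∑ y ∈ (orb α).erase x, kr (r * rf (σ x)) (r * rf (σ y)) ≤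
        ∑ y ∈ (orb α).erase x, (- Real.log ‖σ x - σ y‖ +
          (Real.posLog ‖σ x‖ + Real.posLog ‖σ y‖ + 2 * (1 - r))) := by
      refine Finset.sum_le_sum fun y hy => ?_
      have h3 : σ x ≠ σ y := fun h => (Finset.ne_of_mem_erase hy) (σ.injective h).symm
      have h4 := kr_le h3 hr0 hr1.le hr0 hr1.le
      linarith
    have h5 : ∑ y ∈ (orb α).erase x, (Real.posLog ‖σ x‖ + Real.posLog ‖σ y‖ + 2 * (1 - r)) ≤
        ∑ y ∈ orb α, (Real.posLog ‖σ x‖ + Real.posLog ‖σ y‖ + 2 * (1 - r)) := by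
      refine Finset.sum_le_sum_of_subset_of_nonneg (Finset.erase_subset _ _) fun y _ _ => ?_
      have h6 := Real.posLog_nonneg (x := ‖σ x‖)
      have h7 := Real.posLog_nonneg (x := ‖σ y‖)
      linarith
    rw [Finset.sum_add_distrib, Finset.sum_neg_distrib] at h2
    have h9 : ∑ y ∈ orb α, (Real.posLog ‖σ x‖ + Real.posLog ‖σ y‖ + 2 * (1 - r)) =
        (orb α).card * Real.posLog ‖σ x‖ + ∑ y ∈ orb α, Real.posLog ‖σ y‖ +
        (orb α).card * (2 * (1 - r)) := by
      rw [Finset.sum_add_distrib, Finset.sum_add_distrib, Finset.sum_const, Finset.sum_const,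
        nsmul_eq_mul, nsmul_eq_mul]
    have h8 := kr_self_le (σ x) hr0 hr1
    linarith
  refine (Finset.sum_le_sum h1).trans (le_of_eq ?_)
  rw [Finset.sum_add_distrib, Finset.sum_sub_distrib, Finset.sum_add_distrib,
    Finset.sum_add_distrib, ← Finset.mul_sum, Finset.sum_const, Finset.sum_const, Finset.sum_const,
    nsmul_eq_mul, nsmul_eq_mul, nsmul_eq_mul]
  ring

end Orbit

/-- the discriminant of an associated polynomial -/
theorem discr_assoc {f g : ℤ[X]} (hg : g.Monic) (hdeg : 0 < g.degree) (h : Associated g f) :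
    |f.discr| = |g.discr| := by
  obtain ⟨u, hu⟩ := h
  obtain ⟨c, hc, hcu⟩ := Polynomial.isUnit_iff.1 u.isUnit
  have hc1 : |c| = 1 := Int.isUnit_iff_abs_eq.1 hc
  have hc0 : c ≠ 0 := hc.ne_zero
  have hf : f = C c * g := by rw [← hu, ← hcu, mul_comm]
  have hdegf : 0 < f.degree := by
    rw [hf, degree_C_mul hc0]
    exact hdeg
  have hnat : f.natDegree = g.natDegree := by
    rw [hf, natDegree_C_mul hc0]
  have hlcf : |f.leadingCoeff| = 1 := by
    rw [hf, leadingCoeff_mul, leadingCoeff_C, hg.leadingCoeff, mul_one, hc1]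
  have hlcg : |g.leadingCoeff| = 1 := by rw [hg.leadingCoeff, abs_one]
  rw [abs_res hlcf hdegf, abs_res hlcg hdeg, hnat, hf, derivative_C_mul, resultant_C_mul_left,
    resultant_C_mul_right, abs_mul, abs_mul, abs_pow, abs_pow, hc1, one_pow, one_pow, one_mul,
    one_mul]

/-- **Lehmer's problem and the discriminant.** -/
theorem disc_bound : ∃ c : ℝ, 0 < c ∧ ∀ (f : ℤ[X]) (A : ℝ), Irreducible f → 0 < lm f →
    (∀ x y : ℂ, (f.map (Int.castRingHom ℂ)).eval x = 0 →
      (f.map (Int.castRingHom ℂ)).eval y = 0 → x ≠ y → ∀ n : ℕ, 0 < n → x ^ n ≠ y ^ n) →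
    0 ≤ A → f.natDegree * (Real.log f.natDegree - A) ≤ Real.log |(f.discr : ℝ)| →
    c / (1 + A) ^ 3 ≤ lm f := by
  obtain ⟨c, hc, hnum⟩ := H90.LB.numbers 3 (by norm_num)
  refine ⟨min c (Real.log 2), lt_min hc (Real.log_pos (by norm_num)), ?_⟩
  intro f A hf h0 hnd hA hdisc
  have hA1 : (1 : ℝ) ≤ (1 + A) ^ 3 := one_le_pow₀ (by linarith)
  rcases le_or_gt (Real.log 2) (lm f) with h2 | h2
  · calc min c (Real.log 2) / (1 + A) ^ 3 ≤ Real.log 2 / (1 + A) ^ 3 := by
          gcongr
          exact min_le_right _ _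
      _ ≤ Real.log 2 := div_le_self (Real.log_nonneg (by norm_num)) hA1
      _ ≤ lm f := h2
  have hlog2 : (0.69 : ℝ) < Real.log 2 := by
    have := Real.log_two_gt_d9
    linarith
  have hlog2' : Real.log 2 < 0.7 := by
    have := Real.log_two_lt_d9
    linarith
  -- a bound on the circle
  obtain ⟨B, hB⟩ : ∃ B : ℝ, ∀ z : ℂ, ‖z‖ = 1 → ‖(f.map (Int.castRingHom ℂ)).eval z‖ ≤ B := by
    have hcomp : IsCompact (Metric.sphere (0 : ℂ) 1) := isCompact_sphere 0 1
    obtain ⟨B, hB⟩ := hcomp.exists_bound_of_continuousOn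
      (f := fun z => (f.map (Int.castRingHom ℂ)).eval z) (Polynomial.continuous _).continuousOn
    exact ⟨B, fun z hz => hB z (by rw [mem_sphere_zero_iff_norm]; exact hz)⟩
  obtain ⟨K, i1, i2, i3, σ, α, hint, hassoc, hd1, hcard, hsum, -, hinj, hne, -⟩ :=
    H23.LB.to_field_full f hf h0 h2 B hB
  set d : ℝ := ((orb α).card : ℝ) with hd
  have hd1' : (1 : ℝ) ≤ d := by
    rw [hd]
    exact_mod_cast hd1
  have hd0 : 0 < d := by linarith
  have hdiscr : Real.log |(f.discr : ℝ)| = Real.log |((minpoly ℤ α).discr : ℝ)| := by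
    have h := discr_assoc (minpoly.monic hint) (minpoly.degree_pos hint) hassoc
    rw [← Int.cast_abs, ← Int.cast_abs, h]
  rw [← hcard] at hdisc
  refine le_trans ?_ (hnum A (lm f) hA h0 (by linarith) ?_)
  · gcongr
    exact min_le_left _ _
  intro ε hε hε2
  -- the parameters
  set r : ℝ := 1 - ε / d with hr
  have hεd : 0 < ε / d := div_pos hε hd0
  have hεd2 : ε / d ≤ 1 / 2 := (div_le_self hε.le hd1').trans hε2
  have hr0 : 0 ≤ r := by rw [hr]; linarith
  have hr1 : r < 1 := by rw [hr]; linarith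
  have h1r : 1 - r = ε / d := by rw [hr]; ring
  have hen := energy_disc σ α hint hr0 hr1
  rw [← hd, h1r, hsum, ← hdiscr] at hen
  set E : ℝ := (∑ x ∈ orb α, ∑ y ∈ orb α, kr (r * rf (σ x)) (r * rf (σ y))) with hE
  refine ⟨E / d, ε, ?_, ?_, ?_⟩
  · nlinarith
  · have hlogε : Real.log 2 ≤ Real.log (1 / ε) := by
      apply Real.log_le_log (by norm_num)
      rw [le_div_iff₀ hε]
      linarith
    have h1 : Real.log (1 / (ε / d)) = Real.log d + Real.log (1 / ε) := by
      rw [one_div_div, Real.log_div hd0.ne' hε.ne', one_div, Real.log_inv]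
      ring
    rw [h1] at hen
    have h2 : 2 * d ^ 2 * (ε / d) = d * (2 * ε) := by
      field_simp
    rw [h2] at hen
    have h3 : E ≤ d * (A + Real.log (1 / ε) + 2 * lm f + 2 * ε) := by
      nlinarith
    have h4 : E / d ≤ A + Real.log (1 / ε) + 2 * lm f + 2 * ε := by
      rw [div_le_iff₀ hd0]
      linarith
    have h5 : 0 ≤ A * lm f := mul_nonneg hA h0.le
    nlinarith [mul_nonneg hA (sub_nonneg.2 hlogε)]
  · intro T hT Q hQ
    have hmain := H82.LB.main_ineq σ α hint
      (fun p hp => hinj p fun u v hu hv huv => hnd u v hu hv huv p hp.pos) hne T hT Q hQ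
      (fun _ => r) (fun _ _ => hr0) (fun _ _ => hr1.le) (by
        intro x _
        have h1 : ‖(r : ℂ) * rf (σ x)‖ ≤ r := by
          rw [norm_mul, Complex.norm_real, Real.norm_eq_abs, abs_of_nonneg hr0]
          exact mul_le_of_le_one_right hr0 (rf_norm_le _)
        exact h1.trans_lt hr1)
    simp only [Finset.sum_const, nsmul_eq_mul] at hmain
    rw [hsum, h1r, ← hd, mul_div_cancel₀ ε hd0.ne', ← hE] at hmain
    have h6 : d * (2 * T * ∑ p ∈ Q, Real.log p) ≤ d * ((T ^ 2 + Q.card) * (E / d) +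
        4 * (T + Q.card) * (∑ p ∈ Q, (p : ℝ)) * (lm f + ε)) := by
      have h7 : d * ((T ^ 2 + Q.card) * (E / d) +
          4 * (T + Q.card) * (∑ p ∈ Q, (p : ℝ)) * (lm f + ε)) =
          (T ^ 2 + Q.card) * E + 4 * (T + Q.card) * (∑ p ∈ Q, (p : ℝ)) * d * (lm f + ε) := by
        field_simp
      rw [h7]
      linarith
    exact le_of_mul_le_mul_left h6 hd0

end H92.LB
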