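import Pool.Agent.H92.LB.Disc

/-!
# LB, discriminant version with the logarithmic factor, on the level of orbits
-/

set_option autoImplicit false

namespace H92.LB

open H25.Arith Polynomial H91.LK H82.LB

/-- the choice of the parameters -/
theorem param (C1 A : ℝ) (hC1 : 100 ≤ C1) (hA : 0 ≤ A) :
    0 < (Real.log (2 * A + C1) / (2 * A + C1)) ^ 3 / 8192 ∧
    (Real.log (2 * A + C1) / (2 * A + C1)) ^ 3 / 8192 ≤ 1 / 2 ∧
    A + Real.log (1 / ((Real.log (2 * A + C1) / (2 * A + C1)) ^ 3 / 8192)) + 3 ≤ 2 * A + C1 := by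
  set e : ℝ := 2 * A + C1 with he
  have he100 : 100 ≤ e := by rw [he]; linarith
  have he0 : 0 < e := by linarith
  have hl2 := Real.log_two_lt_d9
  have hle1 : 1 ≤ Real.log e := by
    rw [Real.le_log_iff_exp_le he0]
    have := Real.exp_one_lt_d9
    linarith
  have hle0 : 0 < Real.log e := by linarith
  have hlee : Real.log e ≤ e := (Real.log_le_sub_one_of_pos he0).trans (by linarith)
  have hq0 : 0 < Real.log e / e := div_pos hle0 he0
  have hq1 : Real.log e / e ≤ 1 := (div_le_one he0).2 hlee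
  have hq3 : (Real.log e / e) ^ 3 ≤ 1 := pow_le_one₀ hq0.le hq1
  refine ⟨by positivity, by linarith, ?_⟩
  have h1 : Real.log (1 / ((Real.log e / e) ^ 3 / 8192)) =
      3 * (Real.log e - Real.log (Real.log e)) + 13 * Real.log 2 := by
    rw [one_div_div, Real.log_div (by norm_num) (by positivity), Real.log_pow,
      Real.log_div hle0.ne' he0.ne', show (8192 : ℝ) = 2 ^ 13 by norm_num, Real.log_pow]
    push_cast
    ring
  have h2 : 0 ≤ Real.log (Real.log e) := Real.log_nonneg hle1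
  have h3 : Real.log e ≤ e / 10 - 1 + 4 * Real.log 2 := by
    have h4 := Real.log_le_sub_one_of_pos (x := e / 10) (by positivity)
    rw [Real.log_div he0.ne' (by norm_num)] at h4
    have h5 : Real.log 10 ≤ 4 * Real.log 2 := by
      have h6 : 4 * Real.log 2 = Real.log (2 ^ 4) := by rw [Real.log_pow]; norm_num
      rw [h6]
      exact Real.log_le_log (by norm_num) (by norm_num)
    linarith
  rw [h1]
  rw [he] at h3 ⊢
  linarith

/-- Lehmer's problem and the discriminant, orbit form, with the factor of Dobrowolski's theorem -/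
theorem orb_bound : ∃ c : ℝ, 0 < c ∧ ∀ (K : Type) [Field K] [NumberField K] [IsGalois ℚ K]
    (σ : K →+* ℂ) (α : K) (A : ℝ), IsIntegral ℤ α →
    (∀ p : ℕ, p.Prime → ∀ x ∈ orb α, ∀ y ∈ orb α, x ^ p = y ^ p → x = y) →
    (∀ p q : ℕ, 0 < p → 0 < q → p ≠ q → ∀ x ∈ orb α, ∀ y ∈ orb α, x ^ p ≠ y ^ q) →
    0 ≤ A →
    (orb α).card * (Real.log (orb α).card - A) ≤ Real.log |((minpoly ℤ α).discr : ℝ)| →
    c * (Real.log (2 + A) / (2 + A)) ^ 3 ≤ ∑ x ∈ orb α, Real.posLog ‖σ x‖ := by
  obtain ⟨e0, hcore⟩ := H90.LB.core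
  set C1 : ℝ := max e0 100 with hC1
  have hC1a : e0 ≤ C1 := le_max_left _ _
  have hC1b : 100 ≤ C1 := le_max_right _ _
  refine ⟨1 / (8192 * C1 ^ 3), by positivity, ?_⟩
  intro K _ _ _ σ α A hint hinj hne hA hdisc
  obtain ⟨hε, hε2, hpar⟩ := param C1 A hC1b hA
  set e : ℝ := 2 * A + C1 with he
  have he100 : 100 ≤ e := by rw [he]; linarith
  have he0 : 0 < e := by linarith
  set ε : ℝ := (Real.log e / e) ^ 3 / 8192 with hεdef
  set S : ℝ := ∑ x ∈ orb α, Real.posLog ‖σ x‖ with hS
  have hS0 : 0 ≤ S := Finset.sum_nonneg fun _ _ => Real.posLog_nonneg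
  -- comparison of the bounds
  have h2A : 0 < 2 + A := by linarith
  have hlog2A : 0 ≤ Real.log (2 + A) := Real.log_nonneg (by linarith)
  have hloge : Real.log (2 + A) ≤ Real.log e := Real.log_le_log h2A (by rw [he]; linarith)
  have heC : e ≤ C1 * (2 + A) := by rw [he]; nlinarith
  have hcmp : 1 / (8192 * C1 ^ 3) * (Real.log (2 + A) / (2 + A)) ^ 3 ≤ ε := by
    have h1 : Real.log (2 + A) / (C1 * (2 + A)) ≤ Real.log e / e := by
      calc Real.log (2 + A) / (C1 * (2 + A)) ≤ Real.log (2 + A) / e :=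
            div_le_div_of_nonneg_left hlog2A he0 heC
        _ ≤ Real.log e / e := by gcongr
    have h2 : (Real.log (2 + A) / (C1 * (2 + A))) ^ 3 ≤ (Real.log e / e) ^ 3 :=
      pow_le_pow_left₀ (by positivity) h1 3
    have h3 : 1 / (8192 * C1 ^ 3) * (Real.log (2 + A) / (2 + A)) ^ 3 =
        (Real.log (2 + A) / (C1 * (2 + A))) ^ 3 / 8192 := by
      field_simp
    rw [h3, hεdef]
    linarith
  refine hcmp.trans ?_
  rcases le_or_gt 1 S with hS1 | hS1
  · linarith
  set d : ℝ := ((orb α).card : ℝ) with hd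
  have hd1' : (1 : ℝ) ≤ d := by
    rw [hd]
    exact_mod_cast one_le_orb α
  have hd0 : 0 < d := by linarith
  set r : ℝ := 1 - ε / d with hr
  have hεd : 0 < ε / d := div_pos hε hd0
  have hεd2 : ε / d ≤ 1 / 2 := (div_le_self hε.le hd1').trans hε2
  have hr0 : 0 ≤ r := by rw [hr]; linarith
  have hr1 : r < 1 := by rw [hr]; linarith
  have h1r : 1 - r = ε / d := by rw [hr]; ring
  have hen := energy_disc σ α hint hr0 hr1
  rw [← hd, h1r, ← hS] at hen
  set E : ℝ := (∑ x ∈ orb α, ∑ y ∈ orb α, kr (r * rf (σ x)) (r * rf (σ y))) with hE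
  have hEe : E / d ≤ e := by
    have h1 : Real.log (1 / (ε / d)) = Real.log d + Real.log (1 / ε) := by
      rw [one_div_div, Real.log_div hd0.ne' hε.ne', one_div, Real.log_inv]
      ring
    rw [h1] at hen
    have h2 : 2 * d ^ 2 * (ε / d) = d * (2 * ε) := by
      field_simp
    rw [h2] at hen
    have h3 : E ≤ d * (A + Real.log (1 / ε) + 2 * S + 2 * ε) := by
      nlinarith
    have h4 : E / d ≤ A + Real.log (1 / ε) + 2 * S + 2 * ε := by
      rw [div_le_iff₀ hd0]
      linarith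
    linarith
  have hfin := hcore e (by rw [he]; linarith) (S + ε) (by linarith) (by
    intro T hT Q hQ
    have hmain := H82.LB.main_ineq σ α hint hinj hne T hT Q hQ
      (fun _ => r) (fun _ _ => hr0) (fun _ _ => hr1.le) (by
        intro x _
        have h1 : ‖(r : ℂ) * rf (σ x)‖ ≤ r := by
          rw [norm_mul, Complex.norm_real, Real.norm_eq_abs, abs_of_nonneg hr0]
          exact mul_le_of_le_one_right hr0 (rf_norm_le _)
        exact h1.trans_lt hr1)
    simp only [Finset.sum_const, nsmul_eq_mul] at hmain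
    rw [← hS, h1r, ← hd, mul_div_cancel₀ ε hd0.ne', ← hE] at hmain
    have h6 : d * (2 * T * ∑ p ∈ Q, Real.log p) ≤ d * ((T ^ 2 + Q.card) * (E / d) +
        4 * (T + Q.card) * (∑ p ∈ Q, (p : ℝ)) * (S + ε)) := by
      have h7 : d * ((T ^ 2 + Q.card) * (E / d) +
          4 * (T + Q.card) * (∑ p ∈ Q, (p : ℝ)) * (S + ε)) =
          (T ^ 2 + Q.card) * E + 4 * (T + Q.card) * (∑ p ∈ Q, (p : ℝ)) * d * (S + ε) := by
        field_simp
      rw [h7]
      linarith
    refine (le_of_mul_le_mul_left h6 hd0).trans ?_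
    gcongr)
  have h8 : (Real.log e / e) ^ 3 / 4096 = 2 * ε := by rw [hεdef]; ring
  linarith

end H92.LB
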