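import Pool.Agent.H92.LB.Dis
import Pool.Agent.H92.LB.Orb
import Pool.Agent.H23.LB.Blocks

/-!
# LB: the discriminant of the field, without any hypothesis on the conjugates
-/

set_option autoImplicit false

namespace H92.LB

open H25.Arith Polynomial H91.LK H82.LB

theorem log_div_mono (A : ℝ) (hA : 0 ≤ A) :
    (2 / 5) ^ 3 * (Real.log (2 + A) / (2 + A)) ^ 3 ≤ (Real.log (2 + (A + 3)) / (2 + (A + 3))) ^ 3 := by
  have h1 : 0 < 2 + A := by linarith
  have h2 : 0 ≤ Real.log (2 + A) := Real.log_nonneg (by linarith)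
  have h3 : Real.log (2 + A) ≤ Real.log (2 + (A + 3)) := Real.log_le_log h1 (by linarith)
  have h4 : 2 / 5 * (Real.log (2 + A) / (2 + A)) ≤ Real.log (2 + (A + 3)) / (2 + (A + 3)) := by
    calc 2 / 5 * (Real.log (2 + A) / (2 + A)) = Real.log (2 + A) / (5 / 2 * (2 + A)) := by
          field_simp
      _ ≤ Real.log (2 + A) / (2 + (A + 3)) :=
          div_le_div_of_nonneg_left h2 (by linarith) (by linarith)
      _ ≤ Real.log (2 + (A + 3)) / (2 + (A + 3)) := by gcongr
  rw [← mul_pow]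
  exact pow_le_pow_left₀ (by positivity) h4 3

/-- **Lehmer's problem and the discriminant of the field.** -/
theorem field_bound_general : ∃ c : ℝ, 0 < c ∧
    ∀ (L : Type) [Field L] [NumberField L] (α : L) (A : ℝ),
    IsIntegral ℤ α → Algebra.adjoin ℚ {α} = ⊤ → 0 < lm (minpoly ℤ α) →
    0 ≤ A → Module.finrank ℚ L * (Real.log (Module.finrank ℚ L) - A) ≤
      Real.log |(NumberField.discr L : ℝ)| →
    c * (Real.log (2 + A) / (2 + A)) ^ 3 ≤ lm (minpoly ℤ α) := by
  obtain ⟨c, hc, horb⟩ := orb_bound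
  refine ⟨min (c * (2 / 5) ^ 3) (Real.log 2),
    lt_min (by positivity) (Real.log_pos (by norm_num)), ?_⟩
  intro L _ _ α A hint htop h0 hA hdisc
  have h2A : 0 < 2 + A := by linarith
  have hl0 : 0 ≤ Real.log (2 + A) := Real.log_nonneg (by linarith)
  have hl1 : Real.log (2 + A) ≤ 2 + A := (Real.log_le_sub_one_of_pos h2A).trans (by linarith)
  have hq0 : 0 ≤ Real.log (2 + A) / (2 + A) := by positivity
  have hq1 : (Real.log (2 + A) / (2 + A)) ^ 3 ≤ 1 := pow_le_one₀ hq0 ((div_le_one h2A).2 hl1)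
  have hq3 : 0 ≤ (Real.log (2 + A) / (2 + A)) ^ 3 := by positivity
  rcases le_or_gt (Real.log 2) (lm (minpoly ℤ α)) with h2 | h2
  · calc min (c * (2 / 5) ^ 3) (Real.log 2) * (Real.log (2 + A) / (2 + A)) ^ 3
        ≤ Real.log 2 * 1 := by
          refine mul_le_mul (min_le_right _ _) hq1 hq3 (Real.log_nonneg (by norm_num))
      _ = Real.log 2 := mul_one _
      _ ≤ _ := h2
  obtain ⟨B, hB⟩ : ∃ B : ℝ, ∀ z : ℂ, ‖z‖ = 1 →
      ‖((minpoly ℤ α).map (Int.castRingHom ℂ)).eval z‖ ≤ B := by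
    have hcomp : IsCompact (Metric.sphere (0 : ℂ) 1) := isCompact_sphere 0 1
    obtain ⟨B, hB⟩ := hcomp.exists_bound_of_continuousOn
      (f := fun z => ((minpoly ℤ α).map (Int.castRingHom ℂ)).eval z)
      (Polynomial.continuous _).continuousOn
    exact ⟨B, fun z hz => hB z (by rw [mem_sphere_zero_iff_norm]; exact hz)⟩
  obtain ⟨K, i1, i2, i3, σ, β, hβint, hassoc, -, hcardβ, hsum, -, -, -, -⟩ :=
    H23.LB.to_field_full (minpoly ℤ α) (minpoly.irreducible hint) h0 h2 B hB
  have hmin : minpoly ℤ β = minpoly ℤ α :=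
    eq_of_monic_of_associated (minpoly.monic hβint) (minpoly.monic hint) hassoc
  -- the embedding
  have hQ : IsIntegral ℚ α := Algebra.IsIntegral.isIntegral α
  have hroot : aeval β (minpoly ℚ α) = 0 := by
    rw [minpoly.isIntegrallyClosed_eq_field_fractions' ℚ hint, ← hmin,
      ← minpoly.isIntegrallyClosed_eq_field_fractions' ℚ hβint, minpoly.aeval]
  let pb := PowerBasis.ofAdjoinEqTop hQ htop
  have hpb : pb.gen = α := PowerBasis.ofAdjoinEqTop_gen hQ htop
  let ι : L →ₐ[ℚ] K := pb.lift β (by rw [hpb]; exact hroot)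
  have hια : ι α = β := by
    have h : ι pb.gen = β := pb.lift_gen β (by rw [hpb]; exact hroot)
    exact (congrArg ι hpb).symm.trans h
  have hSpos : 0 < ∑ x ∈ orb β, Real.posLog ‖σ x‖ := by rw [hsum]; exact h0
  obtain ⟨k, G, hk, hGint, hG, hfib, hcard, hnorm, hGsum, hinj, hne⟩ :=
    H23.LB.blocks σ β hβint hSpos
  have hα0 : α ≠ 0 := by
    rintro rfl
    have h3 : ∑ x ∈ orb β, Real.posLog ‖σ x‖ = 0 := by
      refine Finset.sum_eq_zero fun x hx => ?_
      rw [← hια] at hx
      obtain ⟨g, rfl⟩ := Disc.mem_orb.1 hx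
      simp
    linarith
  have hlog2 := Real.log_two_lt_d9
  have hbl := discr_blocks σ α hint htop ι k hk G (by rw [hια]; exact hGint)
    (by rw [hια]; exact hG) (by rw [hια]; exact hfib) (by rw [hια]; exact hcard)
    (by rw [hια]; exact hnorm) hα0 (by rw [hια, hsum]; linarith)
  rw [hια] at hbl
  have hfin : Module.finrank ℚ L = (orb β).card := by
    rw [pb.finrank, hcardβ]
    change (minpoly ℚ α).natDegree = _
    rw [minpoly.isIntegrallyClosed_eq_field_fractions' ℚ hint, (minpoly.monic hint).natDegree_map]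
  rw [hfin] at hdisc
  have hk0 : (0 : ℝ) < k := by exact_mod_cast hk
  have hD1 : (1 : ℝ) ≤ (orb (G β)).card := by exact_mod_cast one_le_orb (G β)
  have hcardR : ((orb β).card : ℝ) = k * (orb (G β)).card := by
    rw [hcard]
    push_cast
    rfl
  have hlogd : Real.log ((orb β).card : ℝ) = Real.log k + Real.log ((orb (G β)).card : ℝ) := by
    rw [hcardR, Real.log_mul hk0.ne' (by linarith)]
  have hmain := horb K σ (G β) (A + 3) hGint (fun p hp => hinj p hp.pos) hne (by linarith) (by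
    have h3 : (k : ℝ) * ((orb (G β)).card * (Real.log ((orb (G β)).card : ℝ) - (A + 3))) ≤
        k * Real.log |((minpoly ℤ (G β)).discr : ℝ)| := by
      have h4 := hdisc.trans hbl
      rw [hlogd, hcardR] at h4
      linarith
    exact le_of_mul_le_mul_left h3 hk0)
  rw [hGsum, hsum] at hmain
  refine le_trans ?_ hmain
  calc min (c * (2 / 5) ^ 3) (Real.log 2) * (Real.log (2 + A) / (2 + A)) ^ 3
      ≤ (c * (2 / 5) ^ 3) * (Real.log (2 + A) / (2 + A)) ^ 3 := by
        gcongr
        exact min_le_left _ _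
    _ = c * ((2 / 5) ^ 3 * (Real.log (2 + A) / (2 + A)) ^ 3) := by ring
    _ ≤ c * (Real.log (2 + (A + 3)) / (2 + (A + 3))) ^ 3 := by
        gcongr
        exact log_div_mono A hA

end H92.LB
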